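import Pool.Agent.K4H25.GW.P6

/-!
`κ = ν` for the quotients of products of curves: the general theorem.
-/

set_option autoImplicit false
set_option linter.overlappingInstances false
set_option linter.unusedSectionVars false
set_option linter.unusedVariables false
set_option linter.unusedSimpArgs false
set_option maxHeartbeats 4000000
set_option synthInstance.maxHeartbeats 400000

open FF IntermediateField Pool.Agent.W619.PQ Pool.Agent.W619.PL Pool.Agent.W619.TW
  Pool.Agent.W603.LV Pool.Agent.K4H25.GQ Pool.Agent.Y174 Pool.Agent.R885.N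

namespace Pool.Agent.K4H25.GW

section

variable {M : Type} [Field M] [Algebra ℂ M] {q : ℕ}

/-- **The weighted criterion of Reid and Tai** for a group `J` which acts on the product of a variety
with the function field `Z` and of the curves `C i`: there are weights `δ i p ≥ 0` at the points `p`
of the curves `C i / J` (almost all of them zero) such that
* `r (1 - δ i p) ≥ 1` for the ramification indices `r` at the points over `p` of the curve
  `C' i` (`red`), the quotient of `C i` by the elements of `J` which are trivial on all the other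
  factors;
* if `g ∈ J` has the order `e > 1` on the product of the `C' i` and acts at the points `w i` of the
  `C' i`, over `p i` with the ramification index `r i`, as the rotation by `ζ ^ a i`,
  `0 ≤ a i < e`, `ζ` a primitive `e`-th root of unity, then `∑ i, r i (1 - δ i (p i)) a i ≥ e`;
  it suffices that this sum is at least `e - 1` if `g` is not trivial on `Z`;
* the degree of `K + ∑ p, δ i p · p` on `C i / J` is positive, or it is zero and `C' i` is
  elliptic. -/
structure WeightedCriterion (J : Subgroup (M ≃ₐ[ℂ] M)) (Z : IntermediateField ℂ M)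
    (C : Fin q → IntermediateField ℂ M) (δ : ∀ i, Place ℂ ↥(C i ⊓ fixedField J) → ℚ) : Prop where
  nonneg : ∀ i p, 0 ≤ δ i p
  branch : ∀ i (w : Place ℂ (red J Z C i)) (p : Place ℂ ↥(C i ⊓ fixedField J)) (r : ℕ),
    LiesOver (red_ge J Z C i) w p r → 1 ≤ r * (1 - δ i p)
  age : ∀ g ∈ J, ∀ e : ℕ, 1 < e → (∀ m : ℕ, (∀ i, ∀ z ∈ red J Z C i, (g ^ m) z = z) ↔ e ∣ m) →
    ∀ ζ : ℂ, IsPrimitiveRoot ζ e →
    ∀ (w : ∀ i, Place ℂ (red J Z C i)) (p : ∀ i, Place ℂ ↥(C i ⊓ fixedField J))
      (r a : Fin q → ℕ), (∀ i, LiesOver (red_ge J Z C i) (w i) (p i) (r i)) →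
      (∀ i, a i < e) → (∀ i, Rotates (red J Z C i) g (w i) (ζ ^ a i)) →
      (e : ℚ) ≤ ∑ i, r i * (1 - δ i (p i)) * a i ∨
        ((∃ z ∈ Z, g z ≠ z) ∧ (e : ℚ) ≤ ∑ i, r i * (1 - δ i (p i)) * a i + 1)
  degree : ∀ i, ∃ T : Finset (Place ℂ ↥(C i ⊓ fixedField J)), (∀ q, q ∉ T → δ i q = 0) ∧
    ((0 : ℚ) < canDeg ℂ ↥(C i ⊓ fixedField J) + ∑ q ∈ T, δ i q ∨
      ((0 : ℚ) ≤ canDeg ℂ ↥(C i ⊓ fixedField J) + ∑ q ∈ T, δ i q ∧
        canDeg ℂ (red J Z C i) = 0))

theorem iSup_append {d q : ℕ} (A : Fin d → IntermediateField ℂ M)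
    (C : Fin q → IntermediateField ℂ M) :
    (⨆ i, (Fin.append A C : Fin (d + q) → IntermediateField ℂ M) i) = (⨆ i, A i) ⊔ ⨆ i, C i := by
  apply le_antisymm
  · refine iSup_le fun i => ?_
    refine Fin.addCases (fun l => ?_) (fun l => ?_) i
    · rw [Fin.append_left]
      exact (le_iSup A l).trans le_sup_left
    · rw [Fin.append_right]
      exact (le_iSup C l).trans le_sup_right
  · refine sup_le (iSup_le fun l => ?_) (iSup_le fun l => ?_)
    · have h1 := le_iSup (fun i => (Fin.append A C : Fin (d + q) → IntermediateField ℂ M) i)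
        (Fin.castAdd q l)
      rwa [Fin.append_left] at h1
    · have h1 := le_iSup (fun i => (Fin.append A C : Fin (d + q) → IntermediateField ℂ M) i)
        (Fin.natAdd d l)
      rwa [Fin.append_right] at h1

/-- **The general theorem.** -/
theorem main_full {d : ℕ} (hn : Algebra.trdeg ℂ M = (d + q : ℕ))
    (A : Fin d → IntermediateField ℂ M) (C : Fin q → IntermediateField ℂ M)
    (hA : ∀ i, IsFF ℂ (A i)) (hC : ∀ i, IsFF ℂ (C i)) (hgen : (⨆ i, A i) ⊔ ⨆ i, C i = ⊤)
    (G : Subgroup (M ≃ₐ[ℂ] M)) [Finite G]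
    (hG : ∀ g ∈ G, ∀ i, ∃ j, ((Fin.append A C : Fin (d + q) → IntermediateField ℂ M) i).map
      (g : M →ₐ[ℂ] M) = (Fin.append A C : Fin (d + q) → IntermediateField ℂ M) j)
    (J : Subgroup (M ≃ₐ[ℂ] M)) (hJG : J ≤ G)
    (hJ : ∀ g ∈ J, ∀ i, ∀ z ∈ (Fin.append A C : Fin (d + q) → IntermediateField ℂ M) i,
      g z ∈ (Fin.append A C : Fin (d + q) → IntermediateField ℂ M) i)
    (hjun : ∀ g ∈ G, (∀ i, ∀ z ∈ (Fin.append A C : Fin (d + q) → IntermediateField ℂ M) i,
      g z ∈ (Fin.append A C : Fin (d + q) → IntermediateField ℂ M) i) →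
      Junior (Fin.append A C : Fin (d + q) → IntermediateField ℂ M) g → g ∈ J)
    (hswap : ∀ g ∈ G, ¬ JuniorSwap (Fin.append A C : Fin (d + q) → IntermediateField ℂ M) g)
    (hab : ∀ g ∈ J, ∀ h ∈ J, (∀ i, ∀ z ∈ C i, g z = z ∧ h z = z) →
      (∀ i, (¬ ∃ τ : M, ℂ⟮τ⟯ = A i ⊓ fixedField J) →
      (∀ z ∈ A i, g z = z) ∧ ∀ z ∈ A i, h z = z) → g * h = h * g)
    (δ : ∀ i, Place ℂ ↥(C i ⊓ fixedField J) → ℚ)
    (hcrit : WeightedCriterion J (⨆ i, A i) C δ) :
    PosB ℂ (fixedField G) (d + q) (fun _ => 0) ∨ NegB ℂ (fixedField G) (d + q) (fun _ => 0) := by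
  classical
  have hfJ : Finite J := Finite.of_injective (Subgroup.inclusion hJG)
    (Subgroup.inclusion_injective hJG)
  have hstA : ∀ g ∈ J, ∀ i, ∀ z ∈ A i, g z ∈ A i := by
    intro g hg i
    have h1 := hJ g hg (Fin.castAdd q i)
    rwa [Fin.append_left] at h1
  have hstC : ∀ g ∈ J, ∀ i, ∀ z ∈ C i, g z ∈ C i := by
    intro g hg i
    have h1 := hJ g hg (Fin.natAdd d i)
    rwa [Fin.append_right] at h1
  have hred : ∀ i, IsFF ℂ (red J (⨆ i, A i) C i) := by
    intro i
    have hle : J ⊓ ((⨆ i, A i) ⊔ ⨆ j : {j // j ≠ i}, C j).fixingSubgroup ≤ J := inf_le_left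
    have hfin : Finite ↥(J ⊓ ((⨆ i, A i) ⊔ ⨆ j : {j // j ≠ i}, C j).fixingSubgroup) :=
      Finite.of_injective (Subgroup.inclusion hle) (Subgroup.inclusion_injective hle)
    have := hC i
    exact isFF_inf (J ⊓ ((⨆ i, A i) ⊔ ⨆ j : {j // j ≠ i}, C j).fixingSubgroup) (C i)
      (fun g hg => hstC g (hle hg) i)
  have h1 := main_W hn A C hgen J hstA hstC hab (fun i => red J (⨆ i, A i) C i) (fun i => rfl)
    (fun i => red_ge J (⨆ i, A i) C i) hred δ hcrit.nonneg hcrit.branch hcrit.age hcrit.degree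
  have hFF : ∀ i, IsFF ℂ ((Fin.append A C : Fin (d + q) → IntermediateField ℂ M) i) := by
    intro i
    refine Fin.addCases (fun l => ?_) (fun l => ?_) i
    · rw [Fin.append_left]
      exact hA l
    · rw [Fin.append_right]
      exact hC l
  exact junior_red' (Fin.append A C : Fin (d + q) → IntermediateField ℂ M) hn
    (by rw [iSup_append]; exact hgen) G hG J hJG hjun hswap h1

end

end Pool.Agent.K4H25.GW
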