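import Pool.Agent.K4H25.GW.F1

/-!
`κ = ν` for the quotients of products of curves by groups with commuting junior elements.
-/

set_option autoImplicit false
set_option linter.overlappingInstances false
set_option linter.unusedSectionVars false
set_option linter.unusedVariables false
set_option linter.unusedSimpArgs false
set_option maxHeartbeats 4000000
set_option synthInstance.maxHeartbeats 400000

open FF IntermediateField Pool.Agent.W619.PQ Pool.Agent.W619.PL Pool.Agent.W619.TW
  Pool.Agent.W603.LV Pool.Agent.K4H25.GQ Pool.Agent.Y174 Pool.Agent.R885.N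

namespace Pool.Agent.K4H25.GW

section

variable {M : Type} [Field M] [Algebra ℂ M]

/-- rotations of a curve in a stable subfield -/
theorem rotates_lift {Z E : IntermediateField ℂ M} (hE : E ≤ Z) [IsFF ℂ E]
    (H : Subgroup (M ≃ₐ[ℂ] M)) (hstZ : ∀ g ∈ H, ∀ z ∈ Z, g z ∈ Z) (g : H)
    (w : Place ℂ ↥(restrict hE)) (θ : ℂ) (h : Rotates (restrict hE) (rho H Z hstZ g) w θ) :
    Rotates E (g : M ≃ₐ[ℂ] M) (pullP (restrictAlgEquiv hE) w) θ := by
  intro t z ht hz
  have h1 := h (restrictAlgEquiv hE t) (restrictAlgEquiv hE z) ht (by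
    apply Subtype.ext
    exact hz)
  have h2 : restrictAlgEquiv hE z - algebraMap ℂ ↥(restrict hE) θ * restrictAlgEquiv hE t =
      restrictAlgEquiv hE (z - algebraMap ℂ E θ * t) := by
    rw [map_sub, map_mul, AlgEquiv.commutes]
  rw [h2] at h1
  rcases h1 with h1 | h1
  · left
    exact (map_eq_zero _).1 h1
  · right
    exact h1

/-- An element which is junior on some of the curves and trivial on the others is junior. -/
theorem junior_lift {n d : ℕ} (C : Fin n → IntermediateField ℂ M) [∀ l, IsFF ℂ (C l)]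
    (hgen : ⨆ l, C l = ⊤) {Z : IntermediateField ℂ M} (s : Fin d → Fin n)
    (hs : Function.Injective s) (hCZ : ∀ j, C (s j) ≤ Z) (H : Subgroup (M ≃ₐ[ℂ] M))
    (hstZ : ∀ g ∈ H, ∀ z ∈ Z, g z ∈ Z) (g : H)
    (htriv : ∀ l, (¬ ∃ j, s j = l) → ∀ z ∈ C l, (g : M ≃ₐ[ℂ] M) z = z)
    (h : Junior (fun j => restrict (hCZ j)) (rho H Z hstZ g)) :
    Junior C (g : M ≃ₐ[ℂ] M) := by
  classical
  obtain ⟨hne, ζ, w, a, hζ, hrot, hsum⟩ := h
  have hpow : ∀ m : ℕ, (rho H Z hstZ g) ^ m = 1 ↔ (g : M ≃ₐ[ℂ] M) ^ m = 1 := by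
    intro m
    rw [← map_pow]
    constructor
    · intro h1
      have h2 : ∀ l, ∀ z ∈ C l, ((g : M ≃ₐ[ℂ] M) ^ m) z = z := by
        intro l z hz
        by_cases hl : ∃ j, s j = l
        · obtain ⟨j, rfl⟩ := hl
          have h3 : ((rho H Z hstZ (g ^ m) ⟨z, hCZ j hz⟩ : Z) : M) = z := by
            rw [h1]
            rfl
          exact h3
        · have h3 := htriv l hl
          clear h1
          induction m with
          | zero => rfl
          | succ m ih =>
            rw [pow_succ']
            change (g : M ≃ₐ[ℂ] M) (((g : M ≃ₐ[ℂ] M) ^ m) z) = z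
            rw [ih, h3 z hz]
      have h3 : (⨆ l, C l) ≤ fixedField (Subgroup.zpowers ((g : M ≃ₐ[ℂ] M) ^ m)) :=
        iSup_le fun l => le_fix_zpowers (h2 l)
      apply AlgEquiv.ext
      intro z
      have h4 : z ∈ ⨆ l, C l := by
        rw [hgen]
        trivial
      exact h3 h4 ⟨_, Subgroup.mem_zpowers _⟩
    · intro h1
      apply AlgEquiv.ext
      intro z
      apply Subtype.ext
      change ((g : M ≃ₐ[ℂ] M) ^ m) z = z
      rw [h1]
      rfl
  have hord : orderOf (g : M ≃ₐ[ℂ] M) = orderOf (rho H Z hstZ g) :=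
    (orderOf_eq_orderOf_iff.2 hpow).symm
  have hex : ∀ l, ∃ (w' : Place ℂ (C l)) (a' : ℕ), Rotates (C l) (g : M ≃ₐ[ℂ] M) w' (ζ ^ a') ∧
      (∀ j, s j = l → a' = a j) ∧ ((¬ ∃ j, s j = l) → a' = 0) := by
    intro l
    by_cases hl : ∃ j, s j = l
    · obtain ⟨j, rfl⟩ := hl
      refine ⟨_, a j, rotates_lift (hCZ j) H hstZ g (w j) _ (hrot j), fun j' hj' => ?_,
        fun h => absurd ⟨j, rfl⟩ h⟩
      rw [hs hj']
    · obtain ⟨w', -⟩ := exists_place (k := ℂ) (K := C l)
      refine ⟨w', 0, fun t z ht hz => Or.inl ?_, fun j hj => absurd ⟨j, hj⟩ hl, fun _ => rfl⟩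
      apply Subtype.ext
      rw [pow_zero, map_one, one_mul]
      have h1 := htriv l hl t t.2
      rw [hz] at h1
      change (z : M) - t = 0
      rw [h1, sub_self]
  choose w' a' hw' ha' ha0 using hex
  refine ⟨fun h1 => hne ?_, ζ, w', a', by rw [hord]; exact hζ, hw', ?_⟩
  · have h2 := (hpow 1).2 (by rw [pow_one]; exact h1)
    rwa [pow_one] at h2
  · rw [hord, ← Fintype.sum_of_injective s hs a a' (fun l hl => ha0 l fun h => hl h)
      (fun j => (ha' (s j) j rfl).symm)]
    exact hsum

end

/-- **Quotients of products of curves by finite groups.** The junior elements of `G` which are trivial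
on all the curves whose quotient is not rational commute. -/
theorem main_jun (n : ℕ) : ∀ (M : Type) [Field M] [Algebra ℂ M]
    (C : Fin n → IntermediateField ℂ M) [∀ i, IsFF ℂ (C i)] (G : Subgroup (M ≃ₐ[ℂ] M)) [Finite G],
    Algebra.trdeg ℂ M = (n : ℕ) → ⨆ i, C i = ⊤ →
    (∀ g ∈ G, ∀ i, ∀ z ∈ C i, g z ∈ C i) →
    (∀ g ∈ G, ∀ h ∈ G, Junior C g → Junior C h →
      (∀ i, (¬ ∃ τ : M, ℂ⟮τ⟯ = C i ⊓ fixedField G) →
      (∀ z ∈ C i, g z = z) ∧ ∀ z ∈ C i, h z = z) → g * h = h * g) →
    PosB ℂ (fixedField G) n (fun _ => 0) ∨ NegB ℂ (fixedField G) n (fun _ => 0) := by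
  induction n with
  | zero =>
    intro M _ _ C hC G _ hn hgen hst hab
    left
    have halgG := Pool.Agent.W721.PG.EFF2.alg_fixed G
    obtain ⟨htK, -⟩ := Pool.Agent.W721.PG.EFF2.exists_basis (fixedField G) 0 hn
    exact good_zero (by rw [htK, Nat.cast_zero])
  | succ n ih =>
    intro M _ _ C hC G _ hn hgen hst hab
    have hessM : Algebra.EssFiniteType ℂ M := by
      have h1 : Algebra.EssFiniteType ℂ ↥(⨆ i, C i) :=
        essFiniteType_iff.2 (fg_iSup fun j => essFiniteType_iff.1 (IsFF.ess))
      rw [hgen] at h1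
      exact (Algebra.EssFiniteType.iff_of_algEquiv (topEquiv (F := ℂ) (E := M))).1 h1
    by_cases hall : ∀ i, ∃ τ : M, ℂ⟮τ⟯ = C i ⊓ fixedField G
    · -- the subgroup generated by the junior elements
      let J : Subgroup (M ≃ₐ[ℂ] M) := Subgroup.closure {g | g ∈ G ∧ Junior C g}
      have hJG : J ≤ G := (Subgroup.closure_le G).2 fun g hg => hg.1
      have hfJ : Finite J := Finite.of_injective (Subgroup.inclusion hJG)
        (Subgroup.inclusion_injective hJG)
      refine junior_red C hn hgen G hst J hJG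
        (fun g hg hj => Subgroup.subset_closure ⟨hg, hj⟩) ?_
      have hcomm : ∀ g ∈ J, ∀ h ∈ J, g * h = h * g := by
        intro g hg h hh
        have h1 : J ≤ Subgroup.centralizer {g | g ∈ G ∧ Junior C g} := by
          refine (Subgroup.closure_le _).2 fun x hx => ?_
          rw [SetLike.mem_coe, Subgroup.mem_centralizer_iff]
          intro y hy
          exact hab y hy.1 x hx.1 hy.2 hx.2 fun i hi => absurd (hall i) hi
        have h2 : J ≤ Subgroup.centralizer (J : Set (M ≃ₐ[ℂ] M)) := by
          have h3 := Subgroup.closure_le_centralizer_centralizer {g | g ∈ G ∧ Junior C g}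
          exact h3.trans (Subgroup.centralizer_le h1)
        exact ((Subgroup.mem_centralizer_iff.1 (h2 hh)) g hg)
      have hallJ : ∀ i, ∃ τ : M, ℂ⟮τ⟯ = C i ⊓ fixedField G := hall
      exact main_ind (n + 1) M C J hn hgen (fun g hg => hst g (hJG hg))
        fun g hg h hh _ => hcomm g hg h hh
    rw [not_forall] at hall
    obtain ⟨i, hi⟩ := hall
    obtain ⟨A, hA⟩ : ∃ A : IntermediateField ℂ M, A = ⨆ j : Fin n, C (i.succAbove j) := ⟨_, rfl⟩
    have hCA : ∀ j : Fin n, C (i.succAbove j) ≤ A := fun j => by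
      rw [hA]
      exact le_iSup (fun j : Fin n => C (i.succAbove j)) j
    have hsup : A ⊔ C i = ⊤ := by
      rw [eq_top_iff, ← hgen]
      refine iSup_le fun l => ?_
      by_cases hl : l = i
      · rw [hl]
        exact le_sup_right
      · obtain ⟨j, rfl⟩ := Fin.exists_succAbove_eq hl
        exact (hCA j).trans le_sup_left
    have hstA : ∀ g ∈ G, ∀ z ∈ A, g z ∈ A := by
      intro g hg
      rw [hA]
      exact iSup_stable fun j => hst g hg (i.succAbove j)
    -- the curves in `A`
    let C' : Fin n → IntermediateField ℂ A := fun j => restrict (hCA j)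
    have hC' : ∀ j, IsFF ℂ (C' j) := fun j =>
      isFF_iso (restrictAlgEquiv (hCA j)).symm (hC (i.succAbove j))
    have hgen' : ⨆ j, C' j = ⊤ := by
      apply lift_injective A
      rw [lift_top]
      have h1 : lift (⨆ j, C' j) = ⨆ j, lift (C' j) := by
        unfold IntermediateField.lift
        rw [IntermediateField.map_iSup]
      rw [h1]
      simp only [C', lift_restrict]
      exact hA.symm
    have hessA : Algebra.EssFiniteType ℂ A := by
      rw [hA]
      exact essFiniteType_iff.2 (fg_iSup fun j => essFiniteType_iff.1 (IsFF.ess))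
    have htA : Algebra.trdeg ℂ A = (n : ℕ) := by
      have h1 := Pool.Agent.W824.PG.trdeg_le_of_sup (⊥ : IntermediateField ℂ A) C' (trdeg_bot A)
        (by rw [bot_sup_eq]; exact hgen')
      rw [Nat.zero_add] at h1
      obtain ⟨m, hm⟩ := Cardinal.lt_aleph0.1 (lt_of_le_of_lt h1 Cardinal.natCast_lt_aleph0)
      have h2 := Pool.Agent.W824.PG.trdeg_le_of_sup (d := m) A (fun _ : Fin 1 => C i) hm
        (by rw [ciSup_const]; exact hsup)
      rw [hn] at h2
      rw [hm] at h1 ⊢
      have h3 : m ≤ n := by exact_mod_cast h1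
      have h4 : n + 1 ≤ m + 1 := by exact_mod_cast h2
      have h5 : m = n := by omega
      rw [h5]
    refine glue hn A (C i) htA hessA hsup G hstA (fun g hg => hst g hg i)
      (by rw [← rat_iff]; exact hi) ?_
    -- the induction hypothesis
    obtain ⟨H, hH⟩ : ∃ H, H = G ⊓ (C i).fixingSubgroup := ⟨_, rfl⟩
    rw [← hH]
    have hHG : H ≤ G := by rw [hH]; exact inf_le_left
    have hfH : Finite H := Finite.of_injective (Subgroup.inclusion hHG)
      (Subgroup.inclusion_injective hHG)
    have hHC : ∀ g ∈ H, ∀ z ∈ C i, g z = z := by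
      intro g hg
      rw [hH] at hg
      exact mem_fixer.1 hg.2
    have hstH : ∀ g ∈ H, ∀ z ∈ A, g z ∈ A := fun g hg => hstA g (hHG hg)
    let H1 : Subgroup (A ≃ₐ[ℂ] A) := (rho H A hstH).range
    have hfH1 : Finite H1 := Finite.of_surjective _ (MonoidHom.rangeRestrict_surjective _)
    have hlift : lift (fixedField H1) = A ⊓ fixedField H := lift_fixed H A hstH
    have hjl : ∀ g : H, Junior C' (rho H A hstH g) → Junior C (g : M ≃ₐ[ℂ] M) := by
      intro g hg
      refine junior_lift C hgen (fun j => i.succAbove j) Fin.succAbove_right_injective hCA H hstH g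
        (fun l hl => ?_) hg
      have hli : l = i := by
        by_contra hne
        exact hl (Fin.exists_succAbove_eq hne)
      rw [hli]
      exact hHC g g.2
    have hmain := ih A C' H1 htA hgen' (by
      rintro _ ⟨g, rfl⟩ j z hz
      exact (mem_restrict (hCA j) _).2
        (hst g (hHG g.2) (i.succAbove j) z ((mem_restrict (hCA j) _).1 hz))) (by
      rintro _ ⟨g, rfl⟩ _ ⟨h, rfl⟩ hjg hjh hgh
      have h1 : (g : M ≃ₐ[ℂ] M) * h = h * g := by
        refine hab g (hHG g.2) h (hHG h.2) (hjl g hjg) (hjl h hjh) fun l hl => ?_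
        by_cases hli : l = i
        · rw [hli]
          exact ⟨hHC g g.2, hHC h h.2⟩
        · obtain ⟨j, rfl⟩ := Fin.exists_succAbove_eq hli
          have h2 : ¬ ∃ τ : A, ℂ⟮τ⟯ = C' j ⊓ fixedField H1 := by
            intro hcon
            apply hl
            apply rat_down G H hHG (C (i.succAbove j)) (fun g hg => hst g hg _)
            rw [rat_iff] at hcon ⊢
            have h3 : lift (C' j ⊓ fixedField H1) = C (i.succAbove j) ⊓ fixedField H := by
              rw [lift_inf, hlift, lift_restrict, ← inf_assoc]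
              congr 1
              exact inf_eq_left.2 (hCA j)
            exact rat_iso ((liftAlgEquiv (C' j ⊓ fixedField H1)).trans (equivOfEq h3)) hcon
          obtain ⟨h3, h4⟩ := hgh j h2
          exact ⟨fun z hz => congrArg (Subtype.val : A → M)
              (h3 ⟨z, hCA j hz⟩ ((mem_restrict (hCA j) _).2 hz)),
            fun z hz => congrArg (Subtype.val : A → M)
              (h4 ⟨z, hCA j hz⟩ ((mem_restrict (hCA j) _).2 hz))⟩
      rw [← map_mul, ← map_mul]
      congr 1
      exact Subtype.ext h1)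
    obtain ⟨h1, h2⟩ := trdeg_inf H A hstH htA hessA
    exact good_iso ((liftAlgEquiv (fixedField H1)).trans (equivOfEq hlift)).symm h2 h1 hmain

end Pool.Agent.K4H25.GW
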