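import Pool.Agent.K4H25.GW.F2

/-!
`κ = ν` for the quotients of products of curves by groups without nonabelian subgroups which are
generated by junior elements and have rational quotients.
-/

set_option autoImplicit false
set_option linter.overlappingInstances false
set_option linter.unusedSectionVars false
set_option linter.unusedVariables false
set_option linter.unusedSimpArgs false
set_option maxHeartbeats 4000000
set_option synthInstance.maxHeartbeats 400000

open FF IntermediateField Pool.Agent.W619.PQ Pool.Agent.W619.PL Pool.Agent.W619.TW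
  Pool.Agent.W603.LV Pool.Agent.K4H25.GQ Pool.Agent.Y174 Pool.Agent.R885.N

namespace Pool.Agent.K4H25.GW

section

variable {M : Type} [Field M] [Algebra ℂ M]

/-- The subgroup `H` is generated by junior elements, and for every `i` it is trivial on the curve
`C i` or the curve `C i / H` is rational. -/
structure Small {n : ℕ} (C : Fin n → IntermediateField ℂ M) (H : Subgroup (M ≃ₐ[ℂ] M)) :
    Prop where
  junior : Subgroup.closure {g | g ∈ H ∧ Junior C g} = H
  rational : ∀ i, (∀ g ∈ H, ∀ z ∈ C i, g z = z) ∨ ∃ τ : M, ℂ⟮τ⟯ = C i ⊓ fixedField H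

/-- Subgroups of the image in the automorphisms of a stable subfield. -/
theorem small_lift {n d : ℕ} (C : Fin n → IntermediateField ℂ M) [∀ l, IsFF ℂ (C l)]
    (hgen : ⨆ l, C l = ⊤) {Z : IntermediateField ℂ M} (s : Fin d → Fin n)
    (hs : Function.Injective s) (hCZ : ∀ j, C (s j) ≤ Z) (H : Subgroup (M ≃ₐ[ℂ] M))
    (hstZ : ∀ g ∈ H, ∀ z ∈ Z, g z ∈ Z)
    (htriv : ∀ g ∈ H, ∀ l, (¬ ∃ j, s j = l) → ∀ z ∈ C l, g z = z)
    (hB : ∀ H' ≤ H, Small C H' → ∀ g ∈ H', ∀ h ∈ H', g * h = h * g)
    (K : Subgroup (Z ≃ₐ[ℂ] Z)) (hK : K ≤ (rho H Z hstZ).range)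
    (hsm : Small (fun j => restrict (hCZ j)) K) :
    ∀ g ∈ K, ∀ h ∈ K, g * h = h * g := by
  classical
  -- the preimage
  obtain ⟨S, hS⟩ : ∃ S : Set (M ≃ₐ[ℂ] M), S = {g | ∃ hg : g ∈ H, rho H Z hstZ ⟨g, hg⟩ ∈ K ∧
    Junior (fun j => restrict (hCZ j)) (rho H Z hstZ ⟨g, hg⟩)} := ⟨_, rfl⟩
  obtain ⟨H', hH'⟩ : ∃ H', H' = Subgroup.closure S := ⟨_, rfl⟩
  have hSH : S ⊆ H := by
    rw [hS]
    rintro g ⟨hg, -⟩
    exact hg
  have hH'H : H' ≤ H := by
    rw [hH']
    exact (Subgroup.closure_le H).2 hSH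
  have hSH' : S ⊆ H' := by
    rw [hH']
    exact Subgroup.subset_closure
  -- the image of `H'` is `K`
  have himg : ∀ (g : M ≃ₐ[ℂ] M) (hg : g ∈ H'), rho H Z hstZ ⟨g, hH'H hg⟩ ∈ K := by
    intro g hg
    have h1 : H' ≤ (K.comap (rho H Z hstZ)).map H.subtype := by
      rw [hH']
      refine (Subgroup.closure_le _).2 fun x hx => ?_
      rw [hS] at hx
      obtain ⟨hx1, hx2, -⟩ := hx
      exact ⟨⟨x, hx1⟩, hx2, rfl⟩
    obtain ⟨y, hy, hyg⟩ := h1 hg
    have h2 : y = ⟨g, hH'H hg⟩ := Subtype.ext hyg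
    rw [← h2]
    exact hy
  have hsurj : ∀ x ∈ K, ∃ g, ∃ hg : g ∈ H', rho H Z hstZ ⟨g, hH'H hg⟩ = x := by
    intro x hx
    rw [← hsm.junior] at hx
    induction hx using Subgroup.closure_induction with
    | mem x hx =>
      obtain ⟨⟨g, hg⟩, rfl⟩ := hK hx.1
      have h1 : g ∈ S := by
        rw [hS]
        exact ⟨hg, hx.1, hx.2⟩
      exact ⟨g, hSH' h1, rfl⟩
    | one => exact ⟨1, one_mem _, map_one _⟩
    | mul x y _ _ hx hy =>
      obtain ⟨g, hg, rfl⟩ := hx
      obtain ⟨g', hg', rfl⟩ := hy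
      refine ⟨g * g', mul_mem hg hg', ?_⟩
      rw [← map_mul]
      rfl
    | inv x _ hx =>
      obtain ⟨g, hg, rfl⟩ := hx
      refine ⟨g⁻¹, inv_mem hg, ?_⟩
      rw [← map_inv]
      rfl
  have hsmall : Small C H' := by
    refine ⟨?_, fun l => ?_⟩
    · apply le_antisymm
      · exact (Subgroup.closure_le _).2 fun g hg => hg.1
      · conv_lhs => rw [hH']
        refine Subgroup.closure_mono fun g hg => ⟨hSH' hg, ?_⟩
        rw [hS] at hg
        obtain ⟨hg1, hg2, hg3⟩ := hg
        exact junior_lift C hgen s hs hCZ H hstZ ⟨g, hg1⟩ (htriv g hg1) hg3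
    · by_cases hl : ∃ j, s j = l
      swap
      · exact Or.inl fun g hg => htriv g (hH'H hg) l hl
      obtain ⟨j, rfl⟩ := hl
      rcases hsm.rational j with h1 | h1
      · left
        intro g hg z hz
        have h2 := h1 _ (himg g hg) ⟨z, hCZ j hz⟩ ((mem_restrict (hCZ j) _).2 hz)
        exact congrArg (Subtype.val : Z → M) h2
      · right
        rw [rat_iff] at h1 ⊢
        have h3 : lift (restrict (hCZ j) ⊓ fixedField K) = C (s j) ⊓ fixedField H' := by
          ext z
          constructor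
          · rintro ⟨y, ⟨hy1, hy2⟩, rfl⟩
            refine ⟨(mem_restrict (hCZ j) _).1 hy1, ?_⟩
            rintro ⟨g, hg⟩
            exact congrArg (Subtype.val : Z → M) (hy2 ⟨_, himg g hg⟩)
          · rintro ⟨hz1, hz2⟩
            refine ⟨⟨z, hCZ j hz1⟩, ⟨(mem_restrict (hCZ j) _).2 hz1, ?_⟩, rfl⟩
            rintro ⟨x, hx⟩
            obtain ⟨g, hg, rfl⟩ := hsurj x hx
            exact Subtype.ext (hz2 ⟨g, hg⟩)
        exact rat_iso ((liftAlgEquiv (restrict (hCZ j) ⊓ fixedField K)).trans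
          (equivOfEq h3)) h1
  intro x hx y hy
  obtain ⟨g, hg, rfl⟩ := hsurj x hx
  obtain ⟨h, hh, rfl⟩ := hsurj y hy
  rw [← map_mul, ← map_mul]
  congr 1
  exact Subtype.ext (hB H' hH'H hsmall g hg h hh)

end

/-- **Quotients of products of curves by finite groups.** All `Small` subgroups are abelian. -/
theorem main_B (n : ℕ) : ∀ (M : Type) [Field M] [Algebra ℂ M]
    (C : Fin n → IntermediateField ℂ M) [∀ i, IsFF ℂ (C i)] (G : Subgroup (M ≃ₐ[ℂ] M)) [Finite G],
    Algebra.trdeg ℂ M = (n : ℕ) → ⨆ i, C i = ⊤ →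
    (∀ g ∈ G, ∀ i, ∀ z ∈ C i, g z ∈ C i) →
    (∀ H ≤ G, Small C H → ∀ g ∈ H, ∀ h ∈ H, g * h = h * g) →
    PosB ℂ (fixedField G) n (fun _ => 0) ∨ NegB ℂ (fixedField G) n (fun _ => 0) := by
  induction n with
  | zero =>
    intro M _ _ C hC G _ hn hgen hst hab
    left
    have halgG := Pool.Agent.W721.PG.EFF2.alg_fixed G
    obtain ⟨htK, -⟩ := Pool.Agent.W721.PG.EFF2.exists_basis (fixedField G) 0 hn
    exact good_zero (by rw [htK, Nat.cast_zero])
  | succ n ih =>
    intro M _ _ C hC G _ hn hgen hst hab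
    have hessM : Algebra.EssFiniteType ℂ M := by
      have h1 : Algebra.EssFiniteType ℂ ↥(⨆ i, C i) :=
        essFiniteType_iff.2 (fg_iSup fun j => essFiniteType_iff.1 (IsFF.ess))
      rw [hgen] at h1
      exact (Algebra.EssFiniteType.iff_of_algEquiv (topEquiv (F := ℂ) (E := M))).1 h1
    -- the subgroup generated by the junior elements
    obtain ⟨J, hJ⟩ : ∃ J : Subgroup (M ≃ₐ[ℂ] M), J = Subgroup.closure {g | g ∈ G ∧ Junior C g} :=
      ⟨_, rfl⟩
    have hJG : J ≤ G := by
      rw [hJ]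
      exact (Subgroup.closure_le G).2 fun g hg => hg.1
    have hfJ : Finite J := Finite.of_injective (Subgroup.inclusion hJG)
      (Subgroup.inclusion_injective hJG)
    have hstJ : ∀ g ∈ J, ∀ i, ∀ z ∈ C i, g z ∈ C i := fun g hg => hst g (hJG hg)
    refine junior_red C hn hgen G hst J hJG
      (fun g hg hj => by rw [hJ]; exact Subgroup.subset_closure ⟨hg, hj⟩) ?_
    by_cases hall : ∀ i, ∃ τ : M, ℂ⟮τ⟯ = C i ⊓ fixedField J
    · have hsmall : Small C J := by
        refine ⟨?_, fun i => Or.inr (hall i)⟩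
        apply le_antisymm
        · exact (Subgroup.closure_le _).2 fun g hg => hg.1
        · conv_lhs => rw [hJ]
          refine Subgroup.closure_mono fun g hg => ⟨?_, hg.2⟩
          rw [hJ]
          exact Subgroup.subset_closure hg
      exact main_ind (n + 1) M C J hn hgen hstJ fun g hg h hh _ => hab J hJG hsmall g hg h hh
    rw [not_forall] at hall
    obtain ⟨i, hi⟩ := hall
    obtain ⟨A, hA⟩ : ∃ A : IntermediateField ℂ M, A = ⨆ j : Fin n, C (i.succAbove j) := ⟨_, rfl⟩
    have hCA : ∀ j : Fin n, C (i.succAbove j) ≤ A := fun j => by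
      rw [hA]
      exact le_iSup (fun j : Fin n => C (i.succAbove j)) j
    have hsup : A ⊔ C i = ⊤ := by
      rw [eq_top_iff, ← hgen]
      refine iSup_le fun l => ?_
      by_cases hl : l = i
      · rw [hl]
        exact le_sup_right
      · obtain ⟨j, rfl⟩ := Fin.exists_succAbove_eq hl
        exact (hCA j).trans le_sup_left
    have hstA : ∀ g ∈ J, ∀ z ∈ A, g z ∈ A := by
      intro g hg
      rw [hA]
      exact iSup_stable fun j => hstJ g hg (i.succAbove j)
    -- the curves in `A`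
    let C' : Fin n → IntermediateField ℂ A := fun j => restrict (hCA j)
    have hC' : ∀ j, IsFF ℂ (C' j) := fun j =>
      isFF_iso (restrictAlgEquiv (hCA j)).symm (hC (i.succAbove j))
    have hgen' : ⨆ j, C' j = ⊤ := by
      apply lift_injective A
      rw [lift_top]
      have h1 : lift (⨆ j, C' j) = ⨆ j, lift (C' j) := by
        unfold IntermediateField.lift
        rw [IntermediateField.map_iSup]
      rw [h1]
      simp only [C', lift_restrict]
      exact hA.symm
    have hessA : Algebra.EssFiniteType ℂ A := by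
      rw [hA]
      exact essFiniteType_iff.2 (fg_iSup fun j => essFiniteType_iff.1 (IsFF.ess))
    have htA : Algebra.trdeg ℂ A = (n : ℕ) := by
      have h1 := Pool.Agent.W824.PG.trdeg_le_of_sup (⊥ : IntermediateField ℂ A) C' (trdeg_bot A)
        (by rw [bot_sup_eq]; exact hgen')
      rw [Nat.zero_add] at h1
      obtain ⟨m, hm⟩ := Cardinal.lt_aleph0.1 (lt_of_le_of_lt h1 Cardinal.natCast_lt_aleph0)
      have h2 := Pool.Agent.W824.PG.trdeg_le_of_sup (d := m) A (fun _ : Fin 1 => C i) hm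
        (by rw [ciSup_const]; exact hsup)
      rw [hn] at h2
      rw [hm] at h1 ⊢
      have h3 : m ≤ n := by exact_mod_cast h1
      have h4 : n + 1 ≤ m + 1 := by exact_mod_cast h2
      have h5 : m = n := by omega
      rw [h5]
    refine glue hn A (C i) htA hessA hsup J hstA (fun g hg => hstJ g hg i)
      (by rw [← rat_iff]; exact hi) ?_
    -- the induction hypothesis
    obtain ⟨H, hH⟩ : ∃ H, H = J ⊓ (C i).fixingSubgroup := ⟨_, rfl⟩
    rw [← hH]
    have hHJ : H ≤ J := by rw [hH]; exact inf_le_left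
    have hfH : Finite H := Finite.of_injective (Subgroup.inclusion hHJ)
      (Subgroup.inclusion_injective hHJ)
    have hHC : ∀ g ∈ H, ∀ z ∈ C i, g z = z := by
      intro g hg
      rw [hH] at hg
      exact mem_fixer.1 hg.2
    have hstH : ∀ g ∈ H, ∀ z ∈ A, g z ∈ A := fun g hg => hstA g (hHJ hg)
    let H1 : Subgroup (A ≃ₐ[ℂ] A) := (rho H A hstH).range
    have hfH1 : Finite H1 := Finite.of_surjective _ (MonoidHom.rangeRestrict_surjective _)
    have hlift : lift (fixedField H1) = A ⊓ fixedField H := lift_fixed H A hstH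
    have hmain := ih A C' H1 htA hgen' (by
      rintro _ ⟨g, rfl⟩ j z hz
      exact (mem_restrict (hCA j) _).2
        (hstJ g (hHJ g.2) (i.succAbove j) z ((mem_restrict (hCA j) _).1 hz)))
      (fun K hK hsm => small_lift C hgen (fun j => i.succAbove j)
        Fin.succAbove_right_injective hCA H hstH (fun g hg l hl => by
          have hli : l = i := by
            by_contra hne
            exact hl (Fin.exists_succAbove_eq hne)
          rw [hli]
          exact hHC g hg) (fun H' hH' hs' => hab H' ((hH'.trans hHJ).trans hJG) hs') K hK hsm)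
    obtain ⟨h1, h2⟩ := trdeg_inf H A hstH htA hessA
    exact good_iso ((liftAlgEquiv (fixedField H1)).trans (equivOfEq hlift)).symm h2 h1 hmain

end Pool.Agent.K4H25.GW
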