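import Pool.Agent.K4H25.GW.F3

/-!
`κ = ν` for the quotients of products of curves: the general theorem.
-/

set_option autoImplicit false
set_option linter.overlappingInstances false
set_option linter.unusedSectionVars false
set_option linter.unusedVariables false
set_option linter.unusedSimpArgs false
set_option maxHeartbeats 4000000
set_option synthInstance.maxHeartbeats 400000

open FF IntermediateField Pool.Agent.W619.PQ Pool.Agent.W619.PL Pool.Agent.W619.TW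
  Pool.Agent.W603.LV Pool.Agent.K4H25.GQ Pool.Agent.Y174 Pool.Agent.R885.N

namespace Pool.Agent.K4H25.GW

section

variable {M : Type} [Field M] [Algebra ℂ M] {d q : ℕ}

theorem iSup_split (C : Fin (d + q) → IntermediateField ℂ M) :
    (⨆ j : Fin d, C (Fin.castAdd q j)) ⊔ ⨆ i : Fin q, C (Fin.natAdd d i) = ⨆ i, C i := by
  apply le_antisymm
  · exact sup_le (iSup_le fun j => le_iSup C _) (iSup_le fun i => le_iSup C _)
  · refine iSup_le fun i => ?_
    refine Fin.addCases (fun l => ?_) (fun l => ?_) i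
    · exact (le_iSup (fun j : Fin d => C (Fin.castAdd q j)) l).trans le_sup_left
    · exact (le_iSup (fun i : Fin q => C (Fin.natAdd d i)) l).trans le_sup_right

theorem glueWC (hn : Algebra.trdeg ℂ M = (d + q : ℕ)) (Z : IntermediateField ℂ M)
    (C : Fin q → IntermediateField ℂ M) (hZ : Algebra.trdeg ℂ Z = d)
    (hessZ : Algebra.EssFiniteType ℂ Z) (hC : ∀ i, IsFF ℂ (C i)) (hsup : Z ⊔ ⨆ i, C i = ⊤)
    (G : Subgroup (M ≃ₐ[ℂ] M)) [Finite G]
    (hstZ : ∀ g ∈ G, ∀ z ∈ Z, g z ∈ Z) (hstC : ∀ i, ∀ g ∈ G, ∀ z ∈ C i, g z ∈ C i)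
    (δ : ∀ i, Place ℂ ↥(C i ⊓ fixedField G) → ℚ) (hcrit : WeightedCriterion G Z C δ)
    (h : PosB ℂ ↥(Z ⊓ fixedField (G ⊓ (⨆ i, C i).fixingSubgroup)) d (fun _ => 0) ∨
      NegB ℂ ↥(Z ⊓ fixedField (G ⊓ (⨆ i, C i).fixingSubgroup)) d (fun _ => 0)) :
    PosB ℂ (fixedField G) (d + q) (fun _ => 0) ∨ NegB ℂ (fixedField G) (d + q) (fun _ => 0) := by
  have hred : ∀ i : Fin q, IsFF ℂ (red G Z C i) := by
    intro i
    have hle : G ⊓ (Z ⊔ ⨆ j : {j // j ≠ i}, C j).fixingSubgroup ≤ G := inf_le_left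
    have hfin : Finite ↥(G ⊓ (Z ⊔ ⨆ j : {j // j ≠ i}, C j).fixingSubgroup) :=
      Finite.of_injective (Subgroup.inclusion hle) (Subgroup.inclusion_injective hle)
    have := hC i
    exact isFF_inf (G ⊓ (Z ⊔ ⨆ j : {j // j ≠ i}, C j).fixingSubgroup)
      (C i) (fun g hg => hstC i g (hle hg))
  exact glueW' hn Z C hZ hessZ hsup G hstZ hstC (fun i => red G Z C i)
    (fun i => red_eq G Z _ i) (fun i => red_ge G Z _ i) hred δ hcrit.nonneg hcrit.branch
    hcrit.age hcrit.degree h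

/-- **The weighted criterion**, with the condition on the `Small` subgroups. -/
theorem main_WB (hn : Algebra.trdeg ℂ M = (d + q : ℕ))
    (C : Fin (d + q) → IntermediateField ℂ M) (hC : ∀ i, IsFF ℂ (C i)) (hgen : ⨆ i, C i = ⊤)
    (G : Subgroup (M ≃ₐ[ℂ] M)) [Finite G] (hst : ∀ g ∈ G, ∀ i, ∀ z ∈ C i, g z ∈ C i)
    (hB : ∀ H ≤ G, (∀ g ∈ H, ∀ i : Fin q, ∀ z ∈ C (Fin.natAdd d i), g z = z) → Small C H →
      ∀ g ∈ H, ∀ h ∈ H, g * h = h * g)
    (δ : ∀ i : Fin q, Place ℂ ↥(C (Fin.natAdd d i) ⊓ fixedField G) → ℚ)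
    (hcrit : WeightedCriterion G (⨆ j : Fin d, C (Fin.castAdd q j))
      (fun i : Fin q => C (Fin.natAdd d i)) δ) :
    PosB ℂ (fixedField G) (d + q) (fun _ => 0) ∨ NegB ℂ (fixedField G) (d + q) (fun _ => 0) := by
  classical
  obtain ⟨Z, hZ⟩ : ∃ Z : IntermediateField ℂ M, Z = ⨆ j : Fin d, C (Fin.castAdd q j) := ⟨_, rfl⟩
  have hAZ : ∀ j : Fin d, C (Fin.castAdd q j) ≤ Z := fun j => by
    rw [hZ]
    exact le_iSup (fun j : Fin d => C (Fin.castAdd q j)) j
  have hstZ : ∀ g ∈ G, ∀ z ∈ Z, g z ∈ Z := by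
    intro g hg
    rw [hZ]
    exact iSup_stable fun j => hst g hg _
  have hgen2 : Z ⊔ ⨆ i : Fin q, C (Fin.natAdd d i) = ⊤ := by
    rw [hZ, iSup_split, hgen]
  rw [← hZ] at hcrit
  have hessZ : Algebra.EssFiniteType ℂ Z := by
    rw [hZ]
    exact essFiniteType_iff.2 (fg_iSup fun j => essFiniteType_iff.1 (IsFF.ess))
  -- the curves in `Z`
  let A' : Fin d → IntermediateField ℂ Z := fun j => restrict (hAZ j)
  have hA' : ∀ j, IsFF ℂ (A' j) := fun j => isFF_iso (restrictAlgEquiv (hAZ j)).symm (hC _)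
  have hgen' : ⨆ j, A' j = ⊤ := by
    apply lift_injective Z
    rw [lift_top]
    have h1 : lift (⨆ j, A' j) = ⨆ j, lift (A' j) := by
      unfold IntermediateField.lift
      rw [IntermediateField.map_iSup]
    rw [h1]
    simp only [A', lift_restrict]
    exact hZ.symm
  have htZ : Algebra.trdeg ℂ Z = (d : ℕ) := by
    have h1 := Pool.Agent.W824.PG.trdeg_le_of_sup (⊥ : IntermediateField ℂ Z) A' (trdeg_bot Z)
      (by rw [bot_sup_eq]; exact hgen')
    rw [Nat.zero_add] at h1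
    obtain ⟨m, hm⟩ := Cardinal.lt_aleph0.1 (lt_of_le_of_lt h1 Cardinal.natCast_lt_aleph0)
    have h2 := Pool.Agent.W824.PG.trdeg_le_of_sup (d := m) Z
      (fun i : Fin q => C (Fin.natAdd d i)) hm hgen2
    rw [hn] at h2
    rw [hm] at h1 ⊢
    have h3 : m ≤ d := by exact_mod_cast h1
    have h4 : d + q ≤ m + q := by exact_mod_cast h2
    have h5 : m = d := by omega
    rw [h5]
  refine glueWC hn Z (fun i : Fin q => C (Fin.natAdd d i)) htZ hessZ (fun i => hC _) hgen2 G hstZ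
    (fun i g hg => hst g hg _) δ hcrit ?_
  -- the quotient of `Z`
  obtain ⟨H, hH⟩ : ∃ H, H = G ⊓ (⨆ i : Fin q, C (Fin.natAdd d i)).fixingSubgroup := ⟨_, rfl⟩
  rw [← hH]
  have hHG : H ≤ G := by rw [hH]; exact inf_le_left
  have hfH : Finite H := Finite.of_injective (Subgroup.inclusion hHG)
    (Subgroup.inclusion_injective hHG)
  have hHC : ∀ g ∈ H, ∀ i : Fin q, ∀ z ∈ C (Fin.natAdd d i), g z = z := by
    intro g hg i z hz
    rw [hH] at hg
    exact mem_fixer.1 hg.2 z ((le_iSup (fun i : Fin q => C (Fin.natAdd d i)) i) hz)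
  have hstH : ∀ g ∈ H, ∀ z ∈ Z, g z ∈ Z := fun g hg => hstZ g (hHG hg)
  let H1 : Subgroup (Z ≃ₐ[ℂ] Z) := (rho H Z hstH).range
  have hfH1 : Finite H1 := Finite.of_surjective _ (MonoidHom.rangeRestrict_surjective _)
  have hlift : lift (fixedField H1) = Z ⊓ fixedField H := lift_fixed H Z hstH
  have hmain := main_B d Z A' H1 htZ hgen' (by
    rintro _ ⟨g, rfl⟩ j z hz
    exact (mem_restrict (hAZ j) _).2
      (hst g (hHG g.2) _ z ((mem_restrict (hAZ j) _).1 hz)))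
    (fun K hK hsm => small_lift C hgen (fun j : Fin d => Fin.castAdd q j)
      (Fin.castAdd_injective d q) hAZ H hstH (fun g hg l => by
        refine Fin.addCases (fun j hl => ?_) (fun i hl => ?_) l
        · exact absurd ⟨j, rfl⟩ hl
        · exact hHC g hg i)
      (fun H' hH' hs' => hB H' (hH'.trans hHG) (fun g hg i => hHC g (hH' hg) i) hs') K hK hsm)
  obtain ⟨h1, h2⟩ := trdeg_inf H Z hstH htZ hessZ
  exact good_iso ((liftAlgEquiv (fixedField H1)).trans (equivOfEq hlift)).symm h2 h1 hmain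

/-- **The general theorem.** -/
theorem main_full' (hn : Algebra.trdeg ℂ M = (d + q : ℕ))
    (C : Fin (d + q) → IntermediateField ℂ M) (hC : ∀ i, IsFF ℂ (C i)) (hgen : ⨆ i, C i = ⊤)
    (G : Subgroup (M ≃ₐ[ℂ] M)) [Finite G]
    (hG : ∀ g ∈ G, ∀ i, ∃ j, (C i).map (g : M →ₐ[ℂ] M) = C j)
    (J : Subgroup (M ≃ₐ[ℂ] M)) (hJG : J ≤ G) (hJ : ∀ g ∈ J, ∀ i, ∀ z ∈ C i, g z ∈ C i)
    (hjun : ∀ g ∈ G, (∀ i, ∀ z ∈ C i, g z ∈ C i) → Junior C g → g ∈ J)
    (hswap : ∀ g ∈ G, ¬ JuniorSwap C g)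
    (hB : ∀ H ≤ J, (∀ g ∈ H, ∀ i : Fin q, ∀ z ∈ C (Fin.natAdd d i), g z = z) → Small C H →
      ∀ g ∈ H, ∀ h ∈ H, g * h = h * g)
    (δ : ∀ i : Fin q, Place ℂ ↥(C (Fin.natAdd d i) ⊓ fixedField J) → ℚ)
    (hcrit : WeightedCriterion J (⨆ j : Fin d, C (Fin.castAdd q j))
      (fun i : Fin q => C (Fin.natAdd d i)) δ) :
    PosB ℂ (fixedField G) (d + q) (fun _ => 0) ∨ NegB ℂ (fixedField G) (d + q) (fun _ => 0) := by
  have hfJ : Finite J := Finite.of_injective (Subgroup.inclusion hJG)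
    (Subgroup.inclusion_injective hJG)
  exact junior_red' C hn hgen G hG J hJG hjun hswap (main_WB hn C hC hgen J hJ hB δ hcrit)

end

end Pool.Agent.K4H25.GW
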