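import Pool.Agent.K4H25.GW.W4

/-!
The step: `κ = ν` for the quotient of `F × C 1 × ... × C q` by a finite group which satisfies the
weighted criterion.
-/

set_option autoImplicit false
set_option linter.overlappingInstances false
set_option linter.unusedSectionVars false
set_option linter.unusedVariables false
set_option linter.unusedSimpArgs false
set_option maxHeartbeats 4000000
set_option synthInstance.maxHeartbeats 400000

open Polynomial FF IntermediateField Pool.Agent.W619.PQ Pool.Agent.W619.PL Pool.Agent.W619.TW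
  Pool.Agent.W619.X Pool.Agent.W619.Y Pool.Agent.W603.LV Pool.Agent.Y174 Pool.Agent.R885.N
  Pool.Agent.K4H25.GQ

namespace Pool.Agent.K4H25.GW

section

variable {k : Type} [Field k] [CharZero k] [IsAlgClosed k] {L : Type} [Field L] [Algebra k L]

/-- **The step.** -/
theorem stepW {q : ℕ} (F : IntermediateField k L) (C : Fin q → IntermediateField k L)
    [hC : ∀ i, IsFF k (C i)] (G : Subgroup (L ≃ₐ[k] L))
    [Finite G] (hstF : ∀ g ∈ G, ∀ z ∈ F, g z ∈ F) (hstC : ∀ i, ∀ g ∈ G, ∀ z ∈ C i, g z ∈ C i)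
    (hfF : ∀ g ∈ G, (∀ i, ∀ z ∈ C i, g z = z) → g = 1)
    {d : ℕ} (hsup : F ⊔ ⨆ i, C i = ⊤) (hn : Algebra.trdeg k L = (d + q : ℕ))
    (hd : Algebra.trdeg k F = d)
    (hessF : Algebra.EssFiniteType k F) (hessL : Algebra.EssFiniteType k L)
    (δ : ∀ i, Place k ↥(C i ⊓ fixedField G) → ℚ)
    (hδ : ∀ i p, 0 ≤ δ i p ∧ δ i p ≤ 1)
    (hbr : ∀ i (w : Place k (C i)) p (r : ℕ),
      LiesOver (inf_le_left : C i ⊓ fixedField G ≤ C i) w p r → 1 ≤ r * (1 - δ i p))
    (hage : WAge F C G δ) (hdeg : ∀ i, WDeg (C i) G (δ i))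
    (h : PosB k F d (fun _ => 0) ∨ NegB k F d (fun _ => 0)) :
    PosB k (fixedField G) (d + q) (fun _ => 0) ∨ NegB k (fixedField G) (d + q) (fun _ => 0) := by
  classical
  have halgK := Pool.Agent.W721.PG.EFF2.alg_fixed G
  have hfin := fixed_finite G
  obtain ⟨hnK, z, hz⟩ := Pool.Agent.W721.PG.EFF2.exists_basis (fixedField G) (d + q) hn
  have hessK : Algebra.EssFiniteType k (fixedField G) := Pool.Agent.Y174.ess_down hessL z hz
  have hbd : ∀ v : Place k (fixedField G), IsDivisorial v (d + q) → ∀ (w : Place k L) (e : ℕ),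
      LiesOn w v e → 1 - (e : ℝ) * (1 - (fun _ : Place k (fixedField G) => (0 : ℝ)) v) ≤
        (fun _ : Place k L => (0 : ℝ)) w := by
    intro v _ w e hw
    have h1 : (1 : ℝ) ≤ e := by exact_mod_cast hw.1
    simp only [sub_zero, mul_one]
    linarith
  obtain ⟨-, hneg, hnum⟩ := pMANY k L d q F C hd hn hsup
  rcases h with ⟨A, hA, hkod, hnumF⟩ | hnegF
  · left
    have h0 := step_kod' F C G hstF hstC hfF hsup hn hd hessF hessL δ hδ hbr hage hdeg hkod
    have h1 := hnum A (fun i => (data_one (C i) G (hstC i) (δ i) (hδ i) (hbr i) (hdeg i)).1)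
      (pairNum_zero.1 hnumF)
    have h2 : {i | canDeg k (C i) ≠ 0}.ncard ≤ q := by
      have := Set.ncard_le_ncard (Set.subset_univ {i | canDeg k (C i) ≠ 0})
      rwa [Set.ncard_univ, Nat.card_fin] at this
    exact ⟨A + {i | canDeg k (C i) ≠ 0}.ncard, by omega, h0,
      w0_num hessK hnK hbd (pairNum_zero.2 h1)⟩
  · right
    exact neg_pull hessK hnK hbd (neg_zero.2 (hneg (neg_zero.1 hnegF)))

end

end Pool.Agent.K4H25.GW
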