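import Pool.Agent.K4H25.GQ.Ind3
import Pool.Agent.K4H25.GW.W5

/-!
Transport of places and of the degree of the canonical divisor along isomorphisms.
-/

set_option autoImplicit false
set_option linter.overlappingInstances false
set_option linter.unusedSectionVars false
set_option linter.unusedVariables false
set_option linter.unusedSimpArgs false
set_option maxHeartbeats 4000000
set_option synthInstance.maxHeartbeats 400000

open FF IntermediateField Pool.Agent.W619.PQ Pool.Agent.W619.PL Pool.Agent.W619.TW
  Pool.Agent.W603.LV Pool.Agent.Y174 Pool.Agent.R885.N Pool.Agent.K4H25.GQ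

namespace Pool.Agent.K4H25.GW

section

variable {k : Type} [Field k] {A B : Type} [Field A] [Field B] [Algebra k A] [Algebra k B]

/-- The place of `A` which corresponds to a place of `B` under an isomorphism. -/
noncomputable def pullP (e : A ≃ₐ[k] B) (w : Place k B) : Place k A where
  ord f := w.ord (e f)
  ord_zero := by rw [map_zero, w.ord_zero]
  ord_mul := by
    intro f g hf hg
    rw [map_mul, w.ord_mul (by simpa using hf) (by simpa using hg)]
  ord_add := by
    intro f g hf hg hfg
    rw [map_add]
    exact w.ord_add (by simpa using hf) (by simpa using hg)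
      (by rw [← map_add]; exact (map_ne_zero_iff _ e.injective).2 hfg)
  ord_const := by intro c hc; rw [AlgEquiv.commutes, w.ord_const hc]
  surj := by
    obtain ⟨t, h0, ht⟩ := w.surj
    exact ⟨e.symm t, by simpa using h0, by simpa using ht⟩

theorem pullP_ord (e : A ≃ₐ[k] B) (w : Place k B) (f : A) : (pullP e w).ord f = w.ord (e f) := rfl

theorem pullP_symm (e : A ≃ₐ[k] B) (w : Place k B) : pullP e.symm (pullP e w) = w := by
  apply Place.ext
  funext f
  rw [pullP_ord, pullP_ord, AlgEquiv.apply_symm_apply]

theorem pullP_symm' (e : A ≃ₐ[k] B) (w : Place k A) : pullP e (pullP e.symm w) = w := by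
  apply Place.ext
  funext f
  rw [pullP_ord, pullP_ord, AlgEquiv.symm_apply_apply]

theorem pullP_inj (e : A ≃ₐ[k] B) : Function.Injective (pullP (k := k) e) := by
  intro a b h
  have := congrArg (pullP e.symm) h
  rwa [pullP_symm, pullP_symm] at this

/-- The derivation of `B` which corresponds to a derivation of `A` under an isomorphism. -/
noncomputable def pushD (e : A ≃ₐ[k] B) (D : Derivation k A A) :
    Derivation k B B :=
  Derivation.mk' ((e.toLinearMap.comp (D : A →ₗ[k] A)).comp e.symm.toLinearMap) (by
    intro a b
    change e (D (e.symm (a * b))) = a • e (D (e.symm b)) + b • e (D (e.symm a))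
    rw [map_mul, D.leibniz, map_add, smul_eq_mul, smul_eq_mul, map_mul, map_mul,
      AlgEquiv.apply_symm_apply, AlgEquiv.apply_symm_apply, smul_eq_mul, smul_eq_mul])

theorem pushD_apply (e : A ≃ₐ[k] B) (D : Derivation k A A) (z : B) :
    pushD e D z = e (D (e.symm z)) := rfl

variable [CharZero k] [IsAlgClosed k] [IsFF k A] [IsFF k B]

theorem canDeg_iso (e : A ≃ₐ[k] B) : canDeg k B = canDeg k A := by
  classical
  have hD : der k A ≠ 0 := der_ne
  have hD' : pushD e (der k A) ≠ 0 := by
    intro h
    apply hD
    ext z
    have h1 := congrArg (fun D : Derivation k B B => D (e z)) h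
    simp only [pushD_apply, AlgEquiv.symm_apply_apply] at h1
    change e (der k A z) = 0 at h1
    rw [map_eq_zero] at h1
    exact h1
  have hvo : ∀ w : Place k B, vo w (pushD e (der k A)) = vo (pullP e w) (der k A) := by
    intro w
    obtain ⟨t, ht0, ht⟩ := w.surj
    rw [← vo_eq w ht hD', pushD_apply]
    have h1 : (pullP e w).ord (e.symm t) = 1 := by
      rw [pullP_ord, AlgEquiv.apply_symm_apply]
      exact ht
    rw [← vo_eq (pullP e w) h1 hD, pullP_ord]
  have h1 := canDeg_eq (k := k) hD
  have h2 := canDeg_eq (k := k) hD'
  rw [h1, h2]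
  congr 1
  refine finsum_eq_of_bijective (pullP e) ⟨pullP_inj e, fun w => ⟨pullP e.symm w, pullP_symm' e w⟩⟩
    hvo

end

end Pool.Agent.K4H25.GW
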