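import Pool.Agent.K4H25.GW.G1

/-!
Invariants of products of several fields.
-/

set_option autoImplicit false
set_option linter.overlappingInstances false
set_option linter.unusedSectionVars false
set_option linter.unusedVariables false
set_option linter.unusedSimpArgs false
set_option maxHeartbeats 4000000
set_option synthInstance.maxHeartbeats 400000

open FF IntermediateField Pool.Agent.W619.PQ Pool.Agent.W619.TW
  Pool.Agent.W603.LV Pool.Agent.Y174 Pool.Agent.R885.N Pool.Agent.K4H25.GQ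

namespace Pool.Agent.K4H25.GW

section

variable {M : Type} [Field M] [Algebra ℂ M]

/-- invariants are quotients of invariants of a stable algebra -/
theorem frac_inv' (G : Subgroup (M ≃ₐ[ℂ] M)) [Finite G] (S : Set M)
    (hst : ∀ g ∈ G, ∀ z ∈ S, g z ∈ S) {x : M} (hxS : x ∈ IntermediateField.adjoin ℂ S)
    (hx : x ∈ fixedField G) : ∃ a b : M, a ∈ Algebra.adjoin ℂ S ∧ b ∈ Algebra.adjoin ℂ S ∧
      a ∈ fixedField G ∧ b ∈ fixedField G ∧ x = a / b := by
  classical
  have := Fintype.ofFinite G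
  obtain ⟨a, ha, b, hb, hab'⟩ := IntermediateField.mem_adjoin_iff_div.1 hxS
  by_cases hb0 : b = 0
  · rw [hb0, div_zero] at hab'
    exact ⟨0, 0, zero_mem _, zero_mem _, zero_mem _, zero_mem _, by rw [hab', div_zero]⟩
  have hst' : ∀ g ∈ G, ∀ z ∈ Algebra.adjoin ℂ S, g z ∈ Algebra.adjoin ℂ S := by
    intro g hg z hz
    induction hz using Algebra.adjoin_induction with
    | mem z hz => exact Algebra.subset_adjoin (hst g hg z hz)
    | algebraMap c => rw [AlgEquiv.commutes]; exact Subalgebra.algebraMap_mem _ _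
    | add u v _ _ hu hv => rw [map_add]; exact add_mem hu hv
    | mul u v _ _ hu hv => rw [map_mul]; exact mul_mem hu hv
  let N : M := ∏ g : G, (g : M ≃ₐ[ℂ] M) b
  have hN0 : N ≠ 0 := Finset.prod_ne_zero_iff.2 fun g _ => (map_ne_zero _).2 hb0
  have hNA : N ∈ Algebra.adjoin ℂ S := prod_mem fun g _ => hst' g g.2 b hb
  have hNK : N ∈ fixedField G := by
    intro h
    change (h : M ≃ₐ[ℂ] M) (∏ g : G, (g : M ≃ₐ[ℂ] M) b) = _
    rw [map_prod]
    exact Equiv.prod_comp (Equiv.mulLeft h) (fun g : G => (g : M ≃ₐ[ℂ] M) b)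
  have hxN : x * N ∈ Algebra.adjoin ℂ S := by
    have h1 : x * N = a * ∏ g ∈ Finset.univ.erase (1 : G), (g : M ≃ₐ[ℂ] M) b := by
      change x * (∏ g : G, (g : M ≃ₐ[ℂ] M) b) = _
      rw [← Finset.mul_prod_erase Finset.univ _ (Finset.mem_univ (1 : G)), hab']
      change a / b * (b * _) = _
      rw [← mul_assoc, div_mul_cancel₀ _ hb0]
    rw [h1]
    exact mul_mem ha (prod_mem fun g _ => hst' g g.2 b hb)
  exact ⟨x * N, N, hxN, hNA, mul_mem hx hNK, hNK, by rw [mul_div_cancel_right₀ _ hN0]⟩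

/-- the invariants of a product -/
theorem two_inv' (G H R : Subgroup (M ≃ₐ[ℂ] M)) [Finite G] (hHG : H ≤ G) (hRG : R ≤ G)
    (A B : IntermediateField ℂ M)
    (hA : ∀ g ∈ G, ∀ z ∈ A, g z ∈ A) (hB : ∀ g ∈ G, ∀ z ∈ B, g z ∈ B)
    (hH : ∀ g ∈ H, ∀ z ∈ B, g z = z) (hR : ∀ g ∈ R, ∀ z ∈ A, g z = z) {x : M}
    (hxS : x ∈ A ⊔ B) (hx : x ∈ fixedField G) :
    x ∈ (A ⊓ fixedField H) ⊔ (B ⊓ fixedField R) := by
  classical
  have htop : IntermediateField.adjoin ℂ ((A : Set M) ∪ B) = A ⊔ B := rfl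
  rw [← htop] at hxS
  obtain ⟨a, b, ha, hb, haK, hbK, rfl⟩ := frac_inv' G ((A : Set M) ∪ B) (by
    rintro g hg z (hz | hz)
    · exact Or.inl (hA g hg z hz)
    · exact Or.inr (hB g hg z hz)) hxS hx
  have hfH : Finite H := Finite.of_injective (Subgroup.inclusion hHG)
    (Subgroup.inclusion_injective hHG)
  have hfR : Finite R := Finite.of_injective (Subgroup.inclusion hRG)
    (Subgroup.inclusion_injective hRG)
  have iH := Fintype.ofFinite H
  have iR := Fintype.ofFinite R
  have hspan : ∀ y ∈ Algebra.adjoin ℂ ((A : Set M) ∪ B),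
      y ∈ Submodule.span ℂ {z : M | ∃ u ∈ A, ∃ v ∈ B, z = u * v} := by
    intro y hy
    induction hy using Algebra.adjoin_induction with
    | mem x hx =>
      rcases hx with hx | hx
      · exact Submodule.subset_span ⟨x, hx, 1, one_mem _, by rw [mul_one]⟩
      · exact Submodule.subset_span ⟨1, one_mem _, x, hx, by rw [one_mul]⟩
    | algebraMap c =>
      exact Submodule.subset_span ⟨algebraMap ℂ M c, A.algebraMap_mem c, 1, one_mem _,
        by rw [mul_one]⟩
    | add x y _ _ hx hy => exact Submodule.add_mem _ hx hy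
    | mul x y _ _ hx hy =>
      have h1 := Submodule.mul_mem_mul hx hy
      rw [Submodule.span_mul_span] at h1
      refine Submodule.span_mono ?_ h1
      rintro _ ⟨_, ⟨u, hu, v, hv, rfl⟩, _, ⟨u', hu', v', hv', rfl⟩, rfl⟩
      exact ⟨u * u', mul_mem hu hu', v * v', mul_mem hv hv', by beta_reduce; ring⟩
  have havg : ∀ y ∈ Submodule.span ℂ {z : M | ∃ u ∈ A, ∃ v ∈ B, z = u * v},
      avg R (avg H y) ∈ (A ⊓ fixedField H) ⊔ (B ⊓ fixedField R) := by
    intro y hy
    induction hy using Submodule.span_induction with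
    | mem y hy =>
      obtain ⟨u, hu, v, hv, rfl⟩ := hy
      have h1 : avg H (u * v) = avg H u * v := by
        unfold avg
        rw [mul_assoc, Finset.sum_mul]
        congr 1
        refine Finset.sum_congr rfl fun g _ => ?_
        rw [map_mul, hH g g.2 v hv]
      have huA : avg H u ∈ A :=
        mul_mem (A.algebraMap_mem _) (sum_mem fun g _ => hA g (hHG g.2) u hu)
      have h2' : ∀ w ∈ A, avg R (w * v) = w * avg R v := by
        intro w hw
        unfold avg
        rw [mul_left_comm, Finset.mul_sum (Finset.univ : Finset R) _ w]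
        congr 1
        refine Finset.sum_congr rfl fun g _ => ?_
        rw [map_mul, hR g g.2 w hw]
      have h2 : avg R (avg H u * v) = avg H u * avg R v := h2' _ huA
      have hvB : avg R v ∈ B :=
        mul_mem (B.algebraMap_mem _) (sum_mem fun g _ => hB g (hRG g.2) v hv)
      rw [h1, h2]
      exact mul_mem ((le_sup_left : A ⊓ fixedField H ≤ _) ⟨huA, avg_mem u⟩)
        ((le_sup_right : B ⊓ fixedField R ≤ _) ⟨hvB, avg_mem v⟩)
    | zero => rw [avg_zero, avg_zero]; exact zero_mem _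
    | add a b _ _ ha hb => rw [avg_add, avg_add]; exact add_mem ha hb
    | smul c a _ ha =>
      rw [avg_smul, avg_smul, Algebra.smul_def]
      exact mul_mem (IntermediateField.algebraMap_mem _ _) ha
  have hfix : ∀ y ∈ fixedField G, avg R (avg H y) = y := by
    intro y hy
    rw [avg_fixed (G := H) (z := y) (fun g => hy ⟨g, hHG g.2⟩),
      avg_fixed (G := R) (z := y) (fun g => hy ⟨g, hRG g.2⟩)]
  have h1 := havg a (hspan a ha)
  have h2 := havg b (hspan b hb)
  rw [hfix a haK] at h1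
  rw [hfix b hbK] at h2
  exact div_mem h1 h2

variable {ι : Type} [Fintype ι] [DecidableEq ι]

/-- The group of the elements of `G` which act only on the field `E o`. -/
noncomputable def only (G : Subgroup (M ≃ₐ[ℂ] M)) (E : ι → IntermediateField ℂ M) (o : ι) :
    Subgroup (M ≃ₐ[ℂ] M) :=
  G ⊓ ⨅ o' : {o' : ι // o' ≠ o}, (E o').fixingSubgroup

omit [Fintype ι] [DecidableEq ι] in
theorem mem_only {G : Subgroup (M ≃ₐ[ℂ] M)} {E : ι → IntermediateField ℂ M} {o : ι}
    {g : M ≃ₐ[ℂ] M} : g ∈ only G E o ↔ g ∈ G ∧ ∀ o', o' ≠ o → ∀ z ∈ E o', g z = z := by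
  constructor
  · rintro ⟨h1, h2⟩
    exact ⟨h1, fun o' ho z hz => mem_fixer.1 (Subgroup.mem_iInf.1 h2 ⟨o', ho⟩) z hz⟩
  · rintro ⟨h1, h2⟩
    exact ⟨h1, Subgroup.mem_iInf.2 fun o' => mem_fixer.2 (h2 o' o'.2)⟩

omit [Fintype ι] [DecidableEq ι] in
theorem only_le (G : Subgroup (M ≃ₐ[ℂ] M)) (E : ι → IntermediateField ℂ M) (o : ι) :
    only G E o ≤ G := inf_le_left

/-- The quotient of the factor by the group of the elements which act only on it. -/
noncomputable def quo (G : Subgroup (M ≃ₐ[ℂ] M)) (E : ι → IntermediateField ℂ M) (o : ι) :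
    IntermediateField ℂ M :=
  E o ⊓ fixedField (only G E o)

omit [Fintype ι] in
/-- the invariants of a product of several fields -/
theorem many_inv (G : Subgroup (M ≃ₐ[ℂ] M)) [Finite G] (E : ι → IntermediateField ℂ M)
    (hst : ∀ o, ∀ g ∈ G, ∀ z ∈ E o, g z ∈ E o) (J : Finset ι) {x : M}
    (hxS : x ∈ ⨆ o ∈ J, E o) (hx : ∀ o ∈ J, ∀ g ∈ only G E o, g x = x) :
    x ∈ ⨆ o ∈ J, quo G E o := by
  classical
  induction J using Finset.induction_on generalizing x with
  | empty => simpa using hxS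
  | insert o J ho ih =>
    rw [Finset.iSup_insert] at hxS ⊢
    let H : Subgroup (M ≃ₐ[ℂ] M) := only G E o
    let R : Subgroup (M ≃ₐ[ℂ] M) := ⨆ o' ∈ J, only G E o'
    have hHG : H ≤ G := only_le G E o
    have hRG : R ≤ G := iSup₂_le fun o' _ => only_le G E o'
    have hG' : H ⊔ R ≤ G := sup_le hHG hRG
    have hfin : Finite ↥(H ⊔ R) := Finite.of_injective (Subgroup.inclusion hG')
      (Subgroup.inclusion_injective hG')
    have hB : ∀ g ∈ G, ∀ z ∈ ⨆ o' ∈ J, E o', g z ∈ ⨆ o' ∈ J, E o' := by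
      intro g hg
      have h1 : (⨆ o' ∈ J, E o') ≤ (⨆ o' ∈ J, E o').comap (g : M →ₐ[ℂ] M) :=
        iSup₂_le fun o' ho' z hz =>
          (le_iSup₂ (f := fun o' (_ : o' ∈ J) => E o') o' ho') (hst o' g hg z hz)
      exact fun z hz => h1 hz
    have hfix : x ∈ fixedField (H ⊔ R) := by
      have h1 : H ⊔ R ≤ MulAction.stabilizer (M ≃ₐ[ℂ] M) x :=
        sup_le (fun g hg => MulAction.mem_stabilizer_iff.2
          (hx o (Finset.mem_insert_self o J) g hg))
          (iSup₂_le fun o' ho' g hg => MulAction.mem_stabilizer_iff.2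
            (hx o' (Finset.mem_insert_of_mem ho') g hg))
      intro g
      exact MulAction.mem_stabilizer_iff.1 (h1 g.2)
    have h1 := two_inv' (H ⊔ R) H R le_sup_left le_sup_right (E o) (⨆ o' ∈ J, E o')
      (fun g hg => hst o g (hG' hg)) (fun g hg => hB g (hG' hg))
      (by
        intro g hg z hz
        have h2 : (⨆ o' ∈ J, E o') ≤ fixedField (Subgroup.zpowers g) :=
          iSup₂_le fun o' ho' z hz => by
            rintro ⟨_, n, rfl⟩
            have h3 : g ∈ MulAction.stabilizer (M ≃ₐ[ℂ] M) z := MulAction.mem_stabilizer_iff.2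
              ((mem_only.1 hg).2 o' (fun h => ho (h ▸ ho')) z hz)
            exact MulAction.mem_stabilizer_iff.1
              ((MulAction.stabilizer (M ≃ₐ[ℂ] M) z).zpow_mem h3 n)
        exact h2 hz ⟨g, Subgroup.mem_zpowers g⟩)
      (by
        intro g hg z hz
        have h2 : R ≤ MulAction.stabilizer (M ≃ₐ[ℂ] M) z := iSup₂_le fun o' ho' g hg =>
          MulAction.mem_stabilizer_iff.2 ((mem_only.1 hg).2 o (fun h => ho (h ▸ ho')) z hz)
        exact MulAction.mem_stabilizer_iff.1 (h2 hg))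
      hxS hfix
    refine (sup_le_sup le_rfl ?_ : (E o ⊓ fixedField H) ⊔ ((⨆ o' ∈ J, E o') ⊓ fixedField R) ≤
      quo G E o ⊔ ⨆ o' ∈ J, quo G E o') h1
    intro z hz
    refine ih hz.1 fun o' ho' g hg => ?_
    exact hz.2 ⟨g, (le_iSup₂ (f := fun o' (_ : o' ∈ J) => only G E o') o' ho') hg⟩

end

end Pool.Agent.K4H25.GW
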