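import Pool.Agent.K4H25.GW.G2

/-!
The step for a group acting on `Z × C 1 × ... × C q`.
-/

set_option autoImplicit false
set_option linter.overlappingInstances false
set_option linter.unusedSectionVars false
set_option linter.unusedVariables false
set_option linter.unusedSimpArgs false
set_option maxHeartbeats 4000000
set_option synthInstance.maxHeartbeats 400000

open FF IntermediateField Pool.Agent.W619.PQ Pool.Agent.W619.PL Pool.Agent.W619.TW
  Pool.Agent.W603.LV Pool.Agent.Y174 Pool.Agent.R885.N Pool.Agent.K4H25.GQ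

namespace Pool.Agent.K4H25.GW

section

variable {M : Type} [Field M] [Algebra ℂ M] {ι : Type} [Fintype ι] [DecidableEq ι]

omit [Fintype ι] [DecidableEq ι] in
theorem quo_ge (G : Subgroup (M ≃ₐ[ℂ] M)) (E : ι → IntermediateField ℂ M) (o : ι) :
    E o ⊓ fixedField G ≤ quo G E o :=
  inf_le_inf le_rfl fun z hz g => hz ⟨g, only_le G E o g.2⟩

omit [Fintype ι] [DecidableEq ι] in
theorem le_fix_zpowers {E : IntermediateField ℂ M} {g : M ≃ₐ[ℂ] M} (h : ∀ z ∈ E, g z = z) :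
    E ≤ fixedField (Subgroup.zpowers g) := by
  rintro z hz ⟨_, n, rfl⟩
  have h3 : g ∈ MulAction.stabilizer (M ≃ₐ[ℂ] M) z := MulAction.mem_stabilizer_iff.2 (h z hz)
  exact MulAction.mem_stabilizer_iff.1 ((MulAction.stabilizer (M ≃ₐ[ℂ] M) z).zpow_mem h3 n)

/-- An element which is trivial on all quotients but one is trivial on all of them. -/
theorem faith (G : Subgroup (M ≃ₐ[ℂ] M)) [Finite G] (E : ι → IntermediateField ℂ M)
    (hst : ∀ o, ∀ g ∈ G, ∀ z ∈ E o, g z ∈ E o) (o0 : ι) {g : M ≃ₐ[ℂ] M} (hgG : g ∈ G)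
    (hg : ∀ o, o ≠ o0 → ∀ z ∈ quo G E o, g z = z) : ∀ o, ∀ z ∈ quo G E o, g z = z := by
  classical
  intro o z hz
  by_cases ho : o = o0
  swap
  · exact hg o ho z hz
  subst ho
  obtain ⟨J, hJ⟩ : ∃ J : Finset ι, J = Finset.univ.erase o := ⟨_, rfl⟩
  let S : Subgroup (M ≃ₐ[ℂ] M) := ⨆ o' ∈ J, only G E o'
  have hSG : S ≤ G := iSup₂_le fun o' _ => only_le G E o'
  have hfin : Finite S := Finite.of_injective (Subgroup.inclusion hSG)
    (Subgroup.inclusion_injective hSG)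
  have hstJ : ∀ g ∈ G, ∀ z ∈ ⨆ o' ∈ J, E o', g z ∈ ⨆ o' ∈ J, E o' := by
    intro g hg
    have h1 : (⨆ o' ∈ J, E o') ≤ (⨆ o' ∈ J, E o').comap (g : M →ₐ[ℂ] M) :=
      iSup₂_le fun o' ho' z hz =>
        (le_iSup₂ (f := fun o' (_ : o' ∈ J) => E o') o' ho') (hst o' g hg z hz)
    exact fun z hz => h1 hz
  obtain ⟨s, hs, hs'⟩ := gal S (⨆ o' ∈ J, E o') (fun g hg => hstJ g (hSG hg)) g (hstJ g hgG) (by
    intro x hx
    have h1 : x ∈ ⨆ o' ∈ J, quo G E o' := by
      refine many_inv G E hst J hx.1 fun o' ho' h hh => ?_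
      exact hx.2 ⟨h, (le_iSup₂ (f := fun o' (_ : o' ∈ J) => only G E o') o' ho') hh⟩
    have h2 : (⨆ o' ∈ J, quo G E o') ≤ fixedField (Subgroup.zpowers g) :=
      iSup₂_le fun o' ho' => le_fix_zpowers (hg o' (by
        rw [hJ] at ho'
        exact Finset.ne_of_mem_erase ho'))
    exact h2 h1 ⟨g, Subgroup.mem_zpowers g⟩)
  have h1 : s⁻¹ * g ∈ only G E o := by
    refine mem_only.2 ⟨G.mul_mem (G.inv_mem (hSG hs)) hgG, fun o' ho' x hx => ?_⟩
    change s⁻¹ (g x) = x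
    have h2 : x ∈ ⨆ o' ∈ J, E o' := (le_iSup₂ (f := fun o' (_ : o' ∈ J) => E o') o' (by
      rw [hJ]
      exact Finset.mem_erase.2 ⟨ho', Finset.mem_univ _⟩)) hx
    rw [hs' x h2]
    change (s⁻¹ * s) x = x
    rw [inv_mul_cancel]
    rfl
  have h2 : (s⁻¹ * g) z = z := hz.2 ⟨_, h1⟩
  have h3 : g = s * (s⁻¹ * g) := by rw [mul_inv_cancel_left]
  have h4 : S ≤ MulAction.stabilizer (M ≃ₐ[ℂ] M) z := iSup₂_le fun o' ho' g hg =>
    MulAction.mem_stabilizer_iff.2 ((mem_only.1 hg).2 o (by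
      rw [hJ] at ho'
      exact (Finset.ne_of_mem_erase ho').symm) z hz.1)
  rw [h3]
  change s ((s⁻¹ * g) z) = z
  rw [h2]
  exact MulAction.mem_stabilizer_iff.1 (h4 hs)

end

section

variable {M : Type} [Field M] [Algebra ℂ M] {q : ℕ}

/-- The factors `Z`, `C 1`, ..., `C q`. -/
def fam (Z : IntermediateField ℂ M) (C : Fin q → IntermediateField ℂ M) :
    Option (Fin q) → IntermediateField ℂ M := fun o => o.elim Z C

/-- The quotient of the curve `C i` by the elements which act only on it. -/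
noncomputable def cq (G : Subgroup (M ≃ₐ[ℂ] M)) (Z : IntermediateField ℂ M)
    (C : Fin q → IntermediateField ℂ M) (i : Fin q) : IntermediateField ℂ M :=
  quo G (fam Z C) (some i)

theorem cq_ge (G : Subgroup (M ≃ₐ[ℂ] M)) (Z : IntermediateField ℂ M)
    (C : Fin q → IntermediateField ℂ M) (i : Fin q) : C i ⊓ fixedField G ≤ cq G Z C i :=
  quo_ge G (fam Z C) (some i)

/-- The weighted criterion. -/
def WAgeG (G : Subgroup (M ≃ₐ[ℂ] M)) (Z : IntermediateField ℂ M)
    (C : Fin q → IntermediateField ℂ M) (δ : ∀ i, Place ℂ ↥(C i ⊓ fixedField G) → ℚ) : Prop :=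
  ∀ g ∈ G, ∀ e : ℕ, 1 < e → (∀ m : ℕ, (∀ i, ∀ z ∈ cq G Z C i, (g ^ m) z = z) ↔ e ∣ m) →
    ∀ ζ : ℂ, IsPrimitiveRoot ζ e →
    ∀ (w : ∀ i, Place ℂ (cq G Z C i)) (p : ∀ i, Place ℂ ↥(C i ⊓ fixedField G)) (r a : Fin q → ℕ),
      (∀ i, LiesOver (cq_ge G Z C i) (w i) (p i) (r i)) →
      (∀ i, a i < e) → (∀ i, Rotates (cq G Z C i) g (w i) (ζ ^ a i)) →
      (e : ℚ) ≤ ∑ i, r i * (1 - δ i (p i)) * a i ∨
        ((∃ z ∈ Z, g z ≠ z) ∧ (e : ℚ) ≤ ∑ i, r i * (1 - δ i (p i)) * a i + 1)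

open scoped Classical in
/-- **The step for a group.** -/
theorem glueW {d : ℕ} (hn : Algebra.trdeg ℂ M = (d + q : ℕ)) (Z : IntermediateField ℂ M)
    (C : Fin q → IntermediateField ℂ M) (hZ : Algebra.trdeg ℂ Z = d)
    (hessZ : Algebra.EssFiniteType ℂ Z) [hC : ∀ i, IsFF ℂ (C i)] (hsup : Z ⊔ ⨆ i, C i = ⊤)
    (G : Subgroup (M ≃ₐ[ℂ] M)) [Finite G]
    (hstZ : ∀ g ∈ G, ∀ z ∈ Z, g z ∈ Z) (hstC : ∀ i, ∀ g ∈ G, ∀ z ∈ C i, g z ∈ C i)
    (δ : ∀ i, Place ℂ ↥(C i ⊓ fixedField G) → ℚ) (hδ : ∀ i p, 0 ≤ δ i p ∧ δ i p ≤ 1)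
    (hbr : ∀ i (w : Place ℂ (cq G Z C i)) p (r : ℕ), LiesOver (cq_ge G Z C i) w p r →
      1 ≤ r * (1 - δ i p))
    (hage : WAgeG G Z C δ)
    (hdeg : ∀ i, ∃ T : Finset (Place ℂ ↥(C i ⊓ fixedField G)), (∀ q, q ∉ T → δ i q = 0) ∧
      ((0 : ℚ) < canDeg ℂ ↥(C i ⊓ fixedField G) + ∑ q ∈ T, δ i q ∨
        ((0 : ℚ) ≤ canDeg ℂ ↥(C i ⊓ fixedField G) + ∑ q ∈ T, δ i q ∧
          canDeg ℂ (cq G Z C i) = 0)))
    (h : PosB ℂ ↥(Z ⊓ fixedField (only G (fam Z C) none)) d (fun _ => 0) ∨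
      NegB ℂ ↥(Z ⊓ fixedField (only G (fam Z C) none)) d (fun _ => 0)) :
    PosB ℂ (fixedField G) (d + q) (fun _ => 0) ∨ NegB ℂ (fixedField G) (d + q) (fun _ => 0) := by
  classical
  have hst : ∀ o, ∀ g ∈ G, ∀ z ∈ fam Z C o, g z ∈ fam Z C o := by
    intro o
    cases o with
    | none => exact hstZ
    | some i => exact hstC i
  obtain ⟨H, hH⟩ : ∃ H, H = only G (fam Z C) none := ⟨_, rfl⟩
  rw [← hH] at h
  have hHG : H ≤ G := by rw [hH]; exact only_le _ _ _
  have hfH : Finite H := Finite.of_injective (Subgroup.inclusion hHG)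
    (Subgroup.inclusion_injective hHG)
  obtain ⟨F, hF⟩ : ∃ F, F = quo G (fam Z C) none := ⟨_, rfl⟩
  have hF' : F = Z ⊓ fixedField H := by rw [hF, hH]; rfl
  rw [← hF'] at h
  obtain ⟨L, hL⟩ : ∃ L : IntermediateField ℂ M, L = ⨆ o, quo G (fam Z C) o := ⟨_, rfl⟩
  have hqL : ∀ o, quo G (fam Z C) o ≤ L := fun o => by
    rw [hL]
    exact le_iSup (fun o => quo G (fam Z C) o) o
  have hFL : F ≤ L := by rw [hF]; exact hqL none
  have hCL : ∀ i, cq G Z C i ≤ L := fun i => hqL (some i)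
  have hLsup : L = F ⊔ ⨆ i, cq G Z C i := by
    rw [hL, iSup_option, hF]
    rfl
  have htopE : (⨆ o, fam Z C o) = ⊤ := by
    rw [iSup_option]
    exact hsup
  have hKL : fixedField G ≤ L := by
    intro x hx
    have h1 := many_inv G (fam Z C) hst Finset.univ (x := x)
      (by simp only [Finset.mem_univ, iSup_pos]; rw [htopE]; trivial)
      (fun o _ g hg => hx ⟨g, only_le _ _ _ hg⟩)
    simp only [Finset.mem_univ, iSup_pos] at h1
    rw [hL]
    exact h1
  -- stability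
  have hstq : ∀ o, ∀ g ∈ G, ∀ z ∈ quo G (fam Z C) o, g z ∈ quo G (fam Z C) o := by
    intro o g hg z hz
    refine ⟨hst o g hg z hz.1, ?_⟩
    rintro ⟨s, hs⟩
    obtain ⟨hsG, hs'⟩ := mem_only.1 hs
    have h1 : g⁻¹ * s * g ∈ only G (fam Z C) o := by
      refine mem_only.2 ⟨G.mul_mem (G.mul_mem (G.inv_mem hg) hsG) hg, fun o' ho' x hx => ?_⟩
      change g⁻¹ (s (g x)) = x
      rw [hs' o' ho' _ (hst o' g hg x hx)]
      change (g⁻¹ * g) x = x
      rw [inv_mul_cancel]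
      rfl
    have h2 : (g⁻¹ * s * g) z = z := hz.2 ⟨_, h1⟩
    change g⁻¹ (s (g z)) = z at h2
    have h3 : g (g⁻¹ (s (g z))) = g z := congrArg g h2
    change (g * g⁻¹) (s (g z)) = g z at h3
    rw [mul_inv_cancel] at h3
    exact h3
  have hstL : ∀ g ∈ G, ∀ z ∈ L, g z ∈ L := by
    intro g hg
    rw [hL]
    exact iSup_stable fun o => hstq o g hg
  -- elements which are trivial on the quotients are trivial on `L`
  have htrivL : ∀ g ∈ G, (∀ o, ∀ z ∈ quo G (fam Z C) o, g z = z) → ∀ z ∈ L, g z = z := by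
    intro g hg hgz z hz
    rw [hL] at hz
    exact (iSup_le fun o => le_fix_zpowers (hgz o) :
      (⨆ o, quo G (fam Z C) o) ≤ fixedField (Subgroup.zpowers g)) hz ⟨g, Subgroup.mem_zpowers g⟩
  have hHL : ∀ g ∈ H, ∀ z ∈ L, g z = z := by
    intro g hg
    rw [hH] at hg
    refine htrivL g (only_le _ _ _ hg) fun o z hz => ?_
    by_cases ho : o = none
    · subst ho
      exact hz.2 ⟨g, hg⟩
    · exact (mem_only.1 hg).2 o ho z hz.1
  -- numerical data
  obtain ⟨htF, hessF⟩ := trdeg_inf H Z (fun g hg => hstZ g (hHG hg)) hZ hessZ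
  rw [← hF'] at htF hessF
  have hFFq : ∀ i, IsFF ℂ (cq G Z C i) := by
    intro i
    have hle := only_le G (fam Z C) (some i)
    have hfin : Finite ↥(only G (fam Z C) (some i)) := Finite.of_injective
      (Subgroup.inclusion hle) (Subgroup.inclusion_injective hle)
    exact isFF_inf (only G (fam Z C) (some i)) (C i) (fun g hg => hstC i g (hle hg))
  have hessL : Algebra.EssFiniteType ℂ L := by
    rw [hLsup]
    exact essFiniteType_iff.2 (fg_sup (essFiniteType_iff.1 hessF)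
      (fg_iSup fun i => essFiniteType_iff.1 (IsFF.ess)))
  have halgL : Algebra.IsAlgebraic L M := by
    have h1 := Pool.Agent.W721.PG.EFF2.alg_fixed G
    let _ : Algebra (fixedField G) L := (inclusion hKL).toRingHom.toAlgebra
    have t1 : IsScalarTower (fixedField G) L M := IsScalarTower.of_algebraMap_eq fun c => rfl
    exact Algebra.IsAlgebraic.tower_top (K := fixedField G) L
  obtain ⟨htL, -⟩ := Pool.Agent.W721.PG.EFF2.exists_basis L (d + q) hn
  -- the group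
  let Γ : Subgroup (L ≃ₐ[ℂ] L) := (rho G L hstL).range
  have hfΓ : Finite Γ := Finite.of_surjective _ (MonoidHom.rangeRestrict_surjective _)
  let F1 : IntermediateField ℂ L := restrict hFL
  let C1 : Fin q → IntermediateField ℂ L := fun i => restrict (hCL i)
  have hlift : lift (fixedField Γ) = fixedField G := by
    rw [lift_fixed G L hstL]
    exact inf_eq_right.2 hKL
  have hval : ∀ (g : G) (z : L), ((rho G L hstL g z : L) : M) = (g : M ≃ₐ[ℂ] M) z :=
    fun g z => rfl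
  have htriv1 : ∀ g : G, (∀ i, ∀ z ∈ cq G Z C i, (g : M ≃ₐ[ℂ] M) z = z) →
      rho G L hstL g = 1 := by
    intro g hg
    have h1 := faith G (fam Z C) hst none g.2 (by
      intro o ho z hz
      cases o with
      | none => exact absurd rfl ho
      | some i => exact hg i z hz)
    apply AlgEquiv.ext
    intro z
    exact Subtype.ext (htrivL g g.2 h1 z z.2)
  have htriv2 : ∀ g : G, rho G L hstL g = 1 → ∀ z ∈ L, (g : M ≃ₐ[ℂ] M) z = z := by
    intro g hg z hz
    rw [← hval g ⟨z, hz⟩, hg]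
    rfl
  have hfF : ∀ g ∈ Γ, (∀ i, ∀ z ∈ C1 i, g z = z) → g = 1 := by
    rintro _ ⟨g, rfl⟩ hg
    refine htriv1 g fun i z hz => ?_
    exact congrArg (Subtype.val : L → M)
      (hg i ⟨z, hCL i hz⟩ ((mem_restrict (hCL i) _).2 hz))
  have hsup1 : F1 ⊔ ⨆ i, C1 i = ⊤ := by
    apply lift_injective L
    rw [lift_sup, lift_top]
    have h1 : lift (⨆ j, C1 j) = ⨆ j, lift (C1 j) := by
      unfold IntermediateField.lift
      rw [IntermediateField.map_iSup]
    rw [h1, lift_restrict]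
    simp only [C1, lift_restrict]
    exact hLsup.symm
  have hFF1 : ∀ i, IsFF ℂ (C1 i) := fun i => isFF_iso (restrictAlgEquiv (hCL i)).symm (hFFq i)
  have hessF1 : Algebra.EssFiniteType ℂ F1 :=
    (Algebra.EssFiniteType.iff_of_algEquiv (restrictAlgEquiv hFL)).1 hessF
  have htF1 : Algebra.trdeg ℂ F1 = d := by
    rw [← htF]
    exact ((restrictAlgEquiv hFL).trdeg_eq).symm
  -- the isomorphisms
  let φ : ∀ i, cq G Z C i ≃ₐ[ℂ] C1 i := fun i => restrictAlgEquiv (hCL i)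
  have hB : ∀ i, lift (C1 i ⊓ fixedField Γ) = C i ⊓ fixedField G := by
    intro i
    rw [lift_inf, hlift, lift_restrict]
    apply le_antisymm
    · exact le_inf (inf_le_left.trans inf_le_left) inf_le_right
    · exact le_inf (cq_ge G Z C i) inf_le_right
  let ψ : ∀ i, ↥(C i ⊓ fixedField G) ≃ₐ[ℂ] ↥(C1 i ⊓ fixedField Γ) := fun i =>
    ((liftAlgEquiv (C1 i ⊓ fixedField Γ)).trans (equivOfEq (hB i))).symm
  have hφ : ∀ i (z : cq G Z C i), (((φ i z : C1 i) : L) : M) = z := fun i z => rfl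
  have hψ : ∀ i (z : ↥(C i ⊓ fixedField G)),
      (((ψ i z : ↥(C1 i ⊓ fixedField Γ)) : L) : M) = z := by
    intro i z
    have h1 : (ψ i).symm (ψ i z) = z := (ψ i).symm_apply_apply z
    have h2 : ∀ x : ↥(C1 i ⊓ fixedField Γ), (((ψ i).symm x : ↥(C i ⊓ fixedField G)) : M) =
        ((x : L) : M) := fun x => rfl
    rw [← h2, h1]
  have hFFB : ∀ i, IsFF ℂ ↥(C i ⊓ fixedField G) := fun i => isFF_quo (C i) G (hstC i)
  have hstC1 : ∀ i, ∀ g ∈ Γ, ∀ z ∈ C1 i, g z ∈ C1 i := by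
    rintro i _ ⟨g, rfl⟩ z hz
    exact (mem_restrict (hCL i) _).2 (hstq (some i) g g.2 z ((mem_restrict (hCL i) _).1 hz))
  have hFFB1 : ∀ i, IsFF ℂ ↥(C1 i ⊓ fixedField Γ) := fun i => isFF_quo (C1 i) Γ (hstC1 i)
  have hover : ∀ i (w : Place ℂ (C1 i)) (p : Place ℂ ↥(C1 i ⊓ fixedField Γ)) (r : ℕ),
      LiesOver (inf_le_left : C1 i ⊓ fixedField Γ ≤ C1 i) w p r →
        LiesOver (cq_ge G Z C i) (pullP (φ i) w) (pullP (ψ i) p) r := by
    intro i w p r hw
    refine ⟨hw.1, fun f => ?_⟩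
    rw [pullP_ord, pullP_ord, ← hw.2]
    have h1 : φ i (inclusion (cq_ge G Z C i) f) =
        inclusion (inf_le_left : C1 i ⊓ fixedField Γ ≤ C1 i) (ψ i f) :=
      Subtype.ext (Subtype.ext (hψ i f).symm)
    rw [h1]
  have hmain := stepW F1 C1 Γ
    (by
      rintro _ ⟨g, rfl⟩ z hz
      refine (mem_restrict hFL _).2 ?_
      rw [hF]
      exact hstq none g g.2 z (by
        have := (mem_restrict hFL _).1 hz
        rwa [hF] at this))
    hstC1 hfF hsup1 htL htF1 hessF1 hessL (fun i p => δ i (pullP (ψ i) p)) (fun i p => hδ i _)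
    (fun i w p r hw => hbr i _ _ r (hover i w p r hw)) ?_ ?_
    (good_iso (restrictAlgEquiv hFL).symm hessF1 htF1 h)
  · have halgG := Pool.Agent.W721.PG.EFF2.alg_fixed G
    obtain ⟨htK, -⟩ := Pool.Agent.W721.PG.EFF2.exists_basis (fixedField G) (d + q) hn
    have hessM : Algebra.EssFiniteType ℂ M := by
      have h1 : Algebra.EssFiniteType ℂ ↥(Z ⊔ ⨆ i, C i) := essFiniteType_iff.2
        (fg_sup (essFiniteType_iff.1 hessZ) (fg_iSup fun i => essFiniteType_iff.1 (IsFF.ess)))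
      rw [hsup] at h1
      exact (Algebra.EssFiniteType.iff_of_algEquiv (topEquiv (F := ℂ) (E := M))).1 h1
    have hfin : FiniteDimensional (fixedField G) M := fixed_finite G
    have hessK : Algebra.EssFiniteType ℂ (fixedField G) := Pool.Agent.TH466.QG.ess_below (K := M)
    exact good_iso ((liftAlgEquiv (fixedField Γ)).trans (equivOfEq hlift)).symm hessK htK hmain
  · -- the weighted criterion
    intro g1 hg1 hg1ne ζ hζ w p r a hw ha hrot
    have key : ∀ g : G, rho G L hstL g = g1 →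
        (orderOf g1 : ℚ) ≤ ∑ i, r i * (1 - δ i (pullP (ψ i) (p i))) * a i ∨
        ((∃ z ∈ Z, (g : M ≃ₐ[ℂ] M) z ≠ z) ∧
          (orderOf g1 : ℚ) ≤ ∑ i, r i * (1 - δ i (pullP (ψ i) (p i))) * a i + 1) := by
      intro g hgg1
      have hpos : 0 < orderOf g1 := by
        rw [← hgg1]
        exact ((rho G L hstL).isOfFinOrder (isOfFinOrder_of_finite g)).orderOf_pos
      have hne1 : orderOf g1 ≠ 1 := fun h => hg1ne (orderOf_eq_one_iff.1 h)
      refine hage g g.2 (orderOf g1) (by omega) (fun m => ?_) ζ hζ (fun i => pullP (φ i) (w i))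
        (fun i => pullP (ψ i) (p i)) r a (fun i => hover i _ _ _ (hw i)) ha ?_
      · rw [orderOf_dvd_iff_pow_eq_one, ← hgg1, ← map_pow]
        constructor
        · intro h1
          exact htriv1 (g ^ m) h1
        · intro h1 i z hz
          exact htriv2 (g ^ m) h1 z (hCL i hz)
      · intro i t z ht hz
        have h1 := hrot i (φ i t) (φ i z) ht (by
          apply Subtype.ext
          rw [← hgg1]
          exact hz)
        have h2 : φ i z - algebraMap ℂ (C1 i) (ζ ^ a i) * φ i t =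
            φ i (z - algebraMap ℂ (cq G Z C i) (ζ ^ a i) * t) := by
          rw [map_sub, map_mul, AlgEquiv.commutes]
        rw [h2] at h1
        rcases h1 with h1 | h1
        · left
          exact (map_eq_zero _).1 h1
        · right
          exact h1
    obtain ⟨g, hgg1⟩ := hg1
    by_cases hF1 : ∃ z ∈ F1, g1 z ≠ z
    · rcases key g hgg1 with h1 | ⟨-, h1⟩
      · exact Or.inl h1
      · exact Or.inr ⟨hF1, h1⟩
    · left
      push Not at hF1
      obtain ⟨s, hs, hs'⟩ := gal H Z (fun g hg => hstZ g (hHG hg)) g (hstZ g g.2) (by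
        intro z hz
        rw [← hF'] at hz
        have h1 := hF1 ⟨z, hFL hz⟩ ((mem_restrict hFL _).2 hz)
        rw [← hgg1] at h1
        exact congrArg (Subtype.val : L → M) h1)
      have hsG := hHG hs
      have h1 : rho G L hstL (⟨s, hsG⟩⁻¹ * g) = g1 := by
        rw [map_mul, map_inv, hgg1]
        have h2 : rho G L hstL ⟨s, hsG⟩ = 1 := by
          apply AlgEquiv.ext
          intro z
          exact Subtype.ext (hHL s hs z z.2)
        rw [h2, inv_one, one_mul]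
      rcases key _ h1 with h2 | ⟨⟨z, hzZ, hz⟩, -⟩
      · exact h2
      · exfalso
        apply hz
        change s⁻¹ ((g : M ≃ₐ[ℂ] M) z) = z
        rw [hs' z hzZ]
        change (s⁻¹ * s) z = z
        rw [inv_mul_cancel]
        rfl
  · -- the degrees
    intro i
    obtain ⟨T, hT, hT'⟩ := hdeg i
    refine ⟨T.image (pullP (ψ i).symm), fun p hp => ?_, ?_⟩
    · apply hT
      intro h1
      apply hp
      rw [Finset.mem_image]
      exact ⟨_, h1, pullP_symm (ψ i) p⟩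
    · have h1 : ∑ p ∈ T.image (pullP (ψ i).symm), δ i (pullP (ψ i) p) = ∑ p ∈ T, δ i p := by
        rw [Finset.sum_image (fun a _ b _ h => pullP_inj _ h)]
        refine Finset.sum_congr rfl fun p _ => ?_
        rw [pullP_symm' (ψ i) p]
      rw [h1, canDeg_iso (ψ i), canDeg_iso (φ i)]
      exact hT'

end

end Pool.Agent.K4H25.GW
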