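import Pool.Agent.K4H25.GW.G3
import Pool.Agent.K4H25.GQ.Ind4

/-!
`κ = ν` for the quotients of products of curves: the weighted criterion.
-/

set_option autoImplicit false
set_option linter.overlappingInstances false
set_option linter.unusedSectionVars false
set_option linter.unusedVariables false
set_option linter.unusedSimpArgs false
set_option maxHeartbeats 4000000
set_option synthInstance.maxHeartbeats 400000

open FF IntermediateField Pool.Agent.W619.PQ Pool.Agent.W619.PL Pool.Agent.W619.TW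
  Pool.Agent.W603.LV Pool.Agent.Y174 Pool.Agent.R885.N Pool.Agent.K4H25.GQ

namespace Pool.Agent.K4H25.GW

section

variable {M : Type} [Field M] [Algebra ℂ M] {q : ℕ}

/-- The quotient of the curve `C i` by the group of the elements of `G` which are trivial on `Z` and
on the other curves. -/
noncomputable def red (G : Subgroup (M ≃ₐ[ℂ] M)) (Z : IntermediateField ℂ M)
    (C : Fin q → IntermediateField ℂ M) (i : Fin q) : IntermediateField ℂ M :=
  C i ⊓ fixedField (G ⊓ (Z ⊔ ⨆ j : {j // j ≠ i}, C j).fixingSubgroup)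

theorem red_eq (G : Subgroup (M ≃ₐ[ℂ] M)) (Z : IntermediateField ℂ M)
    (C : Fin q → IntermediateField ℂ M) (i : Fin q) : red G Z C i = cq G Z C i := by
  unfold red cq quo
  congr 2
  ext g
  rw [mem_only]
  constructor
  · rintro ⟨h1, h2⟩
    refine ⟨h1, fun o ho z hz => ?_⟩
    cases o with
    | none => exact mem_fixer.1 h2 z ((le_sup_left : Z ≤ _) hz)
    | some j =>
      have hj : j ≠ i := fun h => ho (by rw [h])
      exact mem_fixer.1 h2 z (((le_iSup (fun j : {j // j ≠ i} => C j) ⟨j, hj⟩).trans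
        le_sup_right) hz)
  · rintro ⟨h1, h2⟩
    refine ⟨h1, mem_fixer.2 fun z hz => ?_⟩
    have h3 : Z ⊔ ⨆ j : {j // j ≠ i}, C j ≤ fixedField (Subgroup.zpowers g) :=
      sup_le (le_fix_zpowers (h2 none (by simp))) (iSup_le fun j =>
        le_fix_zpowers (h2 (some j.1) (by
          intro h
          exact j.2 (Option.some_injective _ h))))
    exact h3 hz ⟨g, Subgroup.mem_zpowers g⟩

theorem red_ge (G : Subgroup (M ≃ₐ[ℂ] M)) (Z : IntermediateField ℂ M)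
    (C : Fin q → IntermediateField ℂ M) (i : Fin q) : C i ⊓ fixedField G ≤ red G Z C i :=
  inf_le_inf le_rfl fun z hz g => hz ⟨g, g.2.1⟩

/-- The weighted criterion, for a family of curves `C'` which is equal to the family of the
quotients by the elements which act only on one curve. -/
def WAgeR (G : Subgroup (M ≃ₐ[ℂ] M)) (Z : IntermediateField ℂ M)
    (C C' : Fin q → IntermediateField ℂ M) (hC' : ∀ i, C i ⊓ fixedField G ≤ C' i)
    (δ : ∀ i, Place ℂ ↥(C i ⊓ fixedField G) → ℚ) : Prop :=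
  ∀ g ∈ G, ∀ e : ℕ, 1 < e → (∀ m : ℕ, (∀ i, ∀ z ∈ C' i, (g ^ m) z = z) ↔ e ∣ m) →
    ∀ ζ : ℂ, IsPrimitiveRoot ζ e →
    ∀ (w : ∀ i, Place ℂ (C' i)) (p : ∀ i, Place ℂ ↥(C i ⊓ fixedField G)) (r a : Fin q → ℕ),
      (∀ i, LiesOver (hC' i) (w i) (p i) (r i)) →
      (∀ i, a i < e) → (∀ i, Rotates (C' i) g (w i) (ζ ^ a i)) →
      (e : ℚ) ≤ ∑ i, r i * (1 - δ i (p i)) * a i ∨
        ((∃ z ∈ Z, g z ≠ z) ∧ (e : ℚ) ≤ ∑ i, r i * (1 - δ i (p i)) * a i + 1)

theorem glueW' {d : ℕ} (hn : Algebra.trdeg ℂ M = (d + q : ℕ)) (Z : IntermediateField ℂ M)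
    (C : Fin q → IntermediateField ℂ M) (hZ : Algebra.trdeg ℂ Z = d)
    (hessZ : Algebra.EssFiniteType ℂ Z) [hC : ∀ i, IsFF ℂ (C i)] (hsup : Z ⊔ ⨆ i, C i = ⊤)
    (G : Subgroup (M ≃ₐ[ℂ] M)) [Finite G]
    (hstZ : ∀ g ∈ G, ∀ z ∈ Z, g z ∈ Z) (hstC : ∀ i, ∀ g ∈ G, ∀ z ∈ C i, g z ∈ C i)
    (C' : Fin q → IntermediateField ℂ M) (hC'eq : ∀ i, C' i = cq G Z C i)
    (hC'ge : ∀ i, C i ⊓ fixedField G ≤ C' i)
    (hC' : ∀ i, IsFF ℂ (C' i))
    (δ : ∀ i, Place ℂ ↥(C i ⊓ fixedField G) → ℚ) (hδ : ∀ i p, 0 ≤ δ i p)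
    (hbr : ∀ i (w : Place ℂ (C' i)) p (r : ℕ), LiesOver (hC'ge i) w p r →
      1 ≤ r * (1 - δ i p))
    (hage : WAgeR G Z C C' hC'ge δ)
    (hdeg : ∀ i, ∃ T : Finset (Place ℂ ↥(C i ⊓ fixedField G)), (∀ q, q ∉ T → δ i q = 0) ∧
      ((0 : ℚ) < canDeg ℂ ↥(C i ⊓ fixedField G) + ∑ q ∈ T, δ i q ∨
        ((0 : ℚ) ≤ canDeg ℂ ↥(C i ⊓ fixedField G) + ∑ q ∈ T, δ i q ∧
          canDeg ℂ (C' i) = 0)))
    (h : PosB ℂ ↥(Z ⊓ fixedField (G ⊓ (⨆ i, C i).fixingSubgroup)) d (fun _ => 0) ∨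
      NegB ℂ ↥(Z ⊓ fixedField (G ⊓ (⨆ i, C i).fixingSubgroup)) d (fun _ => 0)) :
    PosB ℂ (fixedField G) (d + q) (fun _ => 0) ∨ NegB ℂ (fixedField G) (d + q) (fun _ => 0) := by
  classical
  have hH : G ⊓ (⨆ i, C i).fixingSubgroup = only G (fam Z C) none := by
    ext g
    rw [mem_only]
    constructor
    · rintro ⟨h1, h2⟩
      refine ⟨h1, fun o ho z hz => ?_⟩
      cases o with
      | none => exact absurd rfl ho
      | some j => exact mem_fixer.1 h2 z ((le_iSup C j) hz)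
    · rintro ⟨h1, h2⟩
      refine ⟨h1, mem_fixer.2 fun z hz => ?_⟩
      have h3 : (⨆ i, C i) ≤ fixedField (Subgroup.zpowers g) :=
        iSup_le fun j => le_fix_zpowers (h2 (some j) (by simp))
      exact h3 hz ⟨g, Subgroup.mem_zpowers g⟩
  rw [hH] at h
  obtain rfl : C' = cq G Z C := funext hC'eq
  refine glueW hn Z C hZ hessZ hsup G hstZ hstC δ (fun i p => ⟨hδ i p, ?_⟩) hbr hage hdeg h
  -- the coefficients are at most one
  let _ : Algebra ↥(C i ⊓ fixedField G) ↥(cq G Z C i) :=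
    (inclusion (cq_ge G Z C i)).toRingHom.toAlgebra
  have t1 : IsScalarTower ℂ ↥(C i ⊓ fixedField G) ↥(cq G Z C i) :=
    IsScalarTower.of_algebraMap_eq fun c => rfl
  let _ : Algebra ↥(C i ⊓ fixedField G) (C i) :=
    (inclusion (inf_le_left : C i ⊓ fixedField G ≤ C i)).toRingHom.toAlgebra
  have t2 : IsScalarTower ℂ ↥(C i ⊓ fixedField G) (C i) :=
    IsScalarTower.of_algebraMap_eq fun c => rfl
  let _ : Algebra ↥(cq G Z C i) (C i) :=
    (inclusion (inf_le_left : cq G Z C i ≤ C i)).toRingHom.toAlgebra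
  have t3 : IsScalarTower ↥(C i ⊓ fixedField G) ↥(cq G Z C i) (C i) :=
    IsScalarTower.of_algebraMap_eq fun c => rfl
  have f1 : FiniteDimensional ↥(C i ⊓ fixedField G) (C i) :=
    inf_finite G (C i) (hstC i) fun z => rfl
  have f3 : FiniteDimensional ↥(C i ⊓ fixedField G) ↥(cq G Z C i) :=
    FiniteDimensional.left ↥(C i ⊓ fixedField G) ↥(cq G Z C i) (C i)
  have f2 : IsFF ℂ ↥(C i ⊓ fixedField G) := isFF_quo (C i) G (hstC i)
  obtain ⟨e, w, hw⟩ := exists_place_over (E := ↥(cq G Z C i)) p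
  have h1 := hbr i w p e hw
  have h2 : (0 : ℚ) < e := by exact_mod_cast hw.1
  by_contra hcon
  push Not at hcon
  nlinarith

/-- **The weighted criterion.** -/
theorem main_W {d : ℕ} (hn : Algebra.trdeg ℂ M = (d + q : ℕ))
    (A : Fin d → IntermediateField ℂ M) (C : Fin q → IntermediateField ℂ M)
    [hA : ∀ i, IsFF ℂ (A i)] [hC : ∀ i, IsFF ℂ (C i)] (hgen : (⨆ i, A i) ⊔ ⨆ i, C i = ⊤)
    (G : Subgroup (M ≃ₐ[ℂ] M)) [Finite G]
    (hstA : ∀ g ∈ G, ∀ i, ∀ z ∈ A i, g z ∈ A i) (hstC : ∀ g ∈ G, ∀ i, ∀ z ∈ C i, g z ∈ C i)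
    (hab : ∀ g ∈ G, ∀ h ∈ G, (∀ i, ∀ z ∈ C i, g z = z ∧ h z = z) →
      (∀ i, (¬ ∃ τ : M, ℂ⟮τ⟯ = A i ⊓ fixedField G) →
      (∀ z ∈ A i, g z = z) ∧ ∀ z ∈ A i, h z = z) → g * h = h * g)
    (C' : Fin q → IntermediateField ℂ M) (hC'eq : ∀ i, C' i = red G (⨆ i, A i) C i)
    (hC'ge : ∀ i, C i ⊓ fixedField G ≤ C' i) (hC' : ∀ i, IsFF ℂ (C' i))
    (δ : ∀ i, Place ℂ ↥(C i ⊓ fixedField G) → ℚ) (hδ : ∀ i p, 0 ≤ δ i p)
    (hbr : ∀ i (w : Place ℂ (C' i)) p (r : ℕ), LiesOver (hC'ge i) w p r →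
      1 ≤ r * (1 - δ i p))
    (hage : WAgeR G (⨆ i, A i) C C' hC'ge δ)
    (hdeg : ∀ i, ∃ T : Finset (Place ℂ ↥(C i ⊓ fixedField G)), (∀ q, q ∉ T → δ i q = 0) ∧
      ((0 : ℚ) < canDeg ℂ ↥(C i ⊓ fixedField G) + ∑ q ∈ T, δ i q ∨
        ((0 : ℚ) ≤ canDeg ℂ ↥(C i ⊓ fixedField G) + ∑ q ∈ T, δ i q ∧
          canDeg ℂ (C' i) = 0))) :
    PosB ℂ (fixedField G) (d + q) (fun _ => 0) ∨ NegB ℂ (fixedField G) (d + q) (fun _ => 0) := by
  classical
  obtain ⟨Z, hZ⟩ : ∃ Z : IntermediateField ℂ M, Z = ⨆ i, A i := ⟨_, rfl⟩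
  have hAZ : ∀ j, A j ≤ Z := fun j => by
    rw [hZ]
    exact le_iSup A j
  have hstZ : ∀ g ∈ G, ∀ z ∈ Z, g z ∈ Z := by
    intro g hg
    rw [hZ]
    exact iSup_stable fun j => hstA g hg j
  rw [← hZ] at hgen hage
  have hessZ : Algebra.EssFiniteType ℂ Z := by
    rw [hZ]
    exact essFiniteType_iff.2 (fg_iSup fun j => essFiniteType_iff.1 (IsFF.ess))
  -- the curves in `Z`
  let A' : Fin d → IntermediateField ℂ Z := fun j => restrict (hAZ j)
  have hA' : ∀ j, IsFF ℂ (A' j) := fun j => isFF_iso (restrictAlgEquiv (hAZ j)).symm (hA j)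
  have hgen' : ⨆ j, A' j = ⊤ := by
    apply lift_injective Z
    rw [lift_top]
    have h1 : lift (⨆ j, A' j) = ⨆ j, lift (A' j) := by
      unfold IntermediateField.lift
      rw [IntermediateField.map_iSup]
    rw [h1]
    simp only [A', lift_restrict]
    exact hZ.symm
  have htZ : Algebra.trdeg ℂ Z = (d : ℕ) := by
    have hbot : Algebra.trdeg ℂ (⊥ : IntermediateField ℂ Z) = (0 : ℕ) := by
      have h1 : Algebra.IsAlgebraic ℂ (⊥ : IntermediateField ℂ Z) := ⟨fun x => by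
        obtain ⟨c, hc⟩ := IntermediateField.mem_bot.1 x.2
        have h2 : x = algebraMap ℂ _ c := Subtype.ext hc.symm
        rw [h2]
        exact isAlgebraic_algebraMap c⟩
      rw [Nat.cast_zero]
      exact trdeg_eq_zero
    have h1 := Pool.Agent.W824.PG.trdeg_le_of_sup (⊥ : IntermediateField ℂ Z) A' hbot
      (by rw [bot_sup_eq]; exact hgen')
    rw [Nat.zero_add] at h1
    obtain ⟨m, hm⟩ := Cardinal.lt_aleph0.1 (lt_of_le_of_lt h1 Cardinal.natCast_lt_aleph0)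
    have h2 := Pool.Agent.W824.PG.trdeg_le_of_sup (d := m) Z C hm hgen
    rw [hn] at h2
    rw [hm] at h1 ⊢
    have h3 : m ≤ d := by exact_mod_cast h1
    have h4 : d + q ≤ m + q := by exact_mod_cast h2
    have h5 : m = d := by omega
    rw [h5]
  refine glueW' hn Z C htZ hessZ hgen G hstZ (fun i g hg => hstC g hg i) C'
    (fun i => by rw [hC'eq, ← hZ, red_eq]) hC'ge hC' δ hδ hbr hage hdeg ?_
  -- the quotient of `Z`
  obtain ⟨H, hH⟩ : ∃ H, H = G ⊓ (⨆ i, C i).fixingSubgroup := ⟨_, rfl⟩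
  rw [← hH]
  have hHG : H ≤ G := by rw [hH]; exact inf_le_left
  have hfH : Finite H := Finite.of_injective (Subgroup.inclusion hHG)
    (Subgroup.inclusion_injective hHG)
  have hHC : ∀ g ∈ H, ∀ i, ∀ z ∈ C i, g z = z := by
    intro g hg i z hz
    rw [hH] at hg
    exact mem_fixer.1 hg.2 z ((le_iSup C i) hz)
  have hstH : ∀ g ∈ H, ∀ z ∈ Z, g z ∈ Z := fun g hg => hstZ g (hHG hg)
  let H1 : Subgroup (Z ≃ₐ[ℂ] Z) := (rho H Z hstH).range
  have hfH1 : Finite H1 := Finite.of_surjective _ (MonoidHom.rangeRestrict_surjective _)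
  have hlift : lift (fixedField H1) = Z ⊓ fixedField H := lift_fixed H Z hstH
  have hmain := main_ind d Z A' H1 htZ hgen' (by
    rintro _ ⟨g, rfl⟩ j z hz
    exact (mem_restrict (hAZ j) _).2
      (hstA g (hHG g.2) j z ((mem_restrict (hAZ j) _).1 hz))) (by
    rintro _ ⟨g, rfl⟩ _ ⟨h, rfl⟩ hgh
    have h1 : (g : M ≃ₐ[ℂ] M) * h = h * g := by
      refine hab g (hHG g.2) h (hHG h.2) (fun i z hz => ⟨hHC g g.2 i z hz, hHC h h.2 i z hz⟩)
        fun j hl => ?_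
      have h2 : ¬ ∃ τ : Z, ℂ⟮τ⟯ = A' j ⊓ fixedField H1 := by
        intro hcon
        apply hl
        apply rat_down G H hHG (A j) (fun g hg => hstA g hg _)
        rw [rat_iff] at hcon ⊢
        have h3 : lift (A' j ⊓ fixedField H1) = A j ⊓ fixedField H := by
          rw [lift_inf, hlift, lift_restrict, ← inf_assoc]
          congr 1
          exact inf_eq_left.2 (hAZ j)
        exact rat_iso ((liftAlgEquiv (A' j ⊓ fixedField H1)).trans (equivOfEq h3)) hcon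
      obtain ⟨h3, h4⟩ := hgh j h2
      exact ⟨fun z hz => congrArg (Subtype.val : Z → M)
          (h3 ⟨z, hAZ j hz⟩ ((mem_restrict (hAZ j) _).2 hz)),
        fun z hz => congrArg (Subtype.val : Z → M)
          (h4 ⟨z, hAZ j hz⟩ ((mem_restrict (hAZ j) _).2 hz))⟩
    rw [← map_mul, ← map_mul]
    congr 1
    exact Subtype.ext h1)
  obtain ⟨h1, h2⟩ := trdeg_inf H Z hstH htZ hessZ
  exact good_iso ((liftAlgEquiv (fixedField H1)).trans (equivOfEq hlift)).symm h2 h1 hmain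

end

end Pool.Agent.K4H25.GW
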