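import Pool.Agent.K4H25.GW.W5
import Pool.Agent.W125.PG.FibJ
import Pool.Agent.W735.PG.DESCJ
import Pool.Agent.W381.PG.GAUSS

/-!
Regular forms on the product of a variety and a curve.
-/

set_option autoImplicit false
set_option linter.overlappingInstances false
set_option linter.unusedSectionVars false
set_option linter.unusedVariables false
set_option linter.unusedSimpArgs false
set_option maxHeartbeats 4000000
set_option synthInstance.maxHeartbeats 400000

open Polynomial FF IntermediateField Pool.Agent.W619.PQ Pool.Agent.W619.PL Pool.Agent.W619.TW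
  Pool.Agent.W603.LV Pool.Agent.W479.PG Pool.Agent.W125.PG.FibJ

namespace Pool.Agent.K4H25.GW

section

variable {k L : Type} [Field k] [Field L] [Algebra k L] [CharZero k] [IsAlgClosed k]

theorem isSec_one {K : Type} [Field K] [Algebra k K] {n m : ℕ} {S : Finset K}
    {ω : (Fin n → Derivation k K K) → K} (h : IsSec k K n (fun _ => False) S m 0 ω) :
    IsSec k K n (fun _ => False) {1} m 0 ω := by
  refine ⟨h.1, fun v hv hB D hD => ?_, fun v hv hB => hB.elim⟩
  rcases h.2.1 v hv hB D hD with h1 | ⟨s, hs, hs0, h1⟩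
  · exact Or.inl h1
  · refine Or.inr ⟨1, Finset.mem_singleton_self _, one_ne_zero, ?_⟩
    simp only [Nat.cast_zero, zero_mul] at h1 ⊢
    exact h1

theorem kun_step (M F : IntermediateField k L) [hF : IsFF k F] {d : ℕ}
    (hM : Algebra.trdeg k M = d) (hL : Algebra.trdeg k L = (d + 1 : ℕ)) (hsup : M ⊔ F = ⊤)
    (y : Fin d → M) (hy : IsTranscendenceBasis k y) (t : F) (ht : Transcendental k t)
    (δ : Derivation k F F) (hδt : δ t = 1)
    (E : Fin (d + 1) → Derivation k L L) (hE0 : ∀ μ : M, E 0 (μ : L) = 0)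
    (hEt : E 0 (t : L) = 1) (hEF : ∀ l : Fin d, ∀ β : F, E l.succ (β : L) = 0)
    (hEy : ∀ l j : Fin d, E l.succ (y j : L) = if l = j then 1 else 0)
    {m : ℕ} {ω : (Fin (d + 1) → Derivation k L L) → L}
    (hω : IsSec k L (d + 1) (fun _ => False) {1} m 0 ω) :
    ∃ (r : ℕ) (β : Fin r → F) (μ : Fin r → M),
      (∀ i, β i = 0 ∨ ∀ q : Place k F, m * vo q δ ≤ q.ord (β i)) ∧
      ω E = ∑ i, (β i : L) * (μ i : L) ∧
      ∀ i, IsSec k M d (fun _ => False) {1} m 0
        (fun D => μ i * (Matrix.of fun a b => D a (y b)).det ^ m) := by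
  classical
  have hcur : Cur M F := cur_of hM hL hsup
  have hδ : δ ≠ 0 := by
    intro h
    rw [h] at hδt
    exact zero_ne_one hδt
  have hEδ : ∀ β : F, E 0 (β : L) = (δ β : L) := by
    intro β
    obtain ⟨r, hr1, hr2⟩ := ratio' (K := L) ht β
    have h1 := hr1 δ
    rw [hδt, mul_one] at h1
    have h2 := hr2 (E 0)
    change E 0 (β : L) = (r : L) * E 0 (t : L) at h2
    rw [hEt, mul_one] at h2
    rw [h2, h1]
  choose dM hdM using fun l => exists_dual y hy l
  have hEM : ∀ l (z : M), E (Fin.succ l) (z : L) = (dM l z : L) := by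
    intro l z
    refine der_comp (dM l) (E l.succ) y hy (fun j => ?_) z
    change E l.succ (y j : L) = ((dM l (y j) : M) : L)
    rw [hEy, hdM]
    by_cases h : j = l
    · subst h; simp
    · rw [if_neg h, if_neg (fun h' => h h'.symm)]; simp
  obtain ⟨C, hC, hCdeg⟩ := exists_C1 hδ
  set D : Place k F →₀ ℤ := m • C with hD
  have hDq : ∀ q, D q = - (m * vo q δ) := by
    intro q
    rw [hD, Finsupp.smul_apply, nsmul_eq_mul, hC]
    ring
  obtain ⟨s, β, hs, hβ⟩ := hcur.mem_span D (ω E)
    (fun w hw => by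
      rcases local1J hcur hy.1 hEM hEF hE0 hEδ hδ hω w 0 (Or.inl ⟨hw, rfl⟩) with
        h | ⟨s, hs, hs0, h⟩
      · exact Or.inl h
      · right
        simpa using h)
    (fun w q hw => by
      rcases local1J hcur hy.1 hEM hEF hE0 hEδ hδ hω w (vo q δ) (Or.inr ⟨q, hw, rfl⟩) with
        h | ⟨s, hs, hs0, h⟩
      · exact Or.inl h
      · right
        rw [hDq, neg_neg]
        simpa using h)
  -- a basis of the space
  obtain ⟨r, b, hb⟩ : ∃ (r : ℕ) (b : Module.Basis (Fin r) k (LL D)), True :=
    ⟨Module.finrank k (LL D), Module.finBasis k (LL D), trivial⟩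
  let β' : Fin r → F := fun j => (b j : F)
  have hβ'ind : LinearIndependent k β' := by
    have h1 := b.linearIndependent.map' (LL D).subtype (Submodule.ker_subtype _)
    exact h1
  let c : Module.Basis.ofVectorSpaceIndex k M → Fin r → k := fun i j =>
    if h : β i ∈ LL D then b.repr ⟨β i, h⟩ j else 0
  have hβc : ∀ i ∈ s, β i = ∑ j, c i j • β' j := by
    intro i hi
    have h1 := b.sum_repr ⟨β i, hβ i hi⟩
    have h2 := congrArg (Subtype.val : LL D → F) h1
    refine h2.symm.trans ?_
    change (LL D).subtype (∑ j, b.repr ⟨β i, hβ i hi⟩ j • b j) = _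
    rw [map_sum]
    refine Finset.sum_congr rfl fun j _ => ?_
    simp only [c, dif_pos (hβ i hi), β']
    rfl
  let μ' : Fin r → M := fun j => ∑ i ∈ s, c i j • (Module.Basis.ofVectorSpace k M i : M)
  have hsum : ω E = ∑ j, (β' j : L) * (μ' j : L) := by
    rw [hs]
    have h1 : ∀ i ∈ s, ((Module.Basis.ofVectorSpace k M i : M) : L) * (β i : L) =
        ∑ j, (β' j : L) * (c i j • ((Module.Basis.ofVectorSpace k M i : M) : L)) := by
      intro i hi
      rw [hβc i hi]
      push_cast
      rw [Finset.mul_sum]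
      refine Finset.sum_congr rfl fun j _ => ?_
      simp only [Algebra.smul_def]
      ring
    rw [Finset.sum_congr rfl h1, Finset.sum_comm]
    refine Finset.sum_congr rfl fun j _ => ?_
    rw [← Finset.mul_sum]
    congr 1
    simp only [μ']
    push_cast
    rfl
  obtain ⟨S', hS'⟩ := Pool.Agent.W735.PG.DESCJ.main Pool.Agent.W381.PG.main k L M F d hM hL hsup y
    hy t ht E hE0 hEt hEF hEy {1} 1 one_ne_zero
  refine ⟨r, β', μ', fun j => ?_, hsum, fun j => ?_⟩
  · rcases (b j).2 with h | h
    · exact Or.inl h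
    · right
      intro q
      have := h q
      rw [hDq, neg_neg] at this
      exact this
  · exact isSec_one (hS' m 0 ω hω r β' μ' hβ'ind (by rw [pow_zero, one_mul]; exact hsum) j)

end

end Pool.Agent.K4H25.GW
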