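import Pool.Agent.K4H25.GW.K1
import Pool.Agent.K4H25.GW.G1

/-!
Regular forms on products of curves are combinations of products of regular forms.
-/

set_option autoImplicit false
set_option linter.overlappingInstances false
set_option linter.unusedSectionVars false
set_option linter.unusedVariables false
set_option linter.unusedSimpArgs false
set_option maxHeartbeats 4000000
set_option synthInstance.maxHeartbeats 400000

open Polynomial FF IntermediateField Pool.Agent.W619.PQ Pool.Agent.W619.PL Pool.Agent.W619.TW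
  Pool.Agent.W603.LV Pool.Agent.K4H25.GQ

namespace Pool.Agent.K4H25.GW

section

variable {k : Type} [Field k] {A B : Type} [Field A] [Field B] [Algebra k A] [Algebra k B]
variable [CharZero k] [IsAlgClosed k] [IsFF k A] [IsFF k B]

theorem pushD_ne (e : A ≃ₐ[k] B) {D : Derivation k A A} (hD : D ≠ 0) : pushD e D ≠ 0 := by
  intro h
  apply hD
  ext z
  have h1 := congrArg (fun D : Derivation k B B => D (e z)) h
  simp only [pushD_apply, AlgEquiv.symm_apply_apply] at h1
  change e (D z) = 0 at h1
  rw [map_eq_zero] at h1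
  exact h1

theorem vo_push (e : A ≃ₐ[k] B) {D : Derivation k A A} (hD : D ≠ 0) (w : Place k B) :
    vo w (pushD e D) = vo (pullP e w) D := by
  obtain ⟨t, ht0, ht⟩ := w.surj
  rw [← vo_eq w ht (pushD_ne e hD), pushD_apply]
  have h1 : (pullP e w).ord (e.symm t) = 1 := by
    rw [pullP_ord, AlgEquiv.apply_symm_apply]
    exact ht
  rw [← vo_eq (pullP e w) h1 hD, pullP_ord]

end

section

variable {k : Type} [Field k] [CharZero k] [IsAlgClosed k]

theorem trdeg_bot (M : Type) [Field M] [Algebra k M] :
    Algebra.trdeg k (⊥ : IntermediateField k M) = (0 : ℕ) := by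
  have h1 : Algebra.IsAlgebraic k (⊥ : IntermediateField k M) := ⟨fun x => by
    obtain ⟨c, hc⟩ := IntermediateField.mem_bot.1 x.2
    have h2 : x = algebraMap k _ c := Subtype.ext hc.symm
    rw [h2]
    exact isAlgebraic_algebraMap c⟩
  rw [Nat.cast_zero]
  exact trdeg_eq_zero

/-- functions on the curves form a transcendence basis -/
theorem basis_curves {n : ℕ} {M : Type} [Field M] [Algebra k M] (A : Fin n → IntermediateField k M)
    [∀ i, IsFF k (A i)] (hn : Algebra.trdeg k M = n) (hgen : ⨆ i, A i = ⊤) (x : ∀ i, A i)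
    (hx : ∀ i, Transcendental k (x i)) : IsTranscendenceBasis k (fun i => (x i : M)) := by
  have hbot := trdeg_bot (k := k) M
  obtain ⟨y, hy⟩ := Pool.Agent.W636.PG.exists_basis k (⊥ : IntermediateField k M) 0 hbot
  have halg : Algebra.IsAlgebraic ↥((⊥ : IntermediateField k M) ⊔ ⨆ i, A i) M := by
    rw [hgen, bot_sup_eq]
    exact ⟨fun z => isAlgebraic_algebraMap (⟨z, trivial⟩ : (⊤ : IntermediateField k M))⟩
  have h := Pool.Agent.W672.PG.basis_mix (⊥ : IntermediateField k M) A halg
    (by rw [hn, Nat.zero_add]) (Fintype.card_fin 0) y hy x hx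
  refine (isTranscendenceBasis_equiv' (Equiv.emptySum (Fin 0) (Fin n)) ?_).1 h
  funext z
  rcases z with z | z
  · exact z.elim0
  · rfl

/-- the transcendence degree of the other factors -/
theorem trdeg_tail {n : ℕ} {M : Type} [Field M] [Algebra k M]
    (A : Fin (n + 1) → IntermediateField k M)
    [∀ i, IsFF k (A i)] (hn : Algebra.trdeg k M = (n + 1 : ℕ)) (hgen : ⨆ i, A i = ⊤) :
    Algebra.trdeg k ↥(⨆ j : Fin n, A j.succ) = (n : ℕ) ∧
      (⨆ j : Fin n, A j.succ) ⊔ A 0 = ⊤ := by
  obtain ⟨Z, hZ⟩ : ∃ Z : IntermediateField k M, Z = ⨆ j : Fin n, A j.succ := ⟨_, rfl⟩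
  rw [← hZ]
  have hAZ : ∀ j : Fin n, A j.succ ≤ Z := fun j => by
    rw [hZ]
    exact le_iSup (fun j : Fin n => A j.succ) j
  have hsup : Z ⊔ A 0 = ⊤ := by
    rw [eq_top_iff, ← hgen]
    refine iSup_le fun l => ?_
    refine Fin.cases le_sup_right (fun j => ?_) l
    exact (hAZ j).trans le_sup_left
  refine ⟨?_, hsup⟩
  let A' : Fin n → IntermediateField k Z := fun j => restrict (hAZ j)
  have hA' : ∀ j, IsFF k (A' j) := fun j => isFF_iso (restrictAlgEquiv (hAZ j)).symm inferInstance
  have hgen' : ⨆ j, A' j = ⊤ := by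
    apply lift_injective Z
    rw [lift_top]
    have h1 : lift (⨆ j, A' j) = ⨆ j, lift (A' j) := by
      unfold IntermediateField.lift
      rw [IntermediateField.map_iSup]
    rw [h1]
    simp only [A', lift_restrict]
    exact hZ.symm
  have h1 := Pool.Agent.W824.PG.trdeg_le_of_sup (⊥ : IntermediateField k Z) A' (trdeg_bot Z)
    (by rw [bot_sup_eq]; exact hgen')
  rw [Nat.zero_add] at h1
  obtain ⟨m, hm⟩ := Cardinal.lt_aleph0.1 (lt_of_le_of_lt h1 Cardinal.natCast_lt_aleph0)
  have h2 := Pool.Agent.W824.PG.trdeg_le_of_sup (d := m) Z (fun _ : Fin 1 => A 0) hm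
    (by rw [ciSup_const]; exact hsup)
  rw [hn] at h2
  rw [hm] at h1 ⊢
  have h3 : m ≤ n := by exact_mod_cast h1
  have h4 : n + 1 ≤ m + 1 := by exact_mod_cast h2
  have h5 : m = n := by omega
  rw [h5]

/-- **Künneth.** -/
theorem kun (n : ℕ) : ∀ (M : Type) [Field M] [Algebra k M] (A : Fin n → IntermediateField k M)
    [∀ i, IsFF k (A i)], Algebra.trdeg k M = (n : ℕ) → ⨆ i, A i = ⊤ →
    ∀ (x : ∀ i, A i), (∀ i, Transcendental k (x i)) →
    ∀ (δ : ∀ i, Derivation k (A i) (A i)), (∀ i, δ i (x i) = 1) →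
    ∀ (E : Fin n → Derivation k M M), (∀ i j, E i (x j : M) = if i = j then 1 else 0) →
    ∀ (m : ℕ) (ω : (Fin n → Derivation k M M) → M), IsSec k M n (fun _ => False) {1} m 0 ω →
    ω E ∈ Submodule.span k {z : M | ∃ β : ∀ i, A i,
      (∀ i, β i = 0 ∨ ∀ q : Place k (A i), m * vo q (δ i) ≤ q.ord (β i)) ∧
        z = ∏ i, (β i : M)} := by
  induction n with
  | zero =>
    intro M _ _ A _ hn hgen x hx δ hδ E hE m ω hω
    have halg : Algebra.IsAlgebraic k M := _root_.trdeg_eq_zero_iff.1 (by rw [hn, Nat.cast_zero])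
    have hbij : Function.Bijective (algebraMap k M) :=
      IsAlgClosed.algebraMap_bijective_of_isIntegral
    obtain ⟨c, hc⟩ := hbij.2 (ω E)
    rw [← hc, ← mul_one (algebraMap k M c), ← Algebra.smul_def]
    refine Submodule.smul_mem _ _ (Submodule.subset_span ⟨fun i => i.elim0, fun i => i.elim0, ?_⟩)
    rw [Finset.univ_eq_empty, Finset.prod_empty]
  | succ n ih =>
    intro M _ _ A _ hn hgen x hx δ hδ E hE m ω hω
    obtain ⟨htZ, hsup⟩ := trdeg_tail A hn hgen
    obtain ⟨Z, hZ⟩ : ∃ Z : IntermediateField k M, Z = ⨆ j : Fin n, A j.succ := ⟨_, rfl⟩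
    rw [← hZ] at htZ hsup
    have hAZ : ∀ j : Fin n, A j.succ ≤ Z := fun j => by
      rw [hZ]
      exact le_iSup (fun j : Fin n => A j.succ) j
    let A' : Fin n → IntermediateField k Z := fun j => restrict (hAZ j)
    have hA' : ∀ j, IsFF k (A' j) := fun j =>
      isFF_iso (restrictAlgEquiv (hAZ j)).symm inferInstance
    have hgen' : ⨆ j, A' j = ⊤ := by
      apply lift_injective Z
      rw [lift_top]
      have h1 : lift (⨆ j, A' j) = ⨆ j, lift (A' j) := by
        unfold IntermediateField.lift
        rw [IntermediateField.map_iSup]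
      rw [h1]
      simp only [A', lift_restrict]
      exact hZ.symm
    let φ : ∀ j, A j.succ ≃ₐ[k] A' j := fun j => restrictAlgEquiv (hAZ j)
    have hφ : ∀ j (z : A j.succ), (((φ j z : A' j) : Z) : M) = z := fun j z => rfl
    let x' : ∀ j, A' j := fun j => φ j (x j.succ)
    have hx' : ∀ j, Transcendental k (x' j) := fun j h =>
      hx j.succ ((isAlgebraic_algHom_iff (φ j : A j.succ →ₐ[k] A' j) (φ j).injective).1 h)
    let y : Fin n → Z := fun j => (x' j : Z)
    have hyM : ∀ j, (y j : M) = (x j.succ : M) := fun j => rfl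
    have hy : IsTranscendenceBasis k y := basis_curves A' htZ hgen' x' hx'
    have hE0 : ∀ μ : Z, E 0 (μ : M) = 0 := by
      intro μ
      have h1 := der_comp (0 : Derivation k Z Z) (E 0) y hy (fun j => by
        change E 0 (x j.succ : M) = ((0 : Z) : M)
        rw [hE, if_neg (Fin.succ_ne_zero j).symm]
        rfl) μ
      exact h1
    have hEF : ∀ l : Fin n, ∀ β : A 0, E l.succ (β : M) = 0 := by
      intro l β
      obtain ⟨r, -, hr2⟩ := ratio' (K := M) (hx 0) β
      have h2 := hr2 (E l.succ)
      change E l.succ (β : M) = (r : M) * E l.succ (x 0 : M) at h2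
      rw [h2, hE, if_neg (Fin.succ_ne_zero l), mul_zero]
    obtain ⟨r, β, μ, hβ, hsum, hμ⟩ := kun_step Z (A 0) htZ hn hsup y hy (x 0) (hx 0) (δ 0) (hδ 0) E
      hE0 (by rw [hE, if_pos rfl]) hEF (fun l j => by
        rw [hyM, hE]
        simp only [Fin.succ_inj]) hω
    choose dZ hdZ using fun l => exists_dual y hy l
    have hδne : ∀ i, δ i ≠ 0 := fun i h => by
      have h1 := hδ i
      rw [h] at h1
      exact zero_ne_one h1
    rw [hsum]
    refine Submodule.sum_mem _ fun i _ => ?_
    have h1 := ih Z A' htZ hgen' x' hx' (fun j => pushD (φ j) (δ j.succ)) (fun j => by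
      rw [pushD_apply]
      change φ j (δ j.succ ((φ j).symm (φ j (x j.succ)))) = 1
      rw [AlgEquiv.symm_apply_apply, hδ, map_one]) dZ (fun l j => by
      change dZ l (y j) = _
      rw [hdZ]
      by_cases h : j = l
      · rw [if_pos h, if_pos h.symm]
      · rw [if_neg h, if_neg (Ne.symm h)]) m _ (hμ i)
    have h2 : (Matrix.of fun a b => dZ a (y b)).det = 1 := by
      have h3 : (Matrix.of fun a b => dZ a (y b)) = 1 := by
        ext a b
        rw [Matrix.of_apply, Matrix.one_apply, hdZ]
        by_cases h : b = a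
        · rw [if_pos h, if_pos h.symm]
        · rw [if_neg h, if_neg (Ne.symm h)]
      rw [h3, Matrix.det_one]
    rw [h2, one_pow, mul_one] at h1
    -- back to `M`
    have h4 : ∀ z ∈ Submodule.span k {z : Z | ∃ β : ∀ j, A' j,
        (∀ j, β j = 0 ∨ ∀ q : Place k (A' j),
          m * vo q (pushD (φ j) (δ j.succ)) ≤ q.ord (β j)) ∧ z = ∏ j, (β j : Z)},
        ((β i : A 0) : M) * (z : M) ∈ Submodule.span k {z : M | ∃ β : ∀ i, A i,
      (∀ i, β i = 0 ∨ ∀ q : Place k (A i), m * vo q (δ i) ≤ q.ord (β i)) ∧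
        z = ∏ i, (β i : M)} := by
      intro z hz
      induction hz using Submodule.span_induction with
      | mem z hz =>
        obtain ⟨b, hb, rfl⟩ := hz
        refine Submodule.subset_span ⟨Fin.cons (β i) fun j => (φ j).symm (b j), fun l => ?_, ?_⟩
        · refine Fin.cases (hβ i) (fun j => ?_) l
          rw [Fin.cons_succ]
          rcases hb j with h | h
          · left
            rw [h, map_zero]
          · right
            intro q
            have h5 := h (pullP (φ j).symm q)
            rw [vo_push _ (hδne _), pullP_symm' (φ j) q] at h5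
            exact h5
        · rw [Fin.prod_univ_succ, Fin.cons_zero]
          congr 1
          push_cast
          refine Finset.prod_congr rfl fun j _ => ?_
          rw [Fin.cons_succ, ← hφ, AlgEquiv.apply_symm_apply]
      | zero =>
        rw [ZeroMemClass.coe_zero, mul_zero]
        exact Submodule.zero_mem _
      | add a b _ _ ha hb =>
        push_cast
        rw [mul_add]
        exact Submodule.add_mem _ ha hb
      | smul c a _ ha =>
        have h5 : ((c • a : Z) : M) = c • (a : M) := rfl
        rw [h5, mul_smul_comm]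
        exact Submodule.smul_mem _ _ ha
    exact h4 _ h1

end

end Pool.Agent.K4H25.GW
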