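import Pool.Agent.K4H25.GW.K2

/-!
The orders of the regular forms on products of curves.
-/

set_option autoImplicit false
set_option linter.overlappingInstances false
set_option linter.unusedSectionVars false
set_option linter.unusedVariables false
set_option linter.unusedSimpArgs false
set_option maxHeartbeats 4000000
set_option synthInstance.maxHeartbeats 400000

open Polynomial FF IntermediateField Pool.Agent.W619.PQ Pool.Agent.W619.PL Pool.Agent.W619.TW
  Pool.Agent.W603.LV Pool.Agent.K4H25.GQ Pool.Agent.W619.X Pool.Agent.W619.Y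

namespace Pool.Agent.K4H25.GW

section

variable {k : Type} [Field k] [CharZero k] [IsAlgClosed k] {M : Type} [Field M] [Algebra k M]

/-- a curve at a place -/
theorem curve_loc2 (A : IntermediateField k M) [hA : IsFF k A] (x : A) (hx : Transcendental k x)
    (δ : Derivation k A A) (hδ : δ x = 1) (w : Place k M) :
    ∃ (t r : A) (f : ℕ), t ≠ 0 ∧ w.ord (t : M) = f ∧
      (∀ D : Derivation k M M, D (x : M) = (r : M) * D (t : M)) ∧
      (∀ (m : ℕ) (β : A), (β = 0 ∨ ∀ q : Place k A, m * vo q δ ≤ q.ord β) →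
        Ge w 0 ((β : M) * (r : M) ^ m)) ∧
      (((∀ z ∈ A, w.ord z = 0) ∧ f = 0) ∨ ∃ w' : Place k A, Over w w' f) := by
  have hδ0 : δ ≠ 0 := by
    intro h
    rw [h] at hδ
    exact zero_ne_one hδ
  have hx0 : x ≠ 0 := by
    intro h0
    rw [h0] at hx
    exact hx (isAlgebraic_zero)
  by_cases htriv : ∀ f : A, w.ord (algebraMap A M f) = 0
  · refine ⟨x, 1, 0, hx0, htriv x, fun D => ?_, fun m β _ => ?_,
      Or.inl ⟨fun z hz => htriv ⟨z, hz⟩, rfl⟩⟩
    · rw [OneMemClass.coe_one, one_mul]
    · rw [OneMemClass.coe_one, one_pow, mul_one]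
      exact Or.inr (htriv β).ge
  push Not at htriv
  obtain ⟨f, w', hw'⟩ := exists_over (K := A) w htriv
  obtain ⟨t, ht0, ht⟩ := w'.surj
  have htt : Transcendental k t := trans_of_ord w' (by omega)
  obtain ⟨r, hr1, hr2⟩ := ratio' (K := M) htt x
  have hδt : δ t ≠ 0 := der_ne_zero hδ0 htt
  have hrt : r * δ t = 1 := by rw [← hr1 δ, hδ]
  have hr0 : r ≠ 0 := left_ne_zero_of_mul_eq_one hrt
  have hrord : w'.ord r = - vo w' δ := by
    have h1 := w'.ord_mul hr0 hδt
    rw [hrt, w'.ord_one, vo_eq w' ht hδ0] at h1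
    omega
  refine ⟨t, r, f, ht0, ?_, fun D => hr2 D, fun m β hβ => ?_, Or.inr ⟨w', hw'⟩⟩
  · have h1 := hw'.2 t
    rw [ht, mul_one] at h1
    exact h1
  · have h1 : ((β : M) * (r : M) ^ m) = algebraMap A M (β * r ^ m) := by
      rw [map_mul, map_pow]
      rfl
    rw [h1]
    rcases hβ with h | h
    · left
      rw [h, zero_mul, map_zero]
    · by_cases hβ0 : β = 0
      · left
        rw [hβ0, zero_mul, map_zero]
      right
      rw [hw'.2, w'.ord_mul hβ0 (pow_ne_zero _ hr0), w'.ord_pow, hrord]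
      have h2 := h w'
      have h3 : (0 : ℤ) ≤ f := by positivity
      have h4 : 0 ≤ w'.ord β + m * -vo w' δ := by linarith
      exact mul_nonneg h3 h4

open scoped Classical in
/-- **The orders of the regular forms.** -/
theorem age_est {n : ℕ} (A : Fin n → IntermediateField k M)
    [hA : ∀ i, IsFF k (A i)] (hn : Algebra.trdeg k M = (n : ℕ)) (hgen : ⨆ i, A i = ⊤)
    (w : Place k M) : ∃ f : Fin n → ℕ,
      (∀ i, ((∀ z ∈ A i, w.ord z = 0) ∧ f i = 0) ∨ ∃ w' : Place k (A i), Over w w' (f i)) ∧
      ∀ (m : ℕ) (ω : (Fin n → Derivation k M M) → M), IsSec k M n (fun _ => False) {1} m 0 ω →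
        ∀ D : Fin n → Derivation k M M, (∀ j, Pres w (D j)) →
          Ge w (m * (((∑ i, f i : ℕ) : ℤ) - 1)) (ω D) := by
  classical
  choose x hx using fun i => IsFF.exists_transcendental (k := k) (K := A i)
  choose δ hδ0 hδ using fun i => exists_ddx (hx i)
  choose t r f ht0 hft hrx hβ hf using fun i => curve_loc2 (A i) (x i) (hx i) (δ i) (hδ i) w
  refine ⟨f, hf, fun m ω hω D hD => ?_⟩
  have hbasis := basis_curves A hn hgen x hx
  obtain ⟨E, hE⟩ := Pool.Agent.W636.PG.exists_duals k M n _ hbasis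
  have h1 := kun n M A hn hgen x hx δ hδ E (fun i j => hE i j) m ω hω
  have h2 := Pool.Agent.W636.PG.form_eq k M n m _ hbasis E hE ω hω.1 D
  have htM : ∀ i, (t i : M) ≠ 0 := fun i h => ht0 i (Subtype.ext h)
  have h3 : (Matrix.of fun i j => D i ((x j : A j) : M)).det =
      (∏ i, (r i : M)) * (Matrix.of fun i j => D i ((t j : A j) : M)).det := by
    rw [det_factor D _ (fun j => ((t j : A j) : M)) (Matrix.diagonal fun i => (r i : M)) (by
      intro D i
      rw [Finset.sum_eq_single i]
      · rw [Matrix.diagonal_apply_eq]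
        exact hrx i D
      · intro b _ hb
        rw [Matrix.diagonal_apply_ne _ (Ne.symm hb), zero_mul]
      · intro h
        exact absurd (Finset.mem_univ i) h), Matrix.det_diagonal]
  have h4 : (Matrix.of fun i j => D i ((t j : A j) : M)).det =
      (∏ i, (t i : M)) * (Matrix.of fun i j => D i ((t j : A j) : M) / (t j : M)).det :=
    det_dlog D _ htM
  have h5 := det_log w D hD (fun j => ((t j : A j) : M)) htM
  have h6 : Ge w (∑ i, w.ord (t i : M)) (∏ i, (t i : M)) :=
    Ge.prod _ _ _ fun c _ => Or.inr le_rfl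
  have h7 : Ge w (((∑ i, f i : ℕ) : ℤ) - 1) (Matrix.of fun i j => D i ((t j : A j) : M)).det := by
    rw [h4]
    refine (h6.mul h5).mono ?_
    rw [Finset.sum_congr rfl fun i _ => hft i]
    push_cast
    linarith
  -- the coefficient
  have h8 : ∀ z ∈ Submodule.span k {z : M | ∃ β : ∀ i, A i,
      (∀ i, β i = 0 ∨ ∀ q : Place k (A i), m * vo q (δ i) ≤ q.ord (β i)) ∧
        z = ∏ i, (β i : M)}, Ge w 0 (z * (∏ i, (r i : M)) ^ m) := by
    intro z hz
    induction hz using Submodule.span_induction with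
    | mem z hz =>
      obtain ⟨b, hb, rfl⟩ := hz
      rw [← Finset.prod_pow, ← Finset.prod_mul_distrib]
      have h9 := Ge.prod (P := w) Finset.univ (fun i => (b i : M) * (r i : M) ^ m) (fun _ => (0 : ℤ))
        fun i _ => hβ i m (b i) (hb i)
      simpa using h9
    | zero =>
      left
      rw [zero_mul]
    | add a b _ _ ha hb =>
      rw [add_mul]
      exact ha.add hb
    | smul c a _ ha =>
      rw [smul_mul_assoc, Algebra.smul_def]
      have h9 : Ge w 0 (algebraMap k M c) := by
        by_cases hc : c = 0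
        · left
          rw [hc, map_zero]
        · right
          rw [w.ord_const hc]
      have := h9.mul ha
      simpa using this
  have h9 := (h8 _ h1).mul (h7.pow m)
  rw [h2, h3]
  refine (show Ge w _ _ from ?_)
  have e1 : ((∏ i, (r i : M)) * (Matrix.of fun i j => D i ((t j : A j) : M)).det) ^ m * ω E =
      ω E * (∏ i, (r i : M)) ^ m * (Matrix.of fun i j => D i ((t j : A j) : M)).det ^ m := by
    ring
  rw [e1]
  refine h9.mono ?_
  rw [zero_add]

end

end Pool.Agent.K4H25.GW
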