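import Pool.Agent.K4H25.GW.K3
import Pool.Agent.K4H25.GW.G4

/-!
The reduction to the subgroup generated by the junior elements.
-/

set_option autoImplicit false
set_option linter.overlappingInstances false
set_option linter.unusedSectionVars false
set_option linter.unusedVariables false
set_option linter.unusedSimpArgs false
set_option maxHeartbeats 4000000
set_option synthInstance.maxHeartbeats 400000

open Polynomial FF IntermediateField Pool.Agent.W619.PQ Pool.Agent.W619.PL Pool.Agent.W619.TW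
  Pool.Agent.W603.LV Pool.Agent.K4H25.GQ Pool.Agent.Y174 Pool.Agent.R885.N

namespace Pool.Agent.K4H25.GW

section

variable {M : Type} [Field M] [Algebra ℂ M] {n : ℕ}

/-- The automorphism `g ≠ 1` of order `N` is junior: for some primitive `N`-th root of unity `ζ` it
acts on the curves at some places as the rotations by `ζ ^ a i` with `0 ≤ a i < N` and
`∑ a i < N`. -/
def Junior (C : Fin n → IntermediateField ℂ M) (g : M ≃ₐ[ℂ] M) : Prop :=
  g ≠ 1 ∧ ∃ (ζ : ℂ) (w : ∀ i, Place ℂ (C i)) (a : Fin n → ℕ), IsPrimitiveRoot ζ (orderOf g) ∧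
    (∀ i, Rotates (C i) g (w i) (ζ ^ a i)) ∧ ∑ i, a i < orderOf g

/-- At a place where the ramification index is larger than the age the generator of the inertia
group is junior. -/
theorem junior_at (C : Fin n → IntermediateField ℂ M) [hC : ∀ i, IsFF ℂ (C i)]
    (G : Subgroup (M ≃ₐ[ℂ] M)) [Finite G] (hst : ∀ g ∈ G, ∀ i, ∀ z ∈ C i, g z ∈ C i)
    (J : Subgroup (M ≃ₐ[ℂ] M)) [Finite J] (hJ : ∀ g ∈ G, Junior C g → g ∈ J)
    {w : Place ℂ M} {v : Place ℂ (fixedField G)} {u : Place ℂ (fixedField J)} {e e' : ℕ}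
    (hv : Over w v e) (hu : Over w u e') {f : Fin n → ℕ}
    (hf : ∀ i, ((∀ z ∈ C i, w.ord z = 0) ∧ f i = 0) ∨ ∃ w' : Place ℂ (C i), Over w w' (f i))
    (hlt : ∑ i, f i < e) : e ≤ e' := by
  classical
  by_cases he : e = 1
  · rw [he]
    exact hu.1
  obtain ⟨I, hIcard, hI⟩ := inertia_at G hv
  obtain ⟨g, hgI, hord, ζ, hζ, hrot⟩ := exists_rot_generator w I hI
  rw [hIcard] at hord hζ
  have hgin := hI g hgI
  have hg1 : (g : M ≃ₐ[ℂ] M) ≠ 1 := by
    intro h1
    rw [h1, orderOf_one] at hord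
    exact he hord.symm
  have hjun : Junior C (g : M ≃ₐ[ℂ] M) := by
    have hw : ∀ i, ∃ w' : Place ℂ (C i), Rotates (C i) (g : M ≃ₐ[ℂ] M) w' (ζ ^ f i) := by
      intro i
      rcases hf i with ⟨h1, h2⟩ | ⟨w', h1⟩
      · obtain ⟨w', -⟩ := exists_place (k := ℂ) (K := C i)
        refine ⟨w', fun t z ht hz => Or.inl ?_⟩
        apply Subtype.ext
        have hcoe : ((z - algebraMap ℂ (C i) (ζ ^ f i) * t : C i) : M) =
            (g : M ≃ₐ[ℂ] M) t - algebraMap ℂ M (ζ ^ f i) * t := by
          rw [hz]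
          rfl
        rw [hcoe, inert_triv hgin (hst g g.2 i) h1 t t.2, h2, pow_zero, map_one, one_mul, sub_self]
        rfl
      · refine ⟨w', fun t z ht hz => ?_⟩
        have hcoe : ((z - algebraMap ℂ (C i) (ζ ^ f i) * t : C i) : M) =
            (g : M ≃ₐ[ℂ] M) t - algebraMap ℂ M (ζ ^ f i) * t := by
          rw [hz]
          rfl
        have ht0 : (t : M) ≠ 0 := by
          intro h0
          have h1 : t = 0 := Subtype.ext h0
          rw [h1, w'.ord_zero] at ht
          omega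
        have h2 : w.ord (t : M) = f i := by
          have := h1.2 t
          rw [ht, mul_one] at this
          exact this
        have h3 := hrot (t : M) ht0
        rw [h2, zpow_natCast, ← hcoe] at h3
        rcases h3 with h3 | h3
        · exact Or.inl (Subtype.ext h3)
        · right
          have h5 := h1.2 (z - algebraMap ℂ (C i) (ζ ^ f i) * t : C i)
          change w.ord ((z - algebraMap ℂ (C i) (ζ ^ f i) * t : C i) : M) = _ at h5
          rw [h5] at h3
          have h6 : (1 : ℤ) ≤ f i := by exact_mod_cast h1.1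
          by_contra hcon
          push Not at hcon
          nlinarith
    choose w' hw' using hw
    refine ⟨hg1, ζ, w', f, by rw [hord]; exact hζ, hw', ?_⟩
    rw [hord]
    exact hlt
  have hgJ := hJ g g.2 hjun
  obtain ⟨z, hz0, hz⟩ := u.surj
  have hzM : (z : M) ≠ 0 := fun h => hz0 (Subtype.ext h)
  have h1 : w.ord (z : M) = e' := by
    have := hu.2 z
    rw [hz, mul_one] at this
    exact this
  have h2 := hrot (z : M) hzM
  have h3 : (g : M ≃ₐ[ℂ] M) (z : M) = z := z.2 ⟨_, hgJ⟩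
  rw [h3, h1, zpow_natCast] at h2
  have h4 : (z : M) - algebraMap ℂ M (ζ ^ e') * z = algebraMap ℂ M (1 - ζ ^ e') * z := by
    rw [map_sub, map_one]
    ring
  rw [h4] at h2
  have h5 : ζ ^ e' = 1 := by
    by_contra hne
    have h6 : (1 : ℂ) - ζ ^ e' ≠ 0 := sub_ne_zero.2 (Ne.symm hne)
    have h7 : algebraMap ℂ M (1 - ζ ^ e') ≠ 0 := (_root_.map_ne_zero _).2 h6
    rcases h2 with h2 | h2
    · exact mul_ne_zero h7 hzM h2
    · rw [w.ord_mul h7 hzM, w.ord_const h6, h1] at h2
      omega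
  exact Nat.le_of_dvd hu.1 ((hζ.pow_eq_one_iff_dvd _).1 h5)

/-- **The reduction to the subgroup generated by the junior elements.** -/
theorem junior_red (C : Fin n → IntermediateField ℂ M) [hC : ∀ i, IsFF ℂ (C i)]
    (hn : Algebra.trdeg ℂ M = (n : ℕ)) (hgen : ⨆ i, C i = ⊤)
    (G : Subgroup (M ≃ₐ[ℂ] M)) [Finite G] (hst : ∀ g ∈ G, ∀ i, ∀ z ∈ C i, g z ∈ C i)
    (J : Subgroup (M ≃ₐ[ℂ] M)) (hJG : J ≤ G) (hJ : ∀ g ∈ G, Junior C g → g ∈ J)
    (h : PosB ℂ (fixedField J) n (fun _ => 0) ∨ NegB ℂ (fixedField J) n (fun _ => 0)) :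
    PosB ℂ (fixedField G) n (fun _ => 0) ∨ NegB ℂ (fixedField G) n (fun _ => 0) := by
  classical
  have hfJ : Finite J := Finite.of_injective (Subgroup.inclusion hJG)
    (Subgroup.inclusion_injective hJG)
  have hGJ : fixedField G ≤ fixedField J := fun z hz g => hz ⟨g, hJG g.2⟩
  have hessM : Algebra.EssFiniteType ℂ M := by
    have h1 : Algebra.EssFiniteType ℂ ↥(⨆ i, C i) := essFiniteType_iff.2
      (fg_iSup fun i => essFiniteType_iff.1 (IsFF.ess))
    rw [hgen] at h1
    exact (Algebra.EssFiniteType.iff_of_algEquiv (topEquiv (F := ℂ) (E := M))).1 h1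
  have halgG := Pool.Agent.W721.PG.EFF2.alg_fixed G
  have halgJ := Pool.Agent.W721.PG.EFF2.alg_fixed J
  have hfinG : FiniteDimensional (fixedField G) M := fixed_finite G
  have hfinJ : FiniteDimensional (fixedField J) M := fixed_finite J
  obtain ⟨htG, -⟩ := Pool.Agent.W721.PG.EFF2.exists_basis (fixedField G) n hn
  obtain ⟨htJ, -⟩ := Pool.Agent.W721.PG.EFF2.exists_basis (fixedField J) n hn
  have hessG : Algebra.EssFiniteType ℂ (fixedField G) := Pool.Agent.TH466.QG.ess_below (K := M)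
  have hessJ : Algebra.EssFiniteType ℂ (fixedField J) := Pool.Agent.TH466.QG.ess_below (K := M)
  let _ : Algebra (fixedField G) (fixedField J) := (inclusion hGJ).toRingHom.toAlgebra
  have t1 : IsScalarTower ℂ (fixedField G) (fixedField J) :=
    IsScalarTower.of_algebraMap_eq fun c => rfl
  have t2 : IsScalarTower (fixedField G) (fixedField J) M :=
    IsScalarTower.of_algebraMap_eq fun c => rfl
  have hfin : FiniteDimensional (fixedField G) (fixedField J) :=
    FiniteDimensional.left (fixedField G) (fixedField J) M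
  have hb : ∀ v : Place ℂ (fixedField G), IsDivisorial v n →
      ∀ (w : Place ℂ (fixedField J)) (e : ℕ), LiesOn w v e →
      1 - (e : ℝ) * (1 - (fun _ : Place ℂ (fixedField G) => (0 : ℝ)) v) ≤
        (fun _ : Place ℂ (fixedField J) => (0 : ℝ)) w := by
    intro v _ w e hw
    have h1 : (1 : ℝ) ≤ e := by exact_mod_cast hw.1
    beta_reduce
    linarith
  rcases h with ⟨d, hd, h1, h2⟩ | h1
  swap
  · exact Or.inr (neg_pull hessG htG hb h1)
  refine Or.inl ⟨d, hd, ?_, w0_num hessG htG hb h2⟩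
  -- the ramification indices
  choose eG vG hG using fun w : Place ℂ M =>
    Pool.Agent.W73.PG.PULL.exists_over' (K := fixedField G) w
  choose eJ vJ hJ' using fun w : Place ℂ M =>
    Pool.Agent.W73.PG.PULL.exists_over' (K := fixedField J) w
  have h3 : PairKod ℂ M n (fun w => 1 - (eJ w : ℝ)) d := by
    refine ((fin_all (K := fixedField J) (L := M) hessJ htJ
      (δ := fun _ => 0) (δ' := fun w => 1 - (eJ w : ℝ)) ?_).1 d).2 h1
    intro v _ w e hw
    obtain ⟨h4, -⟩ := over_uniq hw (hJ' w)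
    rw [h4]
    ring
  refine w0_desc hn hessM G (fun _ => 0) (fun w => 1 - (eG w : ℝ)) ?_ ?_
  · intro v _ w e hw
    obtain ⟨h4, -⟩ := over_uniq hw (hG w)
    rw [h4]
    apply le_of_eq
    ring
  obtain ⟨m, hm, ω, hω, D, hD, hind⟩ := h3
  refine ⟨m, hm, ω, fun l => ⟨(hω l).1, fun w hw E hE => ?_⟩, D, hD, hind⟩
  -- orders
  have hJ1 : ∀ w, 1 ≤ eJ w := fun w => (hJ' w).1
  have hsec : ∀ w, IsDivisorial w n → ∀ E : Fin n → Derivation ℂ M M,
      (∀ l, ∀ f, w.Reg f → w.Reg (E l f)) → ω l E = 0 ∨ (m : ℤ) * (eJ w - 1) ≤ w.ord (ω l E) := by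
    intro w hw E hE
    rcases (hω l).2 w hw E hE with h4 | ⟨s, hs, hs0, h4⟩
    · exact Or.inl h4
    · right
      simp only [Nat.cast_zero, zero_mul, zero_sub] at h4
      have h5 : (((m : ℤ) * (eJ w - 1) : ℤ) : ℝ) ≤ ((w.ord (ω l E) : ℤ) : ℝ) := by
        push_cast
        linarith
      exact_mod_cast h5
  have hreg : IsSec ℂ M n (fun _ => False) {1} m 0 (ω l) := by
    refine ⟨(hω l).1, fun w hw _ E hE => ?_, fun _ _ hF => hF.elim⟩
    rcases hsec w hw E hE with h4 | h4
    · exact Or.inl h4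
    · refine Or.inr ⟨1, Finset.mem_singleton_self _, one_ne_zero, ?_⟩
      have h5 : (1 : ℤ) ≤ eJ w := by exact_mod_cast hJ1 w
      have h6 : (0 : ℤ) ≤ m := by positivity
      have h7 : (0 : ℤ) ≤ (m : ℤ) * (eJ w - 1) := mul_nonneg h6 (by omega)
      simp only [Nat.cast_zero, zero_mul]
      omega
  have hmain : ω l E = 0 ∨ (m : ℤ) * (eG w - 1) ≤ w.ord (ω l E) := by
    obtain ⟨f, hf, hage⟩ := age_est C hn hgen w
    have h4 := hage m (ω l) hreg E hE
    have h6 : (0 : ℤ) ≤ m := by positivity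
    by_cases hlt : ∑ i, f i < eG w
    · have h5 := junior_at C G hst J hJ (hG w) (hJ' w) hf hlt
      rcases hsec w hw E hE with h7 | h7
      · exact Or.inl h7
      · right
        have h8 : (eG w : ℤ) ≤ eJ w := by exact_mod_cast h5
        nlinarith
    · rcases h4 with h7 | h7
      · exact Or.inl h7
      · right
        have h8 : (eG w : ℤ) ≤ ((∑ i, f i : ℕ) : ℤ) := by exact_mod_cast not_lt.1 hlt
        nlinarith
  rcases hmain with h4 | h4
  · exact Or.inl h4
  · refine Or.inr ⟨1, Finset.mem_singleton_self _, one_ne_zero, ?_⟩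
    have h5 : (((m : ℤ) * (eG w - 1) : ℤ) : ℝ) ≤ ((w.ord (ω l E) : ℤ) : ℝ) := by exact_mod_cast h4
    push_cast at h5
    simp only [Nat.cast_zero, zero_mul, zero_sub]
    linarith

end

end Pool.Agent.K4H25.GW
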