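import Pool.Agent.K4H25.GW.K4

/-!
Local parameters of the curves at a place.
-/

set_option autoImplicit false
set_option linter.overlappingInstances false
set_option linter.unusedSectionVars false
set_option linter.unusedVariables false
set_option linter.unusedSimpArgs false
set_option maxHeartbeats 4000000
set_option synthInstance.maxHeartbeats 400000

open Polynomial FF IntermediateField Pool.Agent.W619.PQ Pool.Agent.W619.PL Pool.Agent.W619.TW
  Pool.Agent.W603.LV Pool.Agent.K4H25.GQ Pool.Agent.W619.X Pool.Agent.W619.Y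

namespace Pool.Agent.K4H25.GW

section

variable {k : Type} [Field k] {M : Type} [Field M] [Algebra k M]

/-- `t` is a local parameter at `w` of the curve with the function field `A`. -/
def Par (w : Place k M) (A : IntermediateField k M) (t : M) : Prop :=
  t ∈ A ∧ t ≠ 0 ∧ (((∀ z ∈ A, w.ord z = 0) ∧ Transcendental k t) ∨
    ∃ (w' : Place k A) (f : ℕ), Over w w' f ∧ w.ord t = f)

theorem Par.nonneg {w : Place k M} {A : IntermediateField k M} {t : M} (h : Par w A t) :
    0 ≤ w.ord t := by
  obtain ⟨h1, h2, ⟨h3, -⟩ | ⟨w', f, h3, h4⟩⟩ := h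
  · rw [h3 t h1]
  · rw [h4]
    positivity

end

section

variable {k : Type} [Field k] [CharZero k] [IsAlgClosed k] {M : Type} [Field M] [Algebra k M]

theorem exists_par (A : IntermediateField k M) [hA : IsFF k A] (w : Place k M) :
    ∃ t, Par w A t := by
  obtain ⟨x, hx⟩ := IsFF.exists_transcendental (k := k) (K := A)
  have hx' : Transcendental k (x : M) := fun h =>
    hx ((isAlgebraic_algebraMap_iff (algebraMap A M).injective).1 h)
  by_cases htriv : ∀ f : A, w.ord (algebraMap A M f) = 0
  · exact ⟨x, x.2, fun h => hx' (h ▸ isAlgebraic_zero),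
      Or.inl ⟨fun z hz => htriv ⟨z, hz⟩, hx'⟩⟩
  · push Not at htriv
    obtain ⟨f, w', hw'⟩ := exists_over (K := A) w htriv
    obtain ⟨t, ht0, ht⟩ := w'.surj
    refine ⟨t, t.2, fun h => ht0 (Subtype.ext h), Or.inr ⟨w', f, hw', ?_⟩⟩
    have h1 := hw'.2 t
    rw [ht, mul_one] at h1
    exact h1

/-- the form on one of the curves -/
theorem par_loc (A : IntermediateField k M) [hA : IsFF k A] (x : A)
    (δ : Derivation k A A) (hδ : δ x = 1) (w : Place k M) {t : M} (ht : Par w A t) :
    ∃ r : A, (∀ D : Derivation k M M, D (x : M) = (r : M) * D t) ∧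
      ∀ (m : ℕ) (β : A), (β = 0 ∨ ∀ q : Place k A, m * vo q δ ≤ q.ord β) →
        Ge w 0 ((β : M) * (r : M) ^ m) := by
  have hδ0 : δ ≠ 0 := by
    intro h
    rw [h] at hδ
    exact zero_ne_one hδ
  obtain ⟨htA, ht0, ht⟩ := ht
  obtain ⟨s, hs⟩ : ∃ s : A, (s : M) = t := ⟨⟨t, htA⟩, rfl⟩
  subst hs
  rcases ht with ⟨htriv, htr⟩ | ⟨w', f, hw', hf⟩
  · have hst : Transcendental k s := fun h => htr (h.algebraMap)
    obtain ⟨r, hr1, hr2⟩ := ratio' (K := M) hst x
    refine ⟨r, fun D => hr2 D, fun m β _ => Or.inr ?_⟩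
    have h1 : ((β : M) * (r : M) ^ m) ∈ A := mul_mem β.2 (pow_mem r.2 m)
    rw [htriv _ h1]
  · have hs1 : w'.ord s = 1 := by
      have h1 := hw'.2 s
      change w.ord (s : M) = _ at h1
      rw [hf] at h1
      have h2 : (0 : ℤ) < f := by exact_mod_cast hw'.1
      have h3 : (f : ℤ) * (w'.ord s - 1) = 0 := by rw [mul_sub, ← h1]; ring
      rcases mul_eq_zero.1 h3 with h4 | h4
      · omega
      · omega
    have hs0 : s ≠ 0 := fun h => ht0 (congrArg Subtype.val h)
    have hst : Transcendental k s := trans_of_ord w' (by omega)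
    obtain ⟨r, hr1, hr2⟩ := ratio' (K := M) hst x
    have hδt : δ s ≠ 0 := der_ne_zero hδ0 hst
    have hrt : r * δ s = 1 := by rw [← hr1 δ, hδ]
    have hr0 : r ≠ 0 := left_ne_zero_of_mul_eq_one hrt
    have hrord : w'.ord r = - vo w' δ := by
      have h1 := w'.ord_mul hr0 hδt
      rw [hrt, w'.ord_one, vo_eq w' hs1 hδ0] at h1
      omega
    refine ⟨r, fun D => hr2 D, fun m β hβ => ?_⟩
    have h1 : ((β : M) * (r : M) ^ m) = algebraMap A M (β * r ^ m) := by
      rw [map_mul, map_pow]
      rfl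
    rw [h1]
    rcases hβ with h | h
    · left
      rw [h, zero_mul, map_zero]
    · by_cases hβ0 : β = 0
      · left
        rw [hβ0, zero_mul, map_zero]
      right
      rw [hw'.2, w'.ord_mul hβ0 (pow_ne_zero _ hr0), w'.ord_pow, hrord]
      have h2 := h w'
      have h3 : (0 : ℤ) ≤ f := by positivity
      have h4 : 0 ≤ w'.ord β + m * -vo w' δ := by linarith
      exact mul_nonneg h3 h4

/-- **The orders of the regular forms**, in terms of arbitrary local parameters. -/
theorem par_est {n : ℕ} (A : Fin n → IntermediateField k M)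
    [hA : ∀ i, IsFF k (A i)] (hn : Algebra.trdeg k M = (n : ℕ)) (hgen : ⨆ i, A i = ⊤)
    (w : Place k M) (t : Fin n → M) (ht : ∀ i, Par w (A i) (t i)) (N : ℤ)
    (D : Fin n → Derivation k M M)
    (hN : Ge w N (Matrix.of fun i j => D i (t j)).det) (m : ℕ)
    (ω : (Fin n → Derivation k M M) → M) (hω : IsSec k M n (fun _ => False) {1} m 0 ω) :
    Ge w (m * N) (ω D) := by
  classical
  choose x hx using fun i => IsFF.exists_transcendental (k := k) (K := A i)
  choose δ hδ0 hδ using fun i => exists_ddx (hx i)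
  choose r hrx hβ using fun i => par_loc (A i) (x i) (δ i) (hδ i) w (ht i)
  have hbasis := basis_curves A hn hgen x hx
  obtain ⟨E, hE⟩ := Pool.Agent.W636.PG.exists_duals k M n _ hbasis
  have h1 := kun n M A hn hgen x hx δ hδ E (fun i j => hE i j) m ω hω
  have h2 := Pool.Agent.W636.PG.form_eq k M n m _ hbasis E hE ω hω.1 D
  have h3 : (Matrix.of fun i j => D i ((x j : A j) : M)).det =
      (∏ i, (r i : M)) * (Matrix.of fun i j => D i (t j)).det := by
    rw [det_factor D _ t (Matrix.diagonal fun i => (r i : M)) (by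
      intro D i
      rw [Finset.sum_eq_single i]
      · rw [Matrix.diagonal_apply_eq]
        exact hrx i D
      · intro b _ hb
        rw [Matrix.diagonal_apply_ne _ (Ne.symm hb), zero_mul]
      · intro h
        exact absurd (Finset.mem_univ i) h), Matrix.det_diagonal]
  -- the coefficient
  have h8 : ∀ z ∈ Submodule.span k {z : M | ∃ β : ∀ i, A i,
      (∀ i, β i = 0 ∨ ∀ q : Place k (A i), m * vo q (δ i) ≤ q.ord (β i)) ∧
        z = ∏ i, (β i : M)}, Ge w 0 (z * (∏ i, (r i : M)) ^ m) := by
    intro z hz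
    induction hz using Submodule.span_induction with
    | mem z hz =>
      obtain ⟨b, hb, rfl⟩ := hz
      rw [← Finset.prod_pow, ← Finset.prod_mul_distrib]
      have h9 := Ge.prod (P := w) Finset.univ (fun i => (b i : M) * (r i : M) ^ m) (fun _ => (0 : ℤ))
        fun i _ => hβ i m (b i) (hb i)
      simpa using h9
    | zero =>
      left
      rw [zero_mul]
    | add a b _ _ ha hb =>
      rw [add_mul]
      exact ha.add hb
    | smul c a _ ha =>
      rw [smul_mul_assoc, Algebra.smul_def]
      have h9 : Ge w 0 (algebraMap k M c) := by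
        by_cases hc : c = 0
        · left
          rw [hc, map_zero]
        · right
          rw [w.ord_const hc]
      have := h9.mul ha
      simpa using this
  have h9 := (h8 _ h1).mul (hN.pow m)
  rw [h2, h3]
  refine (show Ge w _ _ from ?_)
  have e1 : ((∏ i, (r i : M)) * (Matrix.of fun i j => D i (t j)).det) ^ m * ω E =
      ω E * (∏ i, (r i : M)) ^ m * (Matrix.of fun i j => D i (t j)).det ^ m := by
    ring
  rw [e1]
  refine h9.mono ?_
  rw [zero_add]

/-- the image of a local parameter -/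
theorem Par.map (A B : IntermediateField k M) [hA : IsFF k A] [hB : IsFF k B] {w : Place k M}
    {g : M ≃ₐ[k] M} (hw : ∀ z, w.ord (g z) = w.ord z) (hAB : ∀ z ∈ A, g z ∈ B)
    (hBA : ∀ z ∈ B, g.symm z ∈ A) {t : M} (ht : Par w A t) : Par w B (g t) := by
  obtain ⟨htA, ht0, ht⟩ := ht
  refine ⟨hAB t htA, (_root_.map_ne_zero g).2 ht0, ?_⟩
  rcases ht with ⟨htriv, htr⟩ | ⟨w', f, hw', hf⟩
  · left
    refine ⟨fun z hz => ?_, fun h => htr ?_⟩
    · have h1 := hw (g.symm z)
      rw [AlgEquiv.apply_symm_apply] at h1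
      rw [h1]
      exact htriv _ (hBA z hz)
    · exact (isAlgebraic_algHom_iff (g : M →ₐ[k] M) g.injective).1 h
  · right
    have hB0 : ∃ z : B, w.ord (algebraMap B M z) ≠ 0 := by
      refine ⟨⟨g t, hAB t htA⟩, ?_⟩
      change w.ord (g t) ≠ 0
      rw [hw, hf]
      have := hw'.1
      omega
    obtain ⟨f', w'', hw''⟩ := exists_over (K := B) w hB0
    refine ⟨w'', f', hw'', ?_⟩
    rw [hw, hf]
    -- both indices divide each other
    have h1 : (f' : ℤ) ∣ f := by
      have h2 := hw''.2 ⟨g t, hAB t htA⟩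
      change w.ord (g t) = _ at h2
      rw [hw, hf] at h2
      exact ⟨_, h2⟩
    have h2 : (f : ℤ) ∣ f' := by
      obtain ⟨s, hs0, hs⟩ := w''.surj
      have h3 := hw''.2 s
      rw [hs, mul_one] at h3
      change w.ord (s : M) = _ at h3
      have h4 := hw (g.symm (s : M))
      rw [AlgEquiv.apply_symm_apply, h3] at h4
      have h5 := hw'.2 ⟨g.symm (s : M), hBA _ s.2⟩
      change w.ord (g.symm (s : M)) = _ at h5
      rw [← h4] at h5
      exact ⟨_, h5⟩
    have h3 : (f : ℤ).natAbs = (f' : ℤ).natAbs :=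
      Nat.dvd_antisymm (Int.natAbs_dvd_natAbs.2 h2) (Int.natAbs_dvd_natAbs.2 h1)
    simpa using h3

end

end Pool.Agent.K4H25.GW
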