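import Pool.Agent.K4H25.GW.P1

/-!
Determinants: replacing two coordinates.
-/

set_option autoImplicit false
set_option linter.overlappingInstances false
set_option linter.unusedSectionVars false
set_option linter.unusedVariables false
set_option linter.unusedSimpArgs false
set_option maxHeartbeats 4000000
set_option synthInstance.maxHeartbeats 400000

open Polynomial FF IntermediateField Pool.Agent.W619.PQ Pool.Agent.W619.PL Pool.Agent.W619.TW
  Pool.Agent.W603.LV Pool.Agent.K4H25.GQ Pool.Agent.W619.X Pool.Agent.W619.Y

namespace Pool.Agent.K4H25.GW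

section

variable {k : Type} [Field k] [CharZero k] [IsAlgClosed k] {M : Type} [Field M] [Algebra k M]

theorem ge_const (w : Place k M) (c : k) : Ge w 0 (algebraMap k M c) := by
  by_cases hc : c = 0
  · left
    rw [hc, map_zero]
  · right
    rw [w.ord_const hc]

theorem ge_smul {w : Place k M} {N : ℤ} {z : M} (c : k) (h : Ge w N z) :
    Ge w N (algebraMap k M c * z) := by
  have := (ge_const w c).mul h
  rwa [zero_add] at this

theorem det_ge {n : ℕ} (w : Place k M) (D : Fin n → Derivation k M M)
    (hD : ∀ j, Pres w (D j)) (Y : Fin n → M) (N : Fin n → ℤ) (hY : ∀ l, Ge w (N l) (Y l)) :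
    Ge w (∑ l, N l - 1) (Matrix.of fun i j => D i (Y j)).det := by
  classical
  by_cases h0 : ∀ l, Y l ≠ 0
  · rw [det_dlog D Y h0]
    have h1 := det_log w D hD Y h0
    have h2 := Ge.prod (P := w) Finset.univ Y N fun l _ => hY l
    have h3 := h2.mul h1
    rwa [← sub_eq_add_neg] at h3
  · push Not at h0
    obtain ⟨l, hl⟩ := h0
    left
    refine Matrix.det_eq_zero_of_column_eq_zero l fun i => ?_
    rw [Matrix.of_apply, hl, map_zero]

/-- replacing one coordinate -/
theorem one_col {n : ℕ} (D : Fin n → Derivation k M M) (t : Fin n → M) (p : Fin n)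
    (c : Fin n → k) :
    (Matrix.of fun i j => D i (Function.update t p (∑ l, algebraMap k M (c l) * t l) j)).det =
      algebraMap k M (c p) * (Matrix.of fun i j => D i (t j)).det := by
  classical
  have h1 : ((1 : Matrix (Fin n) (Fin n) M).updateRow p
      (∑ l, (algebraMap k M (c l)) • (1 : Matrix (Fin n) (Fin n) M) l)).det =
      algebraMap k M (c p) := by
    rw [Matrix.det_updateRow_sum, Matrix.det_one, smul_eq_mul, mul_one]
  rw [← h1]
  refine det_factor D _ t _ fun D i => ?_
  by_cases hi : i = p
  · subst hi
    rw [Function.update_self, Matrix.updateRow_self, map_sum]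
    refine Finset.sum_congr rfl fun l _ => ?_
    rw [Derivation.leibniz, Derivation.map_algebraMap, smul_zero, add_zero, smul_eq_mul]
    congr 1
    rw [Finset.sum_apply, Finset.sum_eq_single l]
    · rw [Pi.smul_apply, Matrix.one_apply_eq, smul_eq_mul, mul_one]
    · intro b _ hb
      rw [Pi.smul_apply, Matrix.one_apply_ne hb, smul_zero]
    · intro h
      exact absurd (Finset.mem_univ l) h
  · rw [Function.update_of_ne hi, Matrix.updateRow_ne hi, Finset.sum_eq_single i]
    · rw [Matrix.one_apply_eq, one_mul]
    · intro b _ hb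
      rw [Matrix.one_apply_ne (Ne.symm hb), zero_mul]
    · intro h
      exact absurd (Finset.mem_univ i) h

/-- **Replacing two coordinates.** -/
theorem two_cols {n : ℕ} (w : Place k M) (D : Fin n → Derivation k M M)
    (hD : ∀ j, Pres w (D j)) (t : Fin n → M) {p q : Fin n} (hpq : p ≠ q) (c c' : Fin n → k)
    (hcp : c p = 1) (hne : c' q - c' p * c q ≠ 0) {a b : ℤ}
    (ha : Ge w a (∑ l, algebraMap k M (c l) * t l))
    (hb : Ge w b (∑ l, algebraMap k M (c' l) * t l)) :
    Ge w (a + b + ∑ l ∈ (Finset.univ.erase p).erase q, w.ord (t l) - 1)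
      (Matrix.of fun i j => D i (t j)).det := by
  classical
  obtain ⟨u, hu⟩ : ∃ u, u = ∑ l, algebraMap k M (c l) * t l := ⟨_, rfl⟩
  obtain ⟨u', hu'⟩ : ∃ u', u' = ∑ l, algebraMap k M (c' l) * t l := ⟨_, rfl⟩
  rw [← hu] at ha
  rw [← hu'] at hb
  obtain ⟨t', ht'⟩ : ∃ t', t' = Function.update t p u := ⟨_, rfl⟩
  obtain ⟨d, hd⟩ : ∃ d : Fin n → k, d = fun l => if l = p then c' p else c' l - c' p * c l :=
    ⟨_, rfl⟩
  have h1 : ∑ l, algebraMap k M (d l) * t' l = u' := by
    have h2 : ∀ l, algebraMap k M (d l) * t' l = algebraMap k M (c' l) * t l +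
        (if l = p then algebraMap k M (c' p) * u else 0) -
        algebraMap k M (c' p) * (algebraMap k M (c l) * t l) := by
      intro l
      rw [hd, ht']
      beta_reduce
      by_cases hl : l = p
      · subst hl
        rw [if_pos rfl, if_pos rfl, Function.update_self, hcp, map_one]
        ring
      · rw [if_neg hl, if_neg hl, Function.update_of_ne hl, map_sub, map_mul]
        ring
    rw [Finset.sum_congr rfl fun l _ => h2 l, Finset.sum_sub_distrib, Finset.sum_add_distrib,
      ← hu', Finset.sum_ite_eq' Finset.univ p, if_pos (Finset.mem_univ p), ← Finset.mul_sum, ← hu]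
    ring
  have h3 := one_col D t p c
  rw [← hu, ← ht', hcp, map_one, one_mul] at h3
  have h4 := one_col D t' q d
  rw [h1, h3] at h4
  have hdq : d q = c' q - c' p * c q := by
    rw [hd]
    beta_reduce
    rw [if_neg (Ne.symm hpq)]
  rw [hdq] at h4
  have h5 : (Matrix.of fun i j => D i (t j)).det =
      algebraMap k M (c' q - c' p * c q)⁻¹ *
        (Matrix.of fun i j => D i (Function.update t' q u' j)).det := by
    rw [h4, ← mul_assoc, ← map_mul, inv_mul_cancel₀ hne, map_one, one_mul]
  rw [h5]
  refine ge_smul _ ?_
  have h6 := det_ge w D hD (Function.update t' q u')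
    (Function.update (Function.update (fun l => w.ord (t l)) p a) q b) (by
    intro l
    by_cases hl : l = q
    · subst hl
      rw [Function.update_self, Function.update_self]
      exact hb
    · rw [Function.update_of_ne hl, Function.update_of_ne hl, ht']
      by_cases hl' : l = p
      · subst hl'
        rw [Function.update_self, Function.update_self]
        exact ha
      · rw [Function.update_of_ne hl', Function.update_of_ne hl']
        exact Or.inr le_rfl)
  refine h6.mono (le_of_eq ?_)
  congr 1
  rw [← Finset.add_sum_erase Finset.univ _ (Finset.mem_univ p),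
    ← Finset.add_sum_erase (Finset.univ.erase p) _ (Finset.mem_erase.2
      ⟨Ne.symm hpq, Finset.mem_univ q⟩), Function.update_of_ne hpq, Function.update_self,
    Function.update_self, add_assoc]
  congr 2
  refine Finset.sum_congr rfl fun l hl => ?_
  obtain ⟨h7, h8⟩ := Finset.mem_erase.1 hl
  rw [Function.update_of_ne h7, Function.update_of_ne (Finset.ne_of_mem_erase h8)]

end

end Pool.Agent.K4H25.GW
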