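import Pool.Agent.K4H25.GW.P2

/-!
Eigenfunctions of the generator of the inertia group.
-/

set_option autoImplicit false
set_option linter.overlappingInstances false
set_option linter.unusedSectionVars false
set_option linter.unusedVariables false
set_option linter.unusedSimpArgs false
set_option maxHeartbeats 4000000
set_option synthInstance.maxHeartbeats 400000

open Polynomial FF IntermediateField Pool.Agent.W619.PQ Pool.Agent.W619.PL Pool.Agent.W619.TW
  Pool.Agent.W603.LV Pool.Agent.K4H25.GQ Pool.Agent.W619.X Pool.Agent.W619.Y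

namespace Pool.Agent.K4H25.GW

section

variable {k : Type} [Field k] [CharZero k] [IsAlgClosed k] {M : Type} [Field M] [Algebra k M]

/-- The automorphism `g` acts as a rotation by `ζ` at the place `w`. -/
structure Rot (w : Place k M) (g : M ≃ₐ[k] M) (e : ℕ) (ζ : k) : Prop where
  prim : IsPrimitiveRoot ζ e
  pos : 0 < e
  pow : g ^ e = 1
  inv : ∀ z, w.ord (g z) = w.ord z
  rot : ∀ z : M, z ≠ 0 → Ge w (w.ord z + 1) (g z - algebraMap k M (ζ ^ w.ord z) * z)

variable {w : Place k M} {g : M ≃ₐ[k] M} {e : ℕ} {ζ : k}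

theorem Rot.ne (h : Rot w g e ζ) : ζ ≠ 0 := h.prim.ne_zero h.pos.ne'

theorem Rot.ordp (h : Rot w g e ζ) (j : ℕ) (z : M) : w.ord ((g ^ j) z) = w.ord z := by
  induction j with
  | zero => rfl
  | succ j ih =>
    rw [pow_succ']
    change w.ord (g ((g ^ j) z)) = _
    rw [h.inv, ih]

theorem Rot.ge (h : Rot w g e ζ) {N : ℤ} {z : M} (hz : Ge w N z) (j : ℕ) :
    Ge w N ((g ^ j) z) := by
  rcases hz with hz | hz
  · left
    rw [hz, map_zero]
  · right
    rw [h.ordp]
    exact hz

theorem Rot.rot_pow (h : Rot w g e ζ) {z : M} (hz : z ≠ 0) (j : ℕ) :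
    Ge w (w.ord z + 1) ((g ^ j) z - algebraMap k M ((ζ ^ w.ord z) ^ j) * z) := by
  induction j with
  | zero =>
    left
    rw [pow_zero, pow_zero, map_one, one_mul]
    exact sub_self z
  | succ j ih =>
    have h1 : (g ^ (j + 1)) z - algebraMap k M ((ζ ^ w.ord z) ^ (j + 1)) * z =
        (g ^ 1) ((g ^ j) z - algebraMap k M ((ζ ^ w.ord z) ^ j) * z) +
        algebraMap k M ((ζ ^ w.ord z) ^ j) * (g z - algebraMap k M (ζ ^ w.ord z) * z) := by
      rw [pow_one, map_sub, map_mul, AlgEquiv.commutes, pow_succ' g, pow_succ (ζ ^ w.ord z),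
        map_mul]
      change g ((g ^ j) z) - _ = _
      ring
    rw [h1]
    exact (h.ge ih 1).add (ge_smul _ (h.rot z hz))

theorem Rot.eig (h : Rot w g e ζ) {u : M} (b : ℕ) (hb : b < e)
    (hu : g u = algebraMap k M (ζ ^ b) * u) (h0 : Ge w 0 u) : Ge w b u := by
  by_cases hu0 : u = 0
  · exact Or.inl hu0
  right
  have h1 := h0.resolve_left hu0
  obtain ⟨m, hm⟩ := Int.eq_ofNat_of_zero_le h1
  have h2 := h.rot u hu0
  rw [hu, ← sub_mul, ← map_sub, hm] at h2
  have h3 : ζ ^ b = ζ ^ m := by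
    by_contra hne
    have h4 : ζ ^ b - ζ ^ (m : ℤ) ≠ 0 := by
      rw [zpow_natCast]
      exact sub_ne_zero.2 hne
    rcases h2 with h2 | h2
    · exact mul_ne_zero ((_root_.map_ne_zero _).2 h4) hu0 h2
    · rw [w.ord_mul ((_root_.map_ne_zero _).2 h4) hu0, w.ord_const h4, hm] at h2
      omega
  rw [hm]
  by_contra hcon
  push Not at hcon
  have h5 : m < b := by exact_mod_cast hcon
  have h6 := h.prim.pow_inj hb (h5.trans hb) h3
  omega

/-- an eigenfunction on a curve -/
theorem Rot.param (h : Rot w g e ζ) (A : IntermediateField k M) [hA : IsFF k A] {d e' : ℕ}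
    (hde : d * e' = e) (hst : ∀ z ∈ A, (g ^ d) z ∈ A) {t : M} (ht : Par w A t) :
    ∃ T, Par w A T ∧ w.ord T = w.ord t ∧
      (g ^ d) T = algebraMap k M ((ζ ^ w.ord t) ^ d) * T := by
  have he' : 0 < e' := by
    rcases Nat.eq_zero_or_pos e' with h0 | h0
    · rw [h0, mul_zero] at hde
      have := h.pos
      omega
    · exact h0
  obtain ⟨htA, ht0, htp⟩ := ht
  obtain ⟨c, hc⟩ : ∃ c, c = ((ζ ^ w.ord t) ^ d)⁻¹ := ⟨_, rfl⟩
  have hc0 : (ζ ^ w.ord t) ^ d ≠ 0 := pow_ne_zero _ (zpow_ne_zero _ h.ne)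
  have hce : c ^ e' = 1 := by
    rw [hc, inv_pow, ← pow_mul, hde, ← zpow_natCast, ← zpow_mul, mul_comm, zpow_mul, zpow_natCast,
      h.prim.pow_eq_one, one_zpow, inv_one]
  have hge : (g ^ d) ^ e' = 1 := by rw [← pow_mul, hde, h.pow]
  obtain ⟨T, hT⟩ : ∃ T, T = ∑ j ∈ Finset.range e', algebraMap k M (c ^ j) * ((g ^ d) ^ j) t :=
    ⟨_, rfl⟩
  have hTA : T ∈ A := by
    rw [hT]
    have hj : ∀ j : ℕ, ((g ^ d) ^ j) t ∈ A := by
      intro j
      induction j with
      | zero => exact htA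
      | succ j ih =>
        rw [pow_succ']
        exact hst _ ih
    exact sum_mem fun j _ => mul_mem (A.algebraMap_mem _) (hj j)
  have hlead : Ge w (w.ord t + 1) (T - (e' : M) * t) := by
    have h1 : T - (e' : M) * t = ∑ j ∈ Finset.range e',
        algebraMap k M (c ^ j) * (((g ^ d) ^ j) t - algebraMap k M (((ζ ^ w.ord t) ^ d) ^ j) * t) := by
      simp only [mul_sub, Finset.sum_sub_distrib]
      rw [← hT]
      congr 1
      have h2 : ∀ j ∈ Finset.range e', algebraMap k M (c ^ j) *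
          (algebraMap k M (((ζ ^ w.ord t) ^ d) ^ j) * t) = t := by
        intro j _
        rw [← mul_assoc, ← map_mul, ← mul_pow, hc, inv_mul_cancel₀ hc0, one_pow, map_one, one_mul]
      rw [Finset.sum_congr rfl h2, Finset.sum_const, Finset.card_range, nsmul_eq_mul]
    rw [h1]
    refine Ge.sum _ _ fun j _ => ge_smul _ ?_
    have h3 := h.rot_pow ht0 (d * j)
    rw [pow_mul, pow_mul] at h3
    exact h3
  have hM0 : (e' : M) = algebraMap k M (e' : k) := by rw [map_natCast]
  have hk0 : (e' : k) ≠ 0 := by exact_mod_cast he'.ne'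
  have hord : w.ord ((e' : M) * t) = w.ord t := by
    rw [hM0, w.ord_mul ((_root_.map_ne_zero _).2 hk0) ht0, w.ord_const hk0, zero_add]
  have he0 : (e' : M) * t ≠ 0 := by
    rw [hM0]
    exact mul_ne_zero ((_root_.map_ne_zero _).2 hk0) ht0
  have hT0 : T ≠ 0 := by
    intro h0
    rw [h0, zero_sub] at hlead
    rcases hlead with h1 | h1
    · exact he0 (neg_eq_zero.1 h1)
    · rw [w.ord_neg, hord] at h1
      omega
  have hTord : w.ord T = w.ord t := by
    have h1 : Ge w (w.ord t) T := by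
      have h2 : T = (T - (e' : M) * t) + (e' : M) * t := by ring
      rw [h2]
      refine (hlead.mono (by omega)).add (Or.inr ?_)
      rw [hord]
    have h2 := h1.resolve_left hT0
    by_contra hne
    have h3 : Ge w (w.ord t + 1) ((e' : M) * t) := by
      have h4 : (e' : M) * t = T - (T - (e' : M) * t) := by ring
      rw [h4]
      refine Ge.sub (P := w) (Or.inr ?_) hlead
      omega
    rcases h3 with h3 | h3
    · exact he0 h3
    · rw [hord] at h3
      omega
  refine ⟨T, ⟨hTA, hT0, ?_⟩, hTord, ?_⟩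
  · rcases htp with ⟨h1, h2⟩ | ⟨w', f, h1, h2⟩
    · left
      refine ⟨h1, fun hT1 => h2 ?_⟩
      have h3 : T - (e' : M) * t = 0 := by
        rcases hlead with h3 | h3
        · exact h3
        · exfalso
          have h4 : T - (e' : M) * t ∈ A := sub_mem hTA (mul_mem (by
            rw [hM0]
            exact A.algebraMap_mem _) htA)
          rw [h1 _ h4, h1 t htA] at h3
          omega
      have h4 : t = algebraMap k M (e' : k)⁻¹ * T := by
        rw [sub_eq_zero.1 h3, hM0, ← mul_assoc, ← map_mul, inv_mul_cancel₀ hk0, map_one, one_mul]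
      rw [h4]
      exact (isAlgebraic_algebraMap _).mul hT1
    · right
      exact ⟨w', f, h1, by rw [hTord, h2]⟩
  · have h1 : (g ^ d) T = ∑ j ∈ Finset.range e', algebraMap k M (c ^ j) *
        ((g ^ d) ^ (j + 1)) t := by
      rw [hT, map_sum]
      refine Finset.sum_congr rfl fun j _ => ?_
      rw [map_mul, AlgEquiv.commutes, pow_succ' (g ^ d)]
      rfl
    have h2 : ∀ j, algebraMap k M (c ^ j) * ((g ^ d) ^ (j + 1)) t =
        algebraMap k M ((ζ ^ w.ord t) ^ d) *
          (algebraMap k M (c ^ (j + 1)) * ((g ^ d) ^ (j + 1)) t) := by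
      intro j
      rw [← mul_assoc, ← map_mul, pow_succ' c, ← mul_assoc, hc, mul_inv_cancel₀ hc0, one_mul]
    rw [h1, Finset.sum_congr rfl fun j _ => h2 j, ← Finset.mul_sum]
    congr 1
    rw [hT, ← sub_eq_zero, ← Finset.sum_sub_distrib,
      Finset.sum_range_sub (fun j => algebraMap k M (c ^ j) * ((g ^ d) ^ j) t), hge, hce, pow_zero,
      pow_zero, sub_self]

/-- the eigenfunctions given by an orbit -/
theorem Rot.orbit (h : Rot w g e ζ) {d e' : ℕ} (hde : d * e' = e) {T : M} (hT : Ge w 0 T)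
    (hTd : (g ^ d) T = algebraMap k M ((ζ ^ w.ord T) ^ d) * T) {f : ℕ} (hf : w.ord T = f)
    (s : ℕ) (hs : s < d) :
    Ge w ((f % e' + s * e' : ℕ) : ℤ) (∑ j ∈ Finset.range d,
      algebraMap k M (((ζ ^ (f % e' + s * e'))⁻¹) ^ j) * (g ^ j) T) := by
  have he' : 0 < e' := by
    rcases Nat.eq_zero_or_pos e' with h0 | h0
    · rw [h0, mul_zero] at hde
      have := h.pos
      omega
    · exact h0
  obtain ⟨b, hb⟩ : ∃ b, b = f % e' + s * e' := ⟨_, rfl⟩
  rw [← hb]
  have hbe : b < e := by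
    have h1 := Nat.mod_lt f he'
    have h2 : (s + 1) * e' ≤ d * e' := Nat.mul_le_mul_right _ hs
    rw [hb, ← hde]
    rw [Nat.add_mul, one_mul] at h2
    omega
  have hb0 : ζ ^ b ≠ 0 := pow_ne_zero _ h.ne
  refine h.eig b hbe ?_ ?_
  · rw [map_sum]
    have h2 : ∀ j, g (algebraMap k M (((ζ ^ b)⁻¹) ^ j) * (g ^ j) T) = algebraMap k M (ζ ^ b) *
        (algebraMap k M (((ζ ^ b)⁻¹) ^ (j + 1)) * (g ^ (j + 1)) T) := by
      intro j
      rw [map_mul, AlgEquiv.commutes, ← mul_assoc, ← map_mul, pow_succ' ((ζ ^ b)⁻¹), ← mul_assoc,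
        mul_inv_cancel₀ hb0, one_mul, pow_succ' g]
      rfl
    rw [Finset.sum_congr rfl fun j _ => h2 j, ← Finset.mul_sum]
    congr 1
    rw [← sub_eq_zero, ← Finset.sum_sub_distrib,
      Finset.sum_range_sub (fun j => algebraMap k M (((ζ ^ b)⁻¹) ^ j) * (g ^ j) T), hTd, pow_zero,
      pow_zero, map_one, one_mul, ← mul_assoc, ← map_mul, hf, zpow_natCast]
    have h3 : ((ζ ^ b)⁻¹) ^ d * (ζ ^ f) ^ d = 1 := by
      have h4 : (ζ ^ b) ^ d = (ζ ^ f) ^ d := by
        rw [← pow_mul, ← pow_mul]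
        have h5 := Nat.div_add_mod f e'
        have h6 : b * d + (f / e') * e = f * d + s * e := by
          rw [hb, ← hde]
          conv_rhs => rw [← h5]
          ring
        have h7 : ζ ^ (b * d) * ζ ^ ((f / e') * e) = ζ ^ (f * d) * ζ ^ (s * e) := by
          rw [← pow_add, ← pow_add, h6]
        rw [mul_comm (f / e') e, mul_comm s e, pow_mul ζ e, pow_mul ζ e, h.prim.pow_eq_one, one_pow,
          one_pow, mul_one, mul_one] at h7
        exact h7
      rw [inv_pow, h4, inv_mul_cancel₀ (pow_ne_zero _ (pow_ne_zero _ h.ne))]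
    rw [h3, map_one, one_mul]
    change T - T = 0
    rw [sub_self]
  · exact Ge.sum _ _ fun j _ => ge_smul _ (h.ge hT j)

end

end Pool.Agent.K4H25.GW
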