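import Pool.Agent.K4H25.GW.P3

/-!
Automorphisms which permute the curves: local parameters adapted to an orbit.
-/

set_option autoImplicit false
set_option linter.overlappingInstances false
set_option linter.unusedSectionVars false
set_option linter.unusedVariables false
set_option linter.unusedSimpArgs false
set_option maxHeartbeats 4000000
set_option synthInstance.maxHeartbeats 400000

open Polynomial FF IntermediateField Pool.Agent.W619.PQ Pool.Agent.W619.PL Pool.Agent.W619.TW
  Pool.Agent.W603.LV Pool.Agent.K4H25.GQ Pool.Agent.W619.X Pool.Agent.W619.Y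

namespace Pool.Agent.K4H25.GW

section

variable {k : Type} [Field k] [CharZero k] [IsAlgClosed k] {M : Type} [Field M] [Algebra k M]
  {n : ℕ} {w : Place k M} {g : M ≃ₐ[k] M} {e : ℕ} {ζ : k}

theorem iter_mem {C : Fin n → IntermediateField k M} {σ : Fin n → Fin n}
    (hσ : ∀ i z, z ∈ C i ↔ g z ∈ C (σ i)) (j : ℕ) (i : Fin n) (z : M) :
    z ∈ C i ↔ (g ^ j) z ∈ C (σ^[j] i) := by
  induction j with
  | zero => exact Iff.rfl
  | succ j ih =>
    rw [ih, hσ, Function.iterate_succ_apply', pow_succ']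
    exact Iff.rfl

theorem iter_per {C : Fin n → IntermediateField k M} (hC : Function.Injective C)
    {σ : Fin n → Fin n} (hσ : ∀ i z, z ∈ C i ↔ g z ∈ C (σ i)) (hge : g ^ e = 1) (i : Fin n) :
    σ^[e] i = i := by
  apply hC
  apply SetLike.ext
  intro z
  rw [iter_mem hσ e i z, hge]
  exact Iff.rfl

theorem orb_symm {σ : Fin n → Fin n} (he : 0 < e) (hper : ∀ i, σ^[e] i = i) {i i' l : Fin n}
    (h : ∃ j, σ^[j] i = l) (h' : ∃ j, σ^[j] i' = l) : ∃ j, σ^[j] i = i' := by
  obtain ⟨j, hj⟩ := h
  obtain ⟨j', hj'⟩ := h'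
  have h1 : ∀ N, σ^[e * N] i' = i' := by
    intro N
    induction N with
    | zero => rfl
    | succ N ih => rw [Nat.mul_succ, Function.iterate_add_apply, hper, ih]
  refine ⟨(e * j' - j') + j, ?_⟩
  rw [Function.iterate_add_apply, hj, ← hj', ← Function.iterate_add_apply]
  have h2 : e * j' - j' + j' = e * j' := by
    have : j' ≤ e * j' := Nat.le_mul_of_pos_left _ he
    omega
  rw [h2, h1]

open scoped Classical in
/-- **Local parameters adapted to an orbit.** -/
theorem Rot.cyc (h : Rot w g e ζ) {C : Fin n → IntermediateField k M} [∀ i, IsFF k (C i)]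
    (hC : Function.Injective C) {σ : Fin n → Fin n} (hσ : ∀ i z, z ∈ C i ↔ g z ∈ C (σ i))
    {t : Fin n → M} (ht : ∀ l, Par w (C l) (t l)) (i : Fin n) :
    ∃ t' : Fin n → M, (∀ l, Par w (C l) (t' l)) ∧
      (∀ l, (¬ ∃ j, σ^[j] i = l) → t' l = t l) ∧ ∃ e' f : ℕ, 0 < e' ∧
        Function.minimalPeriod σ i * e' = e ∧ w.ord (t i) = f ∧
        ∀ s < Function.minimalPeriod σ i, ∃ c : Fin n → k,
          (∀ l, (¬ ∃ j, σ^[j] i = l) → c l = 0) ∧ c i = 1 ∧
          (2 ≤ Function.minimalPeriod σ i → c (σ i) = (ζ ^ (f % e' + s * e'))⁻¹) ∧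
          Ge w ((f % e' + s * e' : ℕ) : ℤ) (∑ l, algebraMap k M (c l) * t' l) := by
  have hper := iter_per hC hσ h.pow
  obtain ⟨d, hd⟩ : ∃ d, d = Function.minimalPeriod σ i := ⟨_, rfl⟩
  have hdvd : d ∣ e := by
    rw [hd]
    exact Function.IsPeriodicPt.minimalPeriod_dvd (hper i)
  have hd0 : 0 < d := Nat.pos_of_dvd_of_pos hdvd h.pos
  obtain ⟨e', he'⟩ := hdvd
  have he'0 : 0 < e' := by
    rcases Nat.eq_zero_or_pos e' with h0 | h0
    · rw [h0, mul_zero] at he'
      have := h.pos
      omega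
    · exact h0
  have hdi : σ^[d] i = i := by
    rw [hd]
    exact Function.iterate_minimalPeriod
  obtain ⟨T, hT1, hT2, hT3⟩ := h.param (C i) he'.symm (fun z hz => by
    have h1 := (iter_mem hσ d i z).1 hz
    rwa [hdi] at h1) (ht i)
  obtain ⟨f, hf⟩ := Int.eq_ofNat_of_zero_le (ht i).nonneg
  have hparj : ∀ j : ℕ, Par w (C (σ^[j] i)) ((g ^ j) T) := by
    intro j
    induction j with
    | zero => exact hT1
    | succ j ih =>
      rw [Function.iterate_succ_apply', pow_succ']
      refine Par.map (C (σ^[j] i)) (C (σ (σ^[j] i))) h.inv (fun z hz => (hσ _ _).1 hz)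
        (fun z hz => (hσ _ _).2 ?_) ih
      rw [AlgEquiv.apply_symm_apply]
      exact hz
  -- positions
  let pos : Fin n → ℕ := fun l => if h : ∃ j, σ^[j] i = l then Nat.find h else 0
  have hpos1 : ∀ l, (∃ j, σ^[j] i = l) → σ^[pos l] i = l ∧ pos l < d := by
    intro l hl
    have h1 : pos l = Nat.find hl := dif_pos hl
    refine ⟨by rw [h1]; exact Nat.find_spec hl, ?_⟩
    rw [h1]
    obtain ⟨j, hj⟩ := hl
    refine lt_of_le_of_lt (Nat.find_min' ⟨j, hj⟩ (m := j % d) ?_) (Nat.mod_lt _ hd0)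
    rw [hd, Function.iterate_mod_minimalPeriod_eq]
    exact hj
  have hpos2 : ∀ j, j < d → pos (σ^[j] i) = j := by
    intro j hj
    obtain ⟨h1, h2⟩ := hpos1 _ ⟨j, rfl⟩
    rw [hd] at h2 hj
    exact Function.iterate_injOn_Iio_minimalPeriod h2 hj h1
  refine ⟨fun l => if ∃ j, σ^[j] i = l then (g ^ pos l) T else t l, fun l => ?_, fun l hl => ?_,
    e', f, he'0, by rw [← hd]; exact he'.symm, hf, fun s hs => ?_⟩
  · beta_reduce
    split_ifs with hl
    · have h1 := hparj (pos l)
      rw [(hpos1 l hl).1] at h1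
      exact h1
    · exact ht l
  · beta_reduce
    rw [if_neg hl]
  · rw [← hd] at hs
    refine ⟨fun l => if ∃ j, σ^[j] i = l then ((ζ ^ (f % e' + s * e'))⁻¹) ^ pos l else 0,
      fun l hl => if_neg hl, ?_, fun h2 => ?_, ?_⟩
    · beta_reduce
      have h1 := hpos2 0 hd0
      rw [Function.iterate_zero_apply] at h1
      rw [if_pos ⟨0, rfl⟩, h1, pow_zero]
    · beta_reduce
      rw [← hd] at h2
      have h1 := hpos2 1 (by omega)
      rw [Function.iterate_one] at h1
      rw [if_pos ⟨1, rfl⟩, h1, pow_one]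
    · have h1 := h.orbit he'.symm (T := T) (Or.inr hT1.nonneg) (by rw [hT3, hT2]) (f := f)
        (by rw [hT2, hf]) s hs
      have h2 : ∑ l, algebraMap k M ((fun l => if ∃ j, σ^[j] i = l then
          ((ζ ^ (f % e' + s * e'))⁻¹) ^ pos l else 0) l) *
          (if ∃ j, σ^[j] i = l then (g ^ pos l) T else t l) = ∑ j ∈ Finset.range d,
          algebraMap k M (((ζ ^ (f % e' + s * e'))⁻¹) ^ j) * (g ^ j) T := by
        rw [← Finset.sum_filter_add_sum_filter_not Finset.univ (fun l => ∃ j, σ^[j] i = l)]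
        rw [Finset.sum_eq_zero (s := Finset.univ.filter fun l => ¬ ∃ j, σ^[j] i = l) (by
          intro l hl
          rw [Finset.mem_filter] at hl
          beta_reduce
          rw [if_neg hl.2, map_zero, zero_mul]), add_zero]
        refine Finset.sum_nbij' pos (fun j => σ^[j] i) ?_ ?_ ?_ ?_ ?_
        · intro l hl
          rw [Finset.mem_range]
          exact (hpos1 l (Finset.mem_filter.1 hl).2).2
        · intro j _
          exact Finset.mem_filter.2 ⟨Finset.mem_univ _, j, rfl⟩
        · intro l hl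
          exact (hpos1 l (Finset.mem_filter.1 hl).2).1
        · intro j hj
          exact hpos2 j (Finset.mem_range.1 hj)
        · intro l hl
          have h3 := (Finset.mem_filter.1 hl).2
          beta_reduce
          rw [if_pos h3, if_pos h3]
      beta_reduce at h2 ⊢
      rw [h2]
      exact h1

end

end Pool.Agent.K4H25.GW
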