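import Pool.Agent.K4H25.GW.P4

/-!
Automorphisms which permute the curves: the orders of the regular forms.
-/

set_option autoImplicit false
set_option linter.overlappingInstances false
set_option linter.unusedSectionVars false
set_option linter.unusedVariables false
set_option linter.unusedSimpArgs false
set_option maxHeartbeats 4000000
set_option synthInstance.maxHeartbeats 400000

open Polynomial FF IntermediateField Pool.Agent.W619.PQ Pool.Agent.W619.PL Pool.Agent.W619.TW
  Pool.Agent.W603.LV Pool.Agent.K4H25.GQ Pool.Agent.W619.X Pool.Agent.W619.Y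

namespace Pool.Agent.K4H25.GW

section

variable {k : Type} [Field k] [CharZero k] [IsAlgClosed k] {M : Type} [Field M] [Algebra k M]
  {n : ℕ} {w : Place k M} {g : M ≃ₐ[k] M} {e : ℕ} {ζ : k}

theorem period_ge {σ : Fin n → Fin n} (he : 0 < e) (hper : ∀ i, σ^[e] i = i) {i : Fin n}
    (hi : σ i ≠ i) : 2 ≤ Function.minimalPeriod σ i := by
  have h0 : Function.minimalPeriod σ i ≠ 0 :=
    (Function.minimalPeriod_pos_of_mem_periodicPts ⟨e, he, hper i⟩).ne'
  have h1 : Function.minimalPeriod σ i ≠ 1 := fun h =>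
    hi (Function.minimalPeriod_eq_one_iff_isFixedPt.1 h)
  omega

theorem Rot.pow_ne (h : Rot w g e ζ) {b b' : ℕ} (hb : b < e) (hb' : b' < e) (hne : b ≠ b') :
    (ζ ^ b)⁻¹ ≠ (ζ ^ b')⁻¹ := fun h1 => hne (h.prim.pow_inj hb hb' (inv_injective h1))

theorem bound_lt {d e' f s : ℕ} (he' : 0 < e') (hs : s < d) : f % e' + s * e' < d * e' := by
  have h1 := Nat.mod_lt f he'
  have h2 : (s + 1) * e' ≤ d * e' := Nat.mul_le_mul_right _ hs
  rw [Nat.add_mul, one_mul] at h2
  omega

/-- **The determinant**, if the permutation is not the identity and not a transposition. -/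
theorem Rot.perm_det (h : Rot w g e ζ) {C : Fin n → IntermediateField k M} [∀ i, IsFF k (C i)]
    (hC : Function.Injective C) {σ : Fin n → Fin n} (hσ : ∀ i z, z ∈ C i ↔ g z ∈ C (σ i))
    {i : Fin n} (hi : σ i ≠ i)
    (htr : ¬ (σ (σ i) = i ∧ ∀ l, l ≠ i → l ≠ σ i → σ l = l)) :
    ∃ t : Fin n → M, (∀ l, Par w (C l) (t l)) ∧ ∀ D : Fin n → Derivation k M M,
      (∀ j, Pres w (D j)) → Ge w ((e : ℤ) - 1) (Matrix.of fun i j => D i (t j)).det := by
  classical
  have hper := iter_per hC hσ h.pow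
  choose t0 ht0 using fun l => exists_par (C l) w
  by_cases hA : ∃ i, 3 ≤ Function.minimalPeriod σ i
  · -- a cycle of length at least three
    obtain ⟨i, hi3⟩ := hA
    have hii : i ≠ σ i := by
      intro h1
      have h2 := Function.minimalPeriod_eq_one_iff_isFixedPt.2 (show Function.IsFixedPt σ i from
        h1.symm)
      omega
    obtain ⟨t, ht, -, e', f, he', hde, hf, hc⟩ := h.cyc hC hσ ht0 i
    obtain ⟨d, hd⟩ : ∃ d, d = Function.minimalPeriod σ i := ⟨_, rfl⟩
    rw [← hd] at hi3 hde hc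
    obtain ⟨c, -, hc1, hc2, hc3⟩ := hc (d - 1) (by omega)
    obtain ⟨c', -, hc1', hc2', hc3'⟩ := hc (d - 2) (by omega)
    refine ⟨t, ht, fun D hD => ?_⟩
    have h1 := two_cols w D hD t hii c c' hc1 (by
      rw [hc2 (by omega), hc2' (by omega), hc1', one_mul]
      refine sub_ne_zero.2 (h.pow_ne ?_ ?_ ?_)
      · rw [← hde]
        exact bound_lt he' (by omega)
      · rw [← hde]
        exact bound_lt he' (by omega)
      · intro h2
        have h3 : (d - 2) * e' = (d - 1) * e' := by omega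
        have h4 := Nat.eq_of_mul_eq_mul_right he' h3
        omega) hc3 hc3'
    refine h1.mono ?_
    have h2 : 0 ≤ ∑ l ∈ (Finset.univ.erase i).erase (σ i), w.ord (t l) :=
      Finset.sum_nonneg fun l _ => (ht l).nonneg
    obtain ⟨d', rfl⟩ : ∃ d', d = d' + 3 := ⟨d - 3, by omega⟩
    have h3 : e ≤ (f % e' + (d' + 3 - 1) * e') + (f % e' + (d' + 3 - 2) * e') := by
      have e1 : d' + 3 - 1 = d' + 2 := by omega
      have e2 : d' + 3 - 2 = d' + 1 := by omega
      rw [e1, e2, ← hde]
      have e3 : (d' + 2) * e' + (d' + 1) * e' = (d' + 3) * e' + d' * e' := by ring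
      have e4 : 0 ≤ d' * e' := Nat.zero_le _
      omega
    have h4 : (e : ℤ) ≤ ((f % e' + (d' + 3 - 1) * e' : ℕ) : ℤ) +
        ((f % e' + (d' + 3 - 2) * e' : ℕ) : ℤ) := by exact_mod_cast h3
    omega
  · -- two cycles of length two
    push Not at hA
    have hp2 : ∀ l, σ l ≠ l → Function.minimalPeriod σ l = 2 := fun l hl => by
      have h1 := period_ge h.pos hper hl
      have h2 := hA l
      omega
    have hσ2 : ∀ l, σ l ≠ l → σ (σ l) = l := by
      intro l hl
      have h1 := Function.iterate_minimalPeriod (f := σ) (x := l)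
      rw [hp2 l hl] at h1
      exact h1
    have hi' : ∃ i', i' ≠ i ∧ i' ≠ σ i ∧ σ i' ≠ i' := by
      by_contra hcon
      push Not at hcon
      exact htr ⟨hσ2 i hi, fun l h1 h2 => hcon l h1 h2⟩
    obtain ⟨i', hi1, hi2, hi3⟩ := hi'
    have horb : ∀ j, σ^[j] i = i ∨ σ^[j] i = σ i := by
      intro j
      induction j with
      | zero => exact Or.inl rfl
      | succ j ih =>
        rw [Function.iterate_succ_apply']
        rcases ih with h1 | h1
        · exact Or.inr (by rw [h1])
        · exact Or.inl (by rw [h1, hσ2 i hi])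
    have hnot : ¬ ∃ j, σ^[j] i = i' := by
      rintro ⟨j, hj⟩
      rcases horb j with h1 | h1
      · exact hi1 (by rw [← hj, h1])
      · exact hi2 (by rw [← hj, h1])
    obtain ⟨t, ht, -, e1, f1, he1, hde1, hf1, hc⟩ := h.cyc hC hσ ht0 i
    obtain ⟨t', ht', htt, e2, f2, he2, hde2, hf2, hc'⟩ := h.cyc hC hσ ht i'
    rw [hp2 i hi] at hde1 hc
    rw [hp2 i' hi3] at hde2 hc'
    obtain ⟨c, hcz, hc1, -, hc3⟩ := hc 1 (by omega)
    obtain ⟨c', hcz', hc1', -, hc3'⟩ := hc' 1 (by omega)
    have hnot' : ¬ ∃ j, σ^[j] i' = i := fun h1 => hnot (orb_symm h.pos hper ⟨0, rfl⟩ h1)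
    have hsame : ∑ l, algebraMap k M (c l) * t l = ∑ l, algebraMap k M (c l) * t' l := by
      refine Finset.sum_congr rfl fun l _ => ?_
      by_cases hl : ∃ j, σ^[j] i = l
      · rw [htt l fun h1 => hnot (orb_symm h.pos hper hl h1)]
      · rw [hcz l hl, map_zero, zero_mul, zero_mul]
    rw [hsame] at hc3
    refine ⟨t', ht', fun D hD => ?_⟩
    have h1 := two_cols w D hD t' (Ne.symm hi1) c c' hc1 (by
      rw [hc1', hcz' i hnot', zero_mul, sub_zero]
      exact one_ne_zero) hc3 hc3'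
    refine h1.mono ?_
    have h2 : 0 ≤ ∑ l ∈ (Finset.univ.erase i).erase i', w.ord (t' l) :=
      Finset.sum_nonneg fun l _ => (ht' l).nonneg
    have h3 : e ≤ (f1 % e1 + 1 * e1) + (f2 % e2 + 1 * e2) := by omega
    have h4 : (e : ℤ) ≤ ((f1 % e1 + 1 * e1 : ℕ) : ℤ) + ((f2 % e2 + 1 * e2 : ℕ) : ℤ) := by
      exact_mod_cast h3
    omega

/-- **The determinant**, if the automorphism swaps two curves. -/
theorem Rot.swap_det (h : Rot w g e ζ) {C : Fin n → IntermediateField k M} [∀ i, IsFF k (C i)]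
    (hC : Function.Injective C) {σ : Fin n → Fin n} (hσ : ∀ i z, z ∈ C i ↔ g z ∈ C (σ i))
    {i : Fin n} (hi : σ i ≠ i) (hi2 : σ (σ i) = i) {t0 : Fin n → M}
    (ht0 : ∀ l, Par w (C l) (t0 l)) :
    ∃ (t : Fin n → M) (e' f : ℕ), (∀ l, Par w (C l) (t l)) ∧ 0 < e' ∧ 2 * e' = e ∧
      w.ord (t0 i) = f ∧ ∀ D : Fin n → Derivation k M M,
      (∀ j, Pres w (D j)) → Ge w (2 * ((f % e' : ℕ) : ℤ) + e' +
        ∑ l ∈ (Finset.univ.erase i).erase (σ i), w.ord (t0 l) - 1)
          (Matrix.of fun i j => D i (t j)).det := by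
  classical
  have hper := iter_per hC hσ h.pow
  have hp2 : Function.minimalPeriod σ i = 2 := by
    have h1 := period_ge h.pos hper hi
    have h2 : Function.minimalPeriod σ i ∣ 2 :=
      Function.IsPeriodicPt.minimalPeriod_dvd (show Function.IsPeriodicPt σ 2 i from hi2)
    have h3 := Nat.le_of_dvd (by norm_num) h2
    omega
  have horb : ∀ j, σ^[j] i = i ∨ σ^[j] i = σ i := by
    intro j
    induction j with
    | zero => exact Or.inl rfl
    | succ j ih =>
      rw [Function.iterate_succ_apply']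
      rcases ih with h1 | h1
      · exact Or.inr (by rw [h1])
      · exact Or.inl (by rw [h1, hi2])
  obtain ⟨t, ht, htt, e', f, he', hde, hf, hc⟩ := h.cyc hC hσ ht0 i
  rw [hp2] at hde hc
  obtain ⟨c, -, hc1, hc2, hc3⟩ := hc 1 (by omega)
  obtain ⟨c', -, hc1', hc2', hc3'⟩ := hc 0 (by omega)
  refine ⟨t, e', f, ht, he', hde, hf, fun D hD => ?_⟩
  have h1 := two_cols w D hD t (Ne.symm hi) c c' hc1 (by
    rw [hc2 le_rfl, hc2' le_rfl, hc1', one_mul]
    refine sub_ne_zero.2 (h.pow_ne ?_ ?_ ?_)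
    · rw [← hde]
      exact bound_lt he' (by omega)
    · rw [← hde]
      exact bound_lt he' (by omega)
    · omega) hc3 hc3'
  refine h1.mono (le_of_eq ?_)
  have h2 : ∑ l ∈ (Finset.univ.erase i).erase (σ i), w.ord (t l) =
      ∑ l ∈ (Finset.univ.erase i).erase (σ i), w.ord (t0 l) := by
    refine Finset.sum_congr rfl fun l hl => ?_
    rw [Finset.mem_erase, Finset.mem_erase] at hl
    rw [htt l]
    rintro ⟨j, hj⟩
    rcases horb j with h3 | h3
    · exact hl.2.1 (by rw [← hj, h3])
    · exact hl.1 (by rw [← hj, h3])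
  rw [h2]
  push_cast
  ring

/-- rotations of the curves -/
theorem Rot.rotates (h : Rot w g e ζ) (A : IntermediateField k M) [hA : IsFF k A] (j : ℕ)
    (hst : ∀ z ∈ A, (g ^ j) z ∈ A) {t : M} (ht : Par w A t) {f : ℕ} (hf : w.ord t = f) :
    ∃ w' : Place k A, Rotates A (g ^ j) w' (ζ ^ (f * j)) := by
  obtain ⟨htA, ht0, ⟨h1, -⟩ | ⟨w', f', h1, h2⟩⟩ := ht
  · obtain ⟨w', -⟩ := exists_place (k := k) (K := A)
    have hf0 : f = 0 := by
      rw [h1 t htA] at hf
      exact_mod_cast hf.symm
    refine ⟨w', fun s z hs hz => Or.inl ?_⟩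
    rw [hf0, zero_mul, pow_zero, map_one, one_mul]
    by_cases hs0 : (s : M) = 0
    · have h3 : s = 0 := Subtype.ext hs0
      rw [h3, w'.ord_zero] at hs
      omega
    have h3 := h.rot_pow hs0 j
    rw [h1 s s.2, zpow_zero, one_pow, map_one, one_mul, hz] at h3
    rcases h3 with h3 | h3
    · exact Subtype.ext h3
    · have h4 := h1 ((z - s : A) : M) (z - s).2
      change w.ord ((z : M) - s) = 0 at h4
      omega
  · have hff : f = f' := by
      rw [hf] at h2
      exact_mod_cast h2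
    subst hff
    refine ⟨w', fun s z hs hz => ?_⟩
    have hcoe : ((z - algebraMap k A (ζ ^ (f * j)) * s : A) : M) =
        (g ^ j) s - algebraMap k M ((ζ ^ (f : ℤ)) ^ j) * s := by
      rw [hz, zpow_natCast, ← pow_mul]
      rfl
    have hs0 : (s : M) ≠ 0 := by
      intro h0
      have h3 : s = 0 := Subtype.ext h0
      rw [h3, w'.ord_zero] at hs
      omega
    have h3 : w.ord (s : M) = f := by
      have := h1.2 s
      rw [hs, mul_one] at this
      exact this
    have h4 := h.rot_pow hs0 j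
    rw [h3, ← hcoe] at h4
    rcases h4 with h4 | h4
    · exact Or.inl (Subtype.ext h4)
    · right
      have h5 := h1.2 (z - algebraMap k A (ζ ^ (f * j)) * s : A)
      change w.ord ((z - algebraMap k A (ζ ^ (f * j)) * s : A) : M) = _ at h5
      rw [h5] at h4
      have h6 : (1 : ℤ) ≤ f := by exact_mod_cast h1.1
      by_contra hcon
      push Not at hcon
      nlinarith

end

end Pool.Agent.K4H25.GW
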