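import Pool.Agent.K4H25.GW.P5

/-!
The reduction to the subgroup generated by the junior elements, for groups which permute the curves.
-/

set_option autoImplicit false
set_option linter.overlappingInstances false
set_option linter.unusedSectionVars false
set_option linter.unusedVariables false
set_option linter.unusedSimpArgs false
set_option maxHeartbeats 4000000
set_option synthInstance.maxHeartbeats 400000

open Polynomial FF IntermediateField Pool.Agent.W619.PQ Pool.Agent.W619.PL Pool.Agent.W619.TW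
  Pool.Agent.W603.LV Pool.Agent.K4H25.GQ Pool.Agent.Y174 Pool.Agent.R885.N

namespace Pool.Agent.K4H25.GW

section

variable {M : Type} [Field M] [Algebra ℂ M] {n : ℕ}

/-- The automorphism `g`, of order `N`, swaps the curves `i` and `j`, preserves the others, and is
junior: for some primitive `N`-th root of unity `ζ` it acts on the other curves at some places as the
rotations by `ζ ^ a l`, and `g ^ 2` acts on the curve `i` at some place as the rotation by
`ζ ^ (2 a i)` (so `g` acts on the product of the two curves with the eigenvalues `± ζ ^ a i`), with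
`∑_{l ≠ i, j} a l + 2 a i + N / 2 < N`. -/
def JuniorSwap (C : Fin n → IntermediateField ℂ M) (g : M ≃ₐ[ℂ] M) : Prop :=
  ∃ i j, i ≠ j ∧ (∀ z ∈ C i, g z ∈ C j) ∧ (∀ z ∈ C j, g z ∈ C i) ∧
    (∀ l, l ≠ i → l ≠ j → ∀ z ∈ C l, g z ∈ C l) ∧
    ∃ (ζ : ℂ) (w : ∀ l, Place ℂ (C l)) (a : Fin n → ℕ), IsPrimitiveRoot ζ (orderOf g) ∧
      (∀ l, l ≠ i → l ≠ j → Rotates (C l) g (w l) (ζ ^ a l)) ∧
      Rotates (C i) (g ^ 2) (w i) (ζ ^ (2 * a i)) ∧
      2 * ∑ l ∈ (Finset.univ.erase i).erase j, a l + 4 * a i < orderOf g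

/-- the curves are different -/
theorem curves_inj (C : Fin n → IntermediateField ℂ M) [hC : ∀ i, IsFF ℂ (C i)]
    (hn : Algebra.trdeg ℂ M = (n : ℕ)) (hgen : ⨆ i, C i = ⊤) : Function.Injective C := by
  classical
  intro i j hij
  by_contra hne
  choose x hx using fun i => IsFF.exists_transcendental (k := ℂ) (K := C i)
  let x' : ∀ l, C l := fun l => if h : l = j then ⟨x i, by rw [h, ← hij]; exact (x i).2⟩ else x l
  have hx' : ∀ l, Transcendental ℂ (x' l) := by
    intro l
    have h1 : Transcendental ℂ ((x' l : C l) : M) := by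
      by_cases h : l = j
      · have h2 : ((x' l : C l) : M) = x i := by
          simp only [x', dif_pos h]
        rw [h2]
        exact fun h3 => hx i ((isAlgebraic_algebraMap_iff (algebraMap (C i) M).injective).1 h3)
      · have h2 : ((x' l : C l) : M) = x l := by
          simp only [x', dif_neg h]
        rw [h2]
        exact fun h3 => hx l ((isAlgebraic_algebraMap_iff (algebraMap (C l) M).injective).1 h3)
    exact fun h2 => h1 h2.algebraMap
  have h1 := basis_curves C hn hgen x' hx'
  have h2 := h1.1.injective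
  apply hne
  apply h2
  have e1 : ((x' i : C i) : M) = x i := by
    simp only [x', dif_neg hne]
  have e2 : ((x' j : C j) : M) = x i := by
    simp only [x', dif_pos]
  exact e1.trans e2.symm

/-- **The main estimate.** -/
theorem perm_est (C : Fin n → IntermediateField ℂ M) [hC : ∀ i, IsFF ℂ (C i)]
    (hn : Algebra.trdeg ℂ M = (n : ℕ)) (hgen : ⨆ i, C i = ⊤)
    (G : Subgroup (M ≃ₐ[ℂ] M)) [Finite G]
    (hperm : ∀ g ∈ G, ∀ i, ∃ j, (C i).map (g : M →ₐ[ℂ] M) = C j)
    (J : Subgroup (M ≃ₐ[ℂ] M)) [Finite J]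
    (hJ : ∀ g ∈ G, (∀ i, ∀ z ∈ C i, g z ∈ C i) → Junior C g → g ∈ J)
    (hswap : ∀ g ∈ G, ¬ JuniorSwap C g)
    {w : Place ℂ M} {v : Place ℂ (fixedField G)} {u : Place ℂ (fixedField J)} {e e' : ℕ}
    (hv : Over w v e) (hu : Over w u e') (m : ℕ)
    (ω : (Fin n → Derivation ℂ M M) → M) (hω : IsSec ℂ M n (fun _ => False) {1} m 0 ω)
    (D : Fin n → Derivation ℂ M M) (hD : ∀ j, Pres w (D j)) :
    Ge w (m * ((e : ℤ) - 1)) (ω D) ∨ e ≤ e' := by
  classical
  by_cases he : e = 1
  · right
    rw [he]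
    exact hu.1
  obtain ⟨I, hIcard, hI⟩ := inertia_at G hv
  obtain ⟨g, hgI, hord, ζ, hζ, hrot⟩ := exists_rot_generator w I hI
  rw [hIcard] at hord hζ
  have hgin := hI g hgI
  have hR : Rot w (g : M ≃ₐ[ℂ] M) e ζ := by
    refine ⟨hζ, hv.1, ?_, hgin.ord_eq, hrot⟩
    rw [← hord]
    exact pow_orderOf_eq_one _
  have hg1 : (g : M ≃ₐ[ℂ] M) ≠ 1 := by
    intro h1
    rw [h1, orderOf_one] at hord
    exact he hord.symm
  have hCi := curves_inj C hn hgen
  choose σ hσ' using hperm g g.2
  have hσ : ∀ i z, z ∈ C i ↔ (g : M ≃ₐ[ℂ] M) z ∈ C (σ i) := by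
    intro i z
    rw [← hσ' i, IntermediateField.mem_map]
    constructor
    · intro h1
      exact ⟨z, h1, rfl⟩
    · rintro ⟨y, hy, h1⟩
      have h2 : (g : M ≃ₐ[ℂ] M) y = (g : M ≃ₐ[ℂ] M) z := h1
      rw [← (g : M ≃ₐ[ℂ] M).injective h2]
      exact hy
  choose t ht using fun l => exists_par (C l) w
  choose f hf using fun l => Int.eq_ofNat_of_zero_le (ht l).nonneg
  by_cases hid : ∀ i, σ i = i
  · -- the curves are preserved
    have hst : ∀ i, ∀ z ∈ C i, (g : M ≃ₐ[ℂ] M) z ∈ C i := by
      intro i z hz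
      have h1 := (hσ i z).1 hz
      rwa [hid] at h1
    by_cases hlt : ∑ i, f i < e
    · right
      have hjun : Junior C (g : M ≃ₐ[ℂ] M) := by
        choose w' hw' using fun i => hR.rotates (C i) 1 (by
          rw [pow_one]
          exact hst i) (ht i) (hf i)
        refine ⟨hg1, ζ, w', f, by rw [hord]; exact hζ, fun i => ?_, ?_⟩
        · have h1 := hw' i
          rwa [pow_one, mul_one] at h1
        · rw [hord]
          exact hlt
      have hgJ := hJ g g.2 hst hjun
      obtain ⟨z, hz0, hz⟩ := u.surj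
      have hzM : (z : M) ≠ 0 := fun h => hz0 (Subtype.ext h)
      have h1 : w.ord (z : M) = e' := by
        have := hu.2 z
        rw [hz, mul_one] at this
        exact this
      have h2 := hrot (z : M) hzM
      have h3 : (g : M ≃ₐ[ℂ] M) (z : M) = z := z.2 ⟨_, hgJ⟩
      rw [h3, h1, zpow_natCast] at h2
      have h4 : (z : M) - algebraMap ℂ M (ζ ^ e') * z = algebraMap ℂ M (1 - ζ ^ e') * z := by
        rw [map_sub, map_one]
        ring
      rw [h4] at h2
      have h5 : ζ ^ e' = 1 := by
        by_contra hne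
        have h6 : (1 : ℂ) - ζ ^ e' ≠ 0 := sub_ne_zero.2 (Ne.symm hne)
        have h7 : algebraMap ℂ M (1 - ζ ^ e') ≠ 0 := (_root_.map_ne_zero _).2 h6
        rcases h2 with h2 | h2
        · exact mul_ne_zero h7 hzM h2
        · rw [w.ord_mul h7 hzM, w.ord_const h6, h1] at h2
          omega
      exact Nat.le_of_dvd hu.1 ((hζ.pow_eq_one_iff_dvd _).1 h5)
    · left
      have h1 := det_ge w D hD t (fun l => w.ord (t l)) fun l => Or.inr le_rfl
      refine par_est C hn hgen w t ht _ D (h1.mono ?_) m ω hω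
      have h2 : (e : ℤ) ≤ ∑ l, w.ord (t l) := by
        rw [Finset.sum_congr rfl fun l _ => hf l]
        exact_mod_cast not_lt.1 hlt
      omega
  · left
    push Not at hid
    obtain ⟨i, hi⟩ := hid
    by_cases htr : σ (σ i) = i ∧ ∀ l, l ≠ i → l ≠ σ i → σ l = l
    · -- a transposition
      obtain ⟨hi2, hil⟩ := htr
      obtain ⟨t', e1, f', ht', he1, hde, hf', hdet⟩ := hR.swap_det hCi hσ hi hi2 ht
      have hff : f' = f i := by
        rw [hf i] at hf'
        exact_mod_cast hf'.symm
      subst hff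
      refine par_est C hn hgen w t' ht' _ D ((hdet D hD).mono ?_) m ω hω
      by_contra hcon
      push Not at hcon
      refine hswap g g.2 ⟨i, σ i, Ne.symm hi, fun z hz => (hσ i z).1 hz, fun z hz => ?_,
        fun l h1 h2 z hz => ?_, ?_⟩
      · have h1 := (hσ (σ i) z).1 hz
        rwa [hi2] at h1
      · have h3 := (hσ l z).1 hz
        rwa [hil l h1 h2] at h3
      · have hR1 : ∀ l, ∃ w' : Place ℂ (C l), (l ≠ i → l ≠ σ i →
            Rotates (C l) (g : M ≃ₐ[ℂ] M) w' (ζ ^ f l)) ∧ (l = i →
            Rotates (C l) ((g : M ≃ₐ[ℂ] M) ^ 2) w' (ζ ^ (f l * 2))) := by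
          intro l
          by_cases hl : l = i
          · obtain ⟨w', hw'⟩ := hR.rotates (C l) 2 (by
              intro z hz
              have h1 := (iter_mem hσ 2 l z).1 hz
              rw [hl] at h1 ⊢
              have h2 : σ^[2] i = i := hi2
              rwa [h2] at h1) (ht l) (hf l)
            exact ⟨w', fun h => absurd hl h, fun _ => hw'⟩
          · by_cases hl' : l = σ i
            · obtain ⟨w', -⟩ := exists_place (k := ℂ) (K := C l)
              exact ⟨w', fun _ h => absurd hl' h, fun h => absurd h hl⟩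
            · obtain ⟨w', hw'⟩ := hR.rotates (C l) 1 (by
                intro z hz
                rw [pow_one]
                have h1 := (hσ l z).1 hz
                rwa [hil l hl hl'] at h1) (ht l) (hf l)
              refine ⟨w', fun _ _ => ?_, fun h => absurd h hl⟩
              rwa [pow_one, mul_one] at hw'
        choose w' hw1 hw2 using hR1
        obtain ⟨a, ha⟩ : ∃ a : Fin n → ℕ, a = Function.update f i (f i % e1) := ⟨_, rfl⟩
        have hai : a i = f i % e1 := by rw [ha, Function.update_self]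
        have hal : ∀ l, l ≠ i → a l = f l := fun l hl => by rw [ha, Function.update_of_ne hl]
        refine ⟨ζ, w', a, by rw [hord]; exact hζ, fun l h1 h2 => ?_, ?_, ?_⟩
        · rw [hal l h1]
          exact hw1 l h1 h2
        · have h1 := hw2 i rfl
          have h2 : ζ ^ (f i * 2) = ζ ^ (2 * a i) := by
            have h3 := Nat.div_add_mod (f i) e1
            have h4 : f i * 2 = e * (f i / e1) + 2 * a i := by
              rw [hai, ← hde]
              conv_lhs => rw [← h3]
              ring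
            rw [h4, pow_add, pow_mul, hζ.pow_eq_one, one_pow, one_mul]
          rwa [h2] at h1
        · have h1 : ∑ l ∈ (Finset.univ.erase i).erase (σ i), w.ord (t l) =
              ((∑ l ∈ (Finset.univ.erase i).erase (σ i), a l : ℕ) : ℤ) := by
            push_cast
            refine Finset.sum_congr rfl fun l hl => ?_
            rw [Finset.mem_erase, Finset.mem_erase] at hl
            rw [hf l, hal l hl.2.1]
          rw [h1, ← hai] at hcon
          rw [hord]
          have h2 : (e : ℤ) = 2 * e1 := by exact_mod_cast hde.symm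
          omega
    · obtain ⟨t', ht', hdet⟩ := hR.perm_det hCi hσ hi htr
      exact par_est C hn hgen w t' ht' _ D (hdet D hD) m ω hω

/-- **The reduction to the subgroup generated by the junior elements**, for groups which permute the
curves. -/
theorem junior_red' (C : Fin n → IntermediateField ℂ M) [hC : ∀ i, IsFF ℂ (C i)]
    (hn : Algebra.trdeg ℂ M = (n : ℕ)) (hgen : ⨆ i, C i = ⊤)
    (G : Subgroup (M ≃ₐ[ℂ] M)) [Finite G]
    (hperm : ∀ g ∈ G, ∀ i, ∃ j, (C i).map (g : M →ₐ[ℂ] M) = C j)
    (J : Subgroup (M ≃ₐ[ℂ] M)) (hJG : J ≤ G)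
    (hJ : ∀ g ∈ G, (∀ i, ∀ z ∈ C i, g z ∈ C i) → Junior C g → g ∈ J)
    (hswap : ∀ g ∈ G, ¬ JuniorSwap C g)
    (h : PosB ℂ (fixedField J) n (fun _ => 0) ∨ NegB ℂ (fixedField J) n (fun _ => 0)) :
    PosB ℂ (fixedField G) n (fun _ => 0) ∨ NegB ℂ (fixedField G) n (fun _ => 0) := by
  classical
  have hfJ : Finite J := Finite.of_injective (Subgroup.inclusion hJG)
    (Subgroup.inclusion_injective hJG)
  have hGJ : fixedField G ≤ fixedField J := fun z hz g => hz ⟨g, hJG g.2⟩
  have hessM : Algebra.EssFiniteType ℂ M := by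
    have h1 : Algebra.EssFiniteType ℂ ↥(⨆ i, C i) := essFiniteType_iff.2
      (fg_iSup fun i => essFiniteType_iff.1 (IsFF.ess))
    rw [hgen] at h1
    exact (Algebra.EssFiniteType.iff_of_algEquiv (topEquiv (F := ℂ) (E := M))).1 h1
  have halgG := Pool.Agent.W721.PG.EFF2.alg_fixed G
  have halgJ := Pool.Agent.W721.PG.EFF2.alg_fixed J
  have hfinG : FiniteDimensional (fixedField G) M := fixed_finite G
  have hfinJ : FiniteDimensional (fixedField J) M := fixed_finite J
  obtain ⟨htG, -⟩ := Pool.Agent.W721.PG.EFF2.exists_basis (fixedField G) n hn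
  obtain ⟨htJ, -⟩ := Pool.Agent.W721.PG.EFF2.exists_basis (fixedField J) n hn
  have hessG : Algebra.EssFiniteType ℂ (fixedField G) := Pool.Agent.TH466.QG.ess_below (K := M)
  have hessJ : Algebra.EssFiniteType ℂ (fixedField J) := Pool.Agent.TH466.QG.ess_below (K := M)
  let _ : Algebra (fixedField G) (fixedField J) := (inclusion hGJ).toRingHom.toAlgebra
  have t1 : IsScalarTower ℂ (fixedField G) (fixedField J) :=
    IsScalarTower.of_algebraMap_eq fun c => rfl
  have t2 : IsScalarTower (fixedField G) (fixedField J) M :=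
    IsScalarTower.of_algebraMap_eq fun c => rfl
  have hfin : FiniteDimensional (fixedField G) (fixedField J) :=
    FiniteDimensional.left (fixedField G) (fixedField J) M
  have hb : ∀ v : Place ℂ (fixedField G), IsDivisorial v n →
      ∀ (w : Place ℂ (fixedField J)) (e : ℕ), LiesOn w v e →
      1 - (e : ℝ) * (1 - (fun _ : Place ℂ (fixedField G) => (0 : ℝ)) v) ≤
        (fun _ : Place ℂ (fixedField J) => (0 : ℝ)) w := by
    intro v _ w e hw
    have h1 : (1 : ℝ) ≤ e := by exact_mod_cast hw.1
    beta_reduce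
    linarith
  rcases h with ⟨d, hd, h1, h2⟩ | h1
  swap
  · exact Or.inr (neg_pull hessG htG hb h1)
  refine Or.inl ⟨d, hd, ?_, w0_num hessG htG hb h2⟩
  -- the ramification indices
  choose eG vG hG using fun w : Place ℂ M =>
    Pool.Agent.W73.PG.PULL.exists_over' (K := fixedField G) w
  choose eJ vJ hJ' using fun w : Place ℂ M =>
    Pool.Agent.W73.PG.PULL.exists_over' (K := fixedField J) w
  have h3 : PairKod ℂ M n (fun w => 1 - (eJ w : ℝ)) d := by
    refine ((fin_all (K := fixedField J) (L := M) hessJ htJ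
      (δ := fun _ => 0) (δ' := fun w => 1 - (eJ w : ℝ)) ?_).1 d).2 h1
    intro v _ w e hw
    obtain ⟨h4, -⟩ := over_uniq hw (hJ' w)
    rw [h4]
    ring
  refine w0_desc hn hessM G (fun _ => 0) (fun w => 1 - (eG w : ℝ)) ?_ ?_
  · intro v _ w e hw
    obtain ⟨h4, -⟩ := over_uniq hw (hG w)
    rw [h4]
    apply le_of_eq
    ring
  obtain ⟨m, hm, ω, hω, D, hD, hind⟩ := h3
  refine ⟨m, hm, ω, fun l => ⟨(hω l).1, fun w hw E hE => ?_⟩, D, hD, hind⟩
  -- orders
  have hJ1 : ∀ w, 1 ≤ eJ w := fun w => (hJ' w).1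
  have hsec : ∀ w, IsDivisorial w n → ∀ E : Fin n → Derivation ℂ M M,
      (∀ l, ∀ f, w.Reg f → w.Reg (E l f)) → ω l E = 0 ∨ (m : ℤ) * (eJ w - 1) ≤ w.ord (ω l E) := by
    intro w hw E hE
    rcases (hω l).2 w hw E hE with h4 | ⟨s, hs, hs0, h4⟩
    · exact Or.inl h4
    · right
      simp only [Nat.cast_zero, zero_mul, zero_sub] at h4
      have h5 : (((m : ℤ) * (eJ w - 1) : ℤ) : ℝ) ≤ ((w.ord (ω l E) : ℤ) : ℝ) := by
        push_cast
        linarith
      exact_mod_cast h5
  have hreg : IsSec ℂ M n (fun _ => False) {1} m 0 (ω l) := by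
    refine ⟨(hω l).1, fun w hw _ E hE => ?_, fun _ _ hF => hF.elim⟩
    rcases hsec w hw E hE with h4 | h4
    · exact Or.inl h4
    · refine Or.inr ⟨1, Finset.mem_singleton_self _, one_ne_zero, ?_⟩
      have h5 : (1 : ℤ) ≤ eJ w := by exact_mod_cast hJ1 w
      have h6 : (0 : ℤ) ≤ m := by positivity
      have h7 : (0 : ℤ) ≤ (m : ℤ) * (eJ w - 1) := mul_nonneg h6 (by omega)
      simp only [Nat.cast_zero, zero_mul]
      omega
  have hmain : ω l E = 0 ∨ (m : ℤ) * (eG w - 1) ≤ w.ord (ω l E) := by
    rcases perm_est C hn hgen G hperm J hJ hswap (hG w) (hJ' w) m (ω l) hreg E hE with h4 | h5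
    · exact h4
    · rcases hsec w hw E hE with h7 | h7
      · exact Or.inl h7
      · right
        have h6 : (0 : ℤ) ≤ m := by positivity
        have h8 : (eG w : ℤ) ≤ eJ w := by exact_mod_cast h5
        nlinarith
  rcases hmain with h4 | h4
  · exact Or.inl h4
  · refine Or.inr ⟨1, Finset.mem_singleton_self _, one_ne_zero, ?_⟩
    have h5 : (((m : ℤ) * (eG w - 1) : ℤ) : ℝ) ≤ ((w.ord (ω l E) : ℤ) : ℝ) := by exact_mod_cast h4
    push_cast at h5
    simp only [Nat.cast_zero, zero_mul, zero_sub]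
    linarith

end

end Pool.Agent.K4H25.GW
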