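import Pool.Agent.K4H25.GQ.Stp6

/-!
The quotient of a product `F × C 1 × ... × C q` by a finite group: local tools.
-/

set_option autoImplicit false
set_option linter.overlappingInstances false
set_option linter.unusedSectionVars false
set_option linter.unusedVariables false
set_option linter.unusedSimpArgs false
set_option maxHeartbeats 4000000
set_option synthInstance.maxHeartbeats 400000

open Polynomial FF IntermediateField Pool.Agent.W619.PQ Pool.Agent.W619.PL Pool.Agent.W619.TW
  Pool.Agent.W619.X Pool.Agent.W619.Y Pool.Agent.W603.LV Pool.Agent.K4H25.GQ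

namespace Pool.Agent.K4H25.GW

section

variable {k : Type} [Field k] {L : Type} [Field L] [Algebra k L]

/-- The automorphism `g` rotates the curve with the function field `C` at the place `w` by `θ`: it
acts on the cotangent line by the factor `θ`. -/
def Rotates (C : IntermediateField k L) (g : L ≃ₐ[k] L) (w : Place k C) (θ : k) : Prop :=
  ∀ t z : C, w.ord t = 1 → g t = z → Ge w 2 (z - algebraMap k C θ * t)

end

section

variable {k : Type} [Field k] [CharZero k] [IsAlgClosed k] {L : Type} [Field L] [Algebra k L]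

/-- The inertia group of a place. -/
theorem inertia_at (G : Subgroup (L ≃ₐ[k] L)) [Finite G] {v : Place k (fixedField G)}
    {w : Place k L} {e : ℕ} (h : Over w v e) :
    ∃ I : Subgroup G, Nat.card I = e ∧ ∀ g ∈ I, Inert w (g : L ≃ₐ[k] L) := by
  obtain ⟨w', e', I, hw', hcard, hI⟩ := exists_inertia G v
  have hee : e = e' := Pool.Agent.R885.N.index_unique h hw'
  obtain ⟨g, hg⟩ := pCONJ k L G v w w' e e' h hw'
  refine ⟨I.map (MulAut.conj g).toMonoidHom, ?_, ?_⟩
  · rw [hee, ← hcard]
    exact (Nat.card_congr (Subgroup.equivMapOfInjective I _ (MulAut.conj g).injective).toEquiv).symm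
  · rintro _ ⟨h', hh', rfl⟩ z hz
    have h1 : ((MulAut.conj g).toMonoidHom h' : G) = g * h' * g⁻¹ := rfl
    rw [h1]
    obtain ⟨y, hy⟩ : ∃ y, y = (g⁻¹ : G).1 z := ⟨_, rfl⟩
    have hgy : (g : L ≃ₐ[k] L) y = z := by
      rw [hy]
      change ((g : L ≃ₐ[k] L) * (g⁻¹ : G).1) z = z
      have : (g : L ≃ₐ[k] L) * (g⁻¹ : G).1 = 1 := congrArg Subtype.val (mul_inv_cancel g)
      rw [this]
      rfl
    have h2 : Ge w' 0 y := by
      rcases hz with hz | hz
      · left
        rw [hy, hz, map_zero]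
      · right
        rw [hg y, hgy]
        exact hz
    have h3 := hI h' hh' y h2
    have h4 : ((g * h' * g⁻¹ : G) : L ≃ₐ[k] L) z - z =
        (g : L ≃ₐ[k] L) ((h' : L ≃ₐ[k] L) y - y) := by
      rw [map_sub, hgy, hy]
      rfl
    rw [h4]
    rcases h3 with h3 | h3
    · left
      rw [h3, map_zero]
    · right
      rw [← hg]
      exact h3

/-- An inert automorphism is trivial on the stable subfields on which the place is trivial. -/
theorem inert_triv {w : Place k L} {g : L ≃ₐ[k] L} (hg : Inert w g) {E : IntermediateField k L}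
    (hst : ∀ z ∈ E, g z ∈ E) (htriv : ∀ z ∈ E, w.ord z = 0) : ∀ z ∈ E, g z = z := by
  intro z hz
  rcases hg z (Or.inr (htriv z hz).ge) with h | h
  · exact sub_eq_zero.1 h
  · have h1 := htriv _ (sub_mem (hst z hz) hz)
    omega

/-- The matrix of the change of coordinates on the product. -/
theorem append_factor' {d q : ℕ} (y z : Fin d → L) (x u r : Fin q → L)
    (Z : Matrix (Fin d) (Fin d) L)
    (hZ : ∀ (D : Derivation k L L) l, D (y l) = ∑ c, Z l c * D (z c))
    (hr : ∀ (D : Derivation k L L) i, D (x i) = r i * D (u i)) :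
    ∃ T : Matrix (Fin (d + q)) (Fin (d + q)) L, T.det = Z.det * ∏ i, r i ∧
      ∀ (D : Derivation k L L) i, D ((Fin.append y x : Fin (d + q) → L) i) =
        ∑ i', T i i' * D ((Fin.append z u : Fin (d + q) → L) i') := by
  classical
  refine ⟨Matrix.reindex finSumFinEquiv finSumFinEquiv
    (Matrix.fromBlocks Z 0 0 (Matrix.diagonal r)), ?_, ?_⟩
  · rw [Matrix.det_reindex_self, Matrix.det_fromBlocks_zero₂₁, Matrix.det_diagonal]
  · intro D i
    rw [← finSumFinEquiv.sum_comp, Fintype.sum_sum_type]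
    refine Fin.addCases (fun l => ?_) (fun l => ?_) i
    · simp only [Fin.append_left, Matrix.reindex_apply, Matrix.submatrix_apply,
        Equiv.symm_apply_apply, finSumFinEquiv_symm_apply_castAdd,
        finSumFinEquiv_symm_apply_natAdd, finSumFinEquiv_apply_left,
        finSumFinEquiv_apply_right, Matrix.fromBlocks_apply₁₁, Matrix.fromBlocks_apply₁₂,
        Fin.append_right, Matrix.zero_apply, zero_mul, Finset.sum_const_zero, add_zero]
      exact hZ D l
    · simp only [Fin.append_left, Matrix.reindex_apply, Matrix.submatrix_apply,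
        Equiv.symm_apply_apply, finSumFinEquiv_symm_apply_natAdd,
        finSumFinEquiv_symm_apply_castAdd, finSumFinEquiv_apply_left,
        finSumFinEquiv_apply_right, Matrix.fromBlocks_apply₂₁, Matrix.fromBlocks_apply₂₂,
        Fin.append_right, Matrix.zero_apply, zero_mul, Finset.sum_const_zero, zero_add]
      rw [Finset.sum_eq_single l]
      · rw [Matrix.diagonal_apply_eq]
        exact hr D l
      · intro b _ hb
        rw [Matrix.diagonal_apply_ne _ (Ne.symm hb), zero_mul]
      · intro h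
        exact absurd (Finset.mem_univ l) h

theorem append_ne' {d q : ℕ} {z : Fin d → L} {u : Fin q → L} (hz : ∀ c, z c ≠ 0)
    (hu : ∀ i, u i ≠ 0) (i : Fin (d + q)) : (Fin.append z u : Fin (d + q) → L) i ≠ 0 := by
  refine Fin.addCases (fun l => ?_) (fun l => ?_) i
  · rw [Fin.append_left]; exact hz l
  · rw [Fin.append_right]; exact hu l

theorem append_reg' {d q : ℕ} {w : Place k L} {z : Fin d → L} {u : Fin q → L}
    (hz : ∀ c, w.Reg (z c)) (hu : ∀ i, w.Reg (u i)) (i : Fin (d + q)) :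
    w.Reg ((Fin.append z u : Fin (d + q) → L) i) := by
  refine Fin.addCases (fun l => ?_) (fun l => ?_) i
  · rw [Fin.append_left]; exact hz l
  · rw [Fin.append_right]; exact hu l

/-- The form on one of the curves at a place. -/
theorem curve_loc (C : IntermediateField k L) [hC : IsFF k C] (G : Subgroup (L ≃ₐ[k] L))
    [Finite G] (hstC : ∀ g ∈ G, ∀ z ∈ C, g z ∈ C) {M : ℕ}
    (δ : Place k ↥(C ⊓ fixedField G) → ℚ)
    (D0 : Derivation k ↥(C ⊓ fixedField G) ↥(C ⊓ fixedField G)) (c x : ↥(C ⊓ fixedField G))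
    (hD0 : D0 ≠ 0) (hc : c ≠ 0) (hx : Transcendental k x)
    (hg : GoodX (fun _ => False) (fun q => 1 - δ q) M D0 c) (w : Place k L) :
    ∃ (u r : L) (N : ℤ), u ≠ 0 ∧ w.Reg u ∧ (∀ D : Derivation k L L, D (x : L) = r * D u) ∧
      Ge w N (((c / (D0 x) ^ M : ↥(C ⊓ fixedField G)) : L) * (r * u) ^ M) ∧
      (((∀ z ∈ C, w.ord z = 0) ∧ w.ord u = 0 ∧ N = 0) ∨
        ∃ (w' : Place k C) (f : ℕ) (p : Place k ↥(C ⊓ fixedField G)) (r' : ℕ),
          Over w w' f ∧ LiesOver (inf_le_left : C ⊓ fixedField G ≤ C) w' p r' ∧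
          (M : ℚ) * (f * (r' * (1 - δ p))) ≤ N) := by
  classical
  let _ : Algebra ↥(C ⊓ fixedField G) C :=
    (inclusion (inf_le_left : C ⊓ fixedField G ≤ C)).toRingHom.toAlgebra
  have t1 : IsScalarTower k ↥(C ⊓ fixedField G) C := IsScalarTower.of_algebraMap_eq fun c => rfl
  have t2 : IsScalarTower ↥(C ⊓ fixedField G) C L := IsScalarTower.of_algebraMap_eq fun c => rfl
  have f1 : FiniteDimensional ↥(C ⊓ fixedField G) C := inf_finite G C hstC fun z => rfl
  have f2 : IsFF k ↥(C ⊓ fixedField G) := isFF_down (E := C)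
  have hx0 : x ≠ 0 := by
    intro h0
    rw [h0] at hx
    exact hx (isAlgebraic_zero)
  have hDx : D0 x ≠ 0 := der_ne_zero hD0 hx
  by_cases htriv : ∀ f : ↥(C ⊓ fixedField G), w.ord (algebraMap ↥(C ⊓ fixedField G) L f) = 0
  · have h1 : ∀ f ∈ C, w.ord f = 0 := fun f hf =>
      ord_eq_zero_of_alg (K0 := ↥(C ⊓ fixedField G)) (K1 := C) (K2 := L) w htriv ⟨f, hf⟩
    refine ⟨(x : L), 1, 0, fun h => hx0 (Subtype.ext h), Or.inr (htriv x).ge,
      fun D => (one_mul _).symm, ?_, Or.inl ⟨h1, htriv x, rfl⟩⟩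
    have h2 : ((c / (D0 x) ^ M : ↥(C ⊓ fixedField G)) : L) * (1 * (x : L)) ^ M =
        algebraMap ↥(C ⊓ fixedField G) L (c / (D0 x) ^ M * x ^ M) := by
      rw [one_mul, map_mul, map_pow]
      rfl
    rw [h2]
    exact Or.inr (htriv _).ge
  push Not at htriv
  obtain ⟨f0, hf0⟩ := htriv
  obtain ⟨f, w', hw'⟩ := exists_over (K := C) w ⟨algebraMap ↥(C ⊓ fixedField G) C f0, by
    rw [← IsScalarTower.algebraMap_apply]
    exact hf0⟩
  obtain ⟨r', p, hp⟩ := exists_over (K := ↥(C ⊓ fixedField G)) w' ⟨f0, by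
    intro h
    apply hf0
    rw [IsScalarTower.algebraMap_apply ↥(C ⊓ fixedField G) C L, hw'.2, h, mul_zero]⟩
  have hwp := over_trans hw' hp
  obtain ⟨u, hu0, hpu⟩ := p.surj
  have hut : Transcendental k u := trans_of_ord p (by omega)
  obtain ⟨r, hr1, hr2⟩ := ratio' (K := L) hut x
  have hDu : D0 u ≠ 0 := der_ne_zero hD0 hut
  have hxr : D0 x = r * D0 u := hr1 D0
  have hr0 : r ≠ 0 := by
    intro h
    rw [h, zero_mul] at hxr
    exact hDx hxr
  have hval : ((c / (D0 x) ^ M : ↥(C ⊓ fixedField G)) : L) * ((r : L) * (u : L)) ^ M =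
      algebraMap ↥(C ⊓ fixedField G) L (c * (u / D0 u) ^ M) := by
    have h3 : c / (D0 x) ^ M * (r * u) ^ M = c * (u / D0 u) ^ M := by
      rw [hxr, div_mul_eq_mul_div, mul_div_assoc, ← div_pow]
      congr 2
      field_simp
    rw [← h3]
    change _ = ((c / (D0 x) ^ M * (r * u) ^ M : ↥(C ⊓ fixedField G)) : L)
    push_cast
    rfl
  have hord : p.ord (c * (u / D0 u) ^ M) = p.ord c + M * (1 - vo p D0) := by
    rw [p.ord_mul hc (pow_ne_zero _ (div_ne_zero hu0 hDu)), p.ord_pow, p.ord_div hu0 hDu, hpu,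
      vo_eq p hpu hD0]
  obtain ⟨h5, h6⟩ := hg p
  have h7 := h6 not_false
  rw [← hord] at h7 h5
  have hwu : w.ord (u : L) = (f * r' : ℕ) := by
    have h8 := hwp.2 u
    rw [hpu, mul_one] at h8
    exact h8
  refine ⟨(u : L), (r : L), (f * r' : ℕ) * p.ord (c * (u / D0 u) ^ M),
    fun h0 => hu0 (Subtype.ext h0), Or.inr (by rw [hwu]; positivity), fun D => hr2 D, ?_, ?_⟩
  · rw [hval]
    exact Or.inr (hwp.2 _).ge
  · refine Or.inr ⟨w', f, p, r', hw', hp, ?_⟩
    push_cast
    have h8 : (0 : ℚ) ≤ f * r' := by positivity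
    have h9 := mul_le_mul_of_nonneg_left h7 h8
    push_cast at h9
    refine le_trans (le_of_eq ?_) h9
    ring

end

end Pool.Agent.K4H25.GW
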