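import Pool.Agent.K4H25.GW.W1

/-!
The estimate for the forms on the quotient of a product `F × C 1 × ... × C q` by a finite group.
-/

set_option autoImplicit false
set_option linter.overlappingInstances false
set_option linter.unusedSectionVars false
set_option linter.unusedVariables false
set_option linter.unusedSimpArgs false
set_option maxHeartbeats 4000000
set_option synthInstance.maxHeartbeats 400000

open Polynomial FF IntermediateField Pool.Agent.W619.PQ Pool.Agent.W619.PL Pool.Agent.W619.TW
  Pool.Agent.W619.X Pool.Agent.W619.Y Pool.Agent.W603.LV Pool.Agent.K4H25.GQ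

namespace Pool.Agent.K4H25.GW

section

variable {k : Type} [Field k] {L : Type} [Field L] [Algebra k L]

/-- The weighted criterion: for all `g ≠ 1` in `G` the weighted age is at least one at the fixed
points of `g` on the product of the curves, except for `1 / ord g` if `g` is not trivial on `F`. -/
def WAge {q : ℕ} (F : IntermediateField k L) (C : Fin q → IntermediateField k L)
    (G : Subgroup (L ≃ₐ[k] L)) (δ : ∀ i, Place k ↥(C i ⊓ fixedField G) → ℚ) : Prop :=
  ∀ g ∈ G, g ≠ 1 → ∀ ζ : k, IsPrimitiveRoot ζ (orderOf g) →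
    ∀ (w : ∀ i, Place k (C i)) (p : ∀ i, Place k ↥(C i ⊓ fixedField G)) (r a : Fin q → ℕ),
      (∀ i, LiesOver (inf_le_left : C i ⊓ fixedField G ≤ C i) (w i) (p i) (r i)) →
      (∀ i, a i < orderOf g) → (∀ i, Rotates (C i) g (w i) (ζ ^ a i)) →
      (orderOf g : ℚ) ≤ ∑ i, r i * (1 - δ i (p i)) * a i ∨
        ((∃ z ∈ F, g z ≠ z) ∧ (orderOf g : ℚ) ≤ ∑ i, r i * (1 - δ i (p i)) * a i + 1)

end

section

variable {k : Type} [Field k] [CharZero k] [IsAlgClosed k] {L : Type} [Field L] [Algebra k L]

open scoped Classical in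
/-- The estimate at a place. -/
theorem place_est' {q : ℕ} (F : IntermediateField k L) (C : Fin q → IntermediateField k L)
    [hC : ∀ i, IsFF k (C i)] (G : Subgroup (L ≃ₐ[k] L))
    [Finite G] (hstF : ∀ g ∈ G, ∀ z ∈ F, g z ∈ F) (hstC : ∀ i, ∀ g ∈ G, ∀ z ∈ C i, g z ∈ C i)
    (hfF : ∀ g ∈ G, (∀ i, ∀ z ∈ C i, g z = z) → g = 1)
    {d M : ℕ} (δ : ∀ i, Place k ↥(C i ⊓ fixedField G) → ℚ)
    (hδ : ∀ i p, 0 ≤ δ i p ∧ δ i p ≤ 1)
    (hbr : ∀ i (w : Place k (C i)) p (r : ℕ),
      LiesOver (inf_le_left : C i ⊓ fixedField G ≤ C i) w p r → 1 ≤ r * (1 - δ i p))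
    (hage : WAge F C G δ)
    (D0 : ∀ i, Derivation k ↥(C i ⊓ fixedField G) ↥(C i ⊓ fixedField G))
    (c x : ∀ i, ↥(C i ⊓ fixedField G))
    (hD0 : ∀ i, D0 i ≠ 0) (hc : ∀ i, c i ≠ 0) (hx : ∀ i, Transcendental k (x i))
    (hg : ∀ i, GoodX (fun _ => False) (fun q => 1 - δ i q) M (D0 i) (c i))
    (y z : Fin d → L) (Z : Matrix (Fin d) (Fin d) L) (a : L)
    {v : Place k (fixedField G)} {w : Place k L} {e : ℕ} (h : Over w v e)
    (hz0 : ∀ c, z c ≠ 0) (hzr : ∀ c, w.Reg (z c))
    (hzF : (∀ f ∈ F, w.ord f = 0) ∨ 1 ≤ ∑ c, w.ord (z c))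
    (hZ : ∀ (D : Derivation k L L) l, D (y l) = ∑ c, Z l c * D (z c))
    (ha : w.Reg (a * Z.det ^ M))
    (D : Fin (d + q) → Derivation k L L) (hD : ∀ j, Pres w (D j)) :
    Ge w (M * ((e : ℤ) - 1)) (a * (∏ i, ((c i / (D0 i (x i)) ^ M : ↥(C i ⊓ fixedField G)) : L)) *
      (Matrix.of fun i j => D i
        ((Fin.append y (fun i => ((x i : ↥(C i ⊓ fixedField G)) : L)) :
          Fin (d + q) → L) j)).det ^ M) := by
  classical
  choose u r N hu0 hur hrx hNge hN using fun i =>
    curve_loc (C i) G (hstC i) (δ i) (D0 i) (c i) (x i) (hD0 i) (hc i) (hx i) (hg i) w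
  obtain ⟨T, hT, hT'⟩ := append_factor' y z (fun i => ((x i : ↥(C i ⊓ fixedField G)) : L)) u r Z hZ
    (fun D i => hrx i D)
  have hne : ∀ i, (Fin.append z u : Fin (d + q) → L) i ≠ 0 := append_ne' hz0 hu0
  obtain ⟨I, hIcard, hI⟩ := inertia_at G h
  have hs0 : ∀ c, 0 ≤ w.ord (z c) := fun c => (hzr c).resolve_left (hz0 c)
  set s : ℤ := ∑ c, w.ord (z c) with hs
  have hs0' : 0 ≤ s := Finset.sum_nonneg fun c _ => hs0 c
  have hlog := det_log w D hD _ hne
  have hprod : Ge w s (∏ c, z c) := Ge.prod _ _ _ fun c _ => Or.inr le_rfl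
  -- the form
  obtain ⟨Q, hQ⟩ : ∃ Q, Q = (∏ c, z c) * (Matrix.of fun j i => D j
    ((Fin.append z u : Fin (d + q) → L) i) / (Fin.append z u : Fin (d + q) → L) i).det := ⟨_, rfl⟩
  have hQlog : Ge w (s - 1) Q := by
    rw [hQ]
    have := hprod.mul hlog
    rwa [← sub_eq_add_neg] at this
  have hdet : (Matrix.of fun i j => D i ((Fin.append z u : Fin (d + q) → L) j)).det =
      Q * ∏ i, u i := by
    rw [det_dlog D _ hne, Fin.prod_univ_add, hQ]
    simp only [Fin.append_left, Fin.append_right]
    ring
  have hform : a * (∏ i, ((c i / (D0 i (x i)) ^ M : ↥(C i ⊓ fixedField G)) : L)) *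
      (Matrix.of fun i j => D i
        ((Fin.append y (fun i => ((x i : ↥(C i ⊓ fixedField G)) : L)) :
          Fin (d + q) → L) j)).det ^ M = a * Z.det ^ M *
      (∏ i, (((c i / (D0 i (x i)) ^ M : ↥(C i ⊓ fixedField G)) : L) * (r i * u i) ^ M)) *
      Q ^ M := by
    rw [det_factor D _ _ T hT', hT, hdet, Finset.prod_mul_distrib, Finset.prod_pow,
      Finset.prod_mul_distrib]
    ring
  rw [hform]
  have hB : Ge w (∑ i, N i)
      (∏ i, (((c i / (D0 i (x i)) ^ M : ↥(C i ⊓ fixedField G)) : L) * (r i * u i) ^ M)) :=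
    Ge.prod _ _ _ fun i _ => hNge i
  by_cases hall : ∀ i, ∀ z ∈ C i, w.ord z = 0
  · -- the place is trivial on all curves
    have hI1 : ∀ g ∈ I, g = 1 := by
      intro g hgI
      apply Subtype.ext
      exact hfF _ g.2 fun i => inert_triv (hI g hgI) (hstC i g g.2) (hall i)
    have he : e = 1 := by
      rw [← hIcard, (Subgroup.eq_bot_iff_forall I).2 hI1, Subgroup.card_bot]
    have hN0 : ∀ i, N i = 0 ∧ w.ord (u i) = 0 := by
      intro i
      rcases hN i with ⟨-, h1, h2⟩ | ⟨w', f, p, r', hw', hp, -⟩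
      · exact ⟨h2, h1⟩
      · exfalso
        obtain ⟨t, ht0, ht⟩ := w'.surj
        have h1 := hw'.2 t
        rw [ht, mul_one] at h1
        have h2 := hall i t t.2
        change w.ord (t : L) = f at h1
        have := hw'.1
        omega
    have hQ0 : Ge w 0 Q := by
      have h1 : Ge w 0 (Q * ∏ i, u i) := by
        rw [← hdet]
        exact ge_det w _ fun i j => hD i _ (append_reg' hzr hur j)
      have h2 : (∏ i, u i) ≠ 0 := Finset.prod_ne_zero_iff.2 fun i _ => hu0 i
      have h3 : w.ord (∏ i, u i) = 0 := by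
        rw [(Pool.Agent.R885.N.ord_prod_ne w _ _ fun i _ => hu0 i).2]
        exact Finset.sum_eq_zero fun i _ => (hN0 i).2
      rcases h1 with h1 | h1
      · exact Or.inl ((mul_eq_zero.1 h1).resolve_right h2)
      · by_cases hQ1 : Q = 0
        · exact Or.inl hQ1
        · right
          rw [w.ord_mul hQ1 h2, h3, add_zero] at h1
          exact h1
    have h5 := ((show Ge w 0 (a * Z.det ^ M) from ha).mul hB).mul (hQ0.pow M)
    refine h5.mono ?_
    rw [he, Finset.sum_eq_zero fun i _ => (hN0 i).1]
    simp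
  -- the place is not trivial on all curves
  have h5 := ((show Ge w 0 (a * Z.det ^ M) from ha).mul hB).mul (hQlog.pow M)
  refine h5.mono ?_
  have hMq : (0 : ℚ) ≤ M := by positivity
  -- the weights
  have key : (M : ℚ) * e ≤ ((∑ i, N i : ℤ) : ℚ) + M * (s : ℚ) := by
    have hNN : ∀ i, ∃ (w' : Place k (C i)) (p : Place k ↥(C i ⊓ fixedField G)) (r' f : ℕ),
        LiesOver (inf_le_left : C i ⊓ fixedField G ≤ C i) w' p r' ∧
        (((∀ z ∈ C i, w.ord z = 0) ∧ f = 0) ∨ Over w w' f) ∧
        (M : ℚ) * (f * (r' * (1 - δ i p))) ≤ N i := by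
      intro i
      rcases hN i with ⟨h1, h2, h3⟩ | ⟨w', f, p, r', hw', hp, hle⟩
      · let _ : Algebra ↥(C i ⊓ fixedField G) (C i) :=
          (inclusion (inf_le_left : C i ⊓ fixedField G ≤ C i)).toRingHom.toAlgebra
        have t1 : IsScalarTower k ↥(C i ⊓ fixedField G) (C i) :=
          IsScalarTower.of_algebraMap_eq fun c => rfl
        have f1 : FiniteDimensional ↥(C i ⊓ fixedField G) (C i) :=
          inf_finite G (C i) (hstC i) fun z => rfl
        have f2 : IsFF k ↥(C i ⊓ fixedField G) := isFF_down (E := C i)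
        obtain ⟨w', -⟩ := exists_place (k := k) (K := C i)
        obtain ⟨r', p, hp⟩ := Pool.Agent.W73.PG.PULL.exists_over' (K := ↥(C i ⊓ fixedField G)) w'
        refine ⟨w', p, r', 0, hp, Or.inl ⟨h1, rfl⟩, ?_⟩
        rw [h3]
        simp
      · exact ⟨w', p, r', f, hp, Or.inr hw', hle⟩
    choose w' p r' f hp hf hle using hNN
    have hwt : ∀ i, 1 ≤ r' i * (1 - δ i (p i)) := fun i => hbr i _ _ _ (hp i)
    have hsum : (M : ℚ) * ∑ i, (f i : ℚ) * (r' i * (1 - δ i (p i))) ≤ ((∑ i, N i : ℤ) : ℚ) := by
      rw [Finset.mul_sum]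
      push_cast
      exact Finset.sum_le_sum fun i _ => hle i
    have hmain : (e : ℚ) ≤ ∑ i, (f i : ℚ) * (r' i * (1 - δ i (p i))) + s := by
      have hsq : (0 : ℚ) ≤ s := by exact_mod_cast hs0'
      by_cases he : e = 1
      · -- unramified
        obtain ⟨i0, hi0⟩ := not_forall.1 hall
        have hf0 : Over w (w' i0) (f i0) := (hf i0).resolve_left fun h1 => hi0 h1.1
        have h1 : (1 : ℚ) ≤ f i0 := by exact_mod_cast hf0.1
        have h2 : (1 : ℚ) ≤ (f i0 : ℚ) * (r' i0 * (1 - δ i0 (p i0))) := by
          have := hwt i0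
          nlinarith
        have h3 := Finset.single_le_sum (f := fun i => (f i : ℚ) * (r' i * (1 - δ i (p i))))
          (fun i _ => by
            have := hwt i
            positivity) (Finset.mem_univ i0)
        rw [he]
        push_cast
        linarith
      · -- ramified
        obtain ⟨g, hgI, hord, ζ, hζ, hrot⟩ := exists_rot_generator w I hI
        rw [hIcard] at hord hζ
        have he1 : 1 ≤ e := h.1
        have hg1 : (g : L ≃ₐ[k] L) ≠ 1 := by
          intro h1
          rw [h1, orderOf_one] at hord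
          exact he hord.symm
        have hgin := hI g hgI
        rw [← hord] at hζ
        have hage' := hage g g.2 hg1 ζ hζ w' p r' (fun i => f i % e) hp
          (fun i => by
            rw [hord]
            exact Nat.mod_lt _ he1) (by
          intro i t z ht hz
          have hcoe : ((z - algebraMap k (C i) (ζ ^ (f i % e)) * t : C i) : L) =
              (g : L ≃ₐ[k] L) t - algebraMap k L (ζ ^ (f i % e)) * t := by
            rw [hz]
            rfl
          have ht0 : (t : L) ≠ 0 := by
            intro h0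
            have h1 : t = 0 := Subtype.ext h0
            rw [h1, (w' i).ord_zero] at ht
            omega
          rcases hf i with ⟨h1, h2⟩ | h1
          · left
            apply Subtype.ext
            rw [hcoe, inert_triv hgin (hstC i g g.2) h1 t t.2, h2, Nat.zero_mod, pow_zero, map_one,
              one_mul, sub_self]
            rfl
          · have h2 : w.ord (t : L) = f i := by
              have := h1.2 t
              rw [ht, mul_one] at this
              exact this
            have h3 := hrot (t : L) ht0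
            rw [h2] at h3
            have h4 : ζ ^ (f i : ℤ) = ζ ^ (f i % e) := by
              rw [zpow_natCast]
              have h5 := Nat.div_add_mod (f i) e
              have h6 : ζ ^ e = 1 := by
                rw [← hord]
                exact hζ.pow_eq_one
              conv_lhs => rw [← h5]
              rw [pow_add, pow_mul, h6, one_pow, one_mul]
            rw [h4, ← hcoe] at h3
            rcases h3 with h3 | h3
            · exact Or.inl (Subtype.ext h3)
            · right
              have h5 := h1.2 (z - algebraMap k (C i) (ζ ^ (f i % e)) * t : C i)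
              change w.ord ((z - algebraMap k (C i) (ζ ^ (f i % e)) * t : C i) : L) = _ at h5
              rw [h5] at h3
              have h6 : (1 : ℤ) ≤ f i := by exact_mod_cast h1.1
              by_contra hcon
              push Not at hcon
              nlinarith)
        have hle' : ∑ i, (r' i : ℚ) * (1 - δ i (p i)) * ((f i % e : ℕ) : ℚ) ≤
            ∑ i, (f i : ℚ) * (r' i * (1 - δ i (p i))) := by
          refine Finset.sum_le_sum fun i _ => ?_
          have h1 : ((f i % e : ℕ) : ℚ) ≤ f i := by exact_mod_cast Nat.mod_le _ _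
          have h2 := hwt i
          nlinarith
        rw [hord] at hage'
        rcases hage' with h1 | ⟨⟨z0, hz0F, hz0⟩, h1⟩
        · linarith
        · have h2 : 1 ≤ s := by
            rcases hzF with h3 | h3
            · exact absurd (inert_triv hgin (hstF g g.2) h3 z0 hz0F) hz0
            · exact h3
          have h3 : (1 : ℚ) ≤ s := by exact_mod_cast h2
          linarith
    have h6 := mul_le_mul_of_nonneg_left hmain hMq
    rw [mul_add] at h6
    linarith
  have key' : (M : ℤ) * e ≤ (∑ i, N i) + M * s := by exact_mod_cast key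
  push_cast
  linarith

end

end Pool.Agent.K4H25.GW
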