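import Pool.Agent.K4H25.GW.W2

/-!
The pluricanonical forms on the quotient of `F × C 1 × ... × C q`.
-/

set_option autoImplicit false
set_option linter.overlappingInstances false
set_option linter.unusedSectionVars false
set_option linter.unusedVariables false
set_option linter.unusedSimpArgs false
set_option maxHeartbeats 4000000
set_option synthInstance.maxHeartbeats 400000

open Polynomial FF IntermediateField Pool.Agent.W619.PQ Pool.Agent.W619.PL Pool.Agent.W619.TW
  Pool.Agent.W619.X Pool.Agent.W619.Y Pool.Agent.W603.LV Pool.Agent.Y174 Pool.Agent.K4H25.GQ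

namespace Pool.Agent.K4H25.GW

section

variable {k : Type} [Field k] [CharZero k] [IsAlgClosed k]
  {E0 E : Type} [Field E0] [Field E] [Algebra k E0] [Algebra k E] [Algebra E0 E]
  [IsScalarTower k E0 E] [IsFF k E0] [IsFF k E] [FiniteDimensional E0 E]

/-- A curve is not rational if there is a good form on its quotient. -/
theorem canDeg_of_form {δ : Place k E0 → ℚ}
    (hbr : ∀ (w : Place k E) q (e : ℕ), Over w q e → 1 ≤ e * (1 - δ q))
    {m : ℕ} (hm : 1 ≤ m) {D0 : Derivation k E0 E0} (hD0 : D0 ≠ 0) {c : E0} (hc : c ≠ 0)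
    (hg : GoodX (fun _ => False) (fun q => 1 - δ q) m D0 c) : 0 ≤ canDeg k E := by
  classical
  obtain ⟨D, hDne, hDext⟩ := exists_ext (E := E) D0 hD0
  have hfE : ∀ w : Place k E, m * vo w D ≤ w.ord (algebraMap E0 E c) := by
    intro w
    obtain ⟨e, q, hq⟩ := Pool.Agent.W73.PG.PULL.exists_over' (K := E0) w
    rw [vo_over hq hD0 hDne hDext, hq.2]
    have h1 := (hg q).2 not_false
    have h2 := hbr w q e hq
    have h3 : (0 : ℚ) ≤ e := by positivity
    have h4 : (m : ℚ) * 1 ≤ m * (e * (1 - δ q)) := mul_le_mul_of_nonneg_left h2 (by positivity)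
    have h5 := mul_le_mul_of_nonneg_left h1 h3
    push_cast at h5
    have h6 : (m : ℚ) ≤ e * ((q.ord c : ℚ) + m * (1 - vo q D0)) := by
      push_cast
      linarith
    have h7 : (m : ℤ) ≤ e * (q.ord c + m * (1 - vo q D0)) := by exact_mod_cast h6
    linarith
  set g : E := algebraMap E0 E c with hgdef
  set T : Finset (Place k E) := (finite_support (k := k) g).toFinset ∪ (vo_finite hDne).toFinset
  have hs1 : ∑ q ∈ T, q.ord g = 0 := sum_ord_finset g T fun q hq =>
    Finset.mem_union_left _ ((finite_support (k := k) g).mem_toFinset.2 hq)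
  have hs2 : ∑ q ∈ T, vo q D = - canDeg k E := canDeg_finset hDne T fun q hq =>
    Finset.mem_union_right _ ((vo_finite hDne).mem_toFinset.2 hq)
  have h1 := Finset.sum_le_sum fun q (_ : q ∈ T) => hfE q
  rw [hs1, ← Finset.mul_sum, hs2] at h1
  have h2 : (1 : ℤ) ≤ m := by exact_mod_cast hm
  nlinarith

end

section

variable {k : Type} [Field k] [CharZero k] [IsAlgClosed k] {L : Type} [Field L] [Algebra k L]

theorem isFF_quo (C : IntermediateField k L) [hC : IsFF k C] (G : Subgroup (L ≃ₐ[k] L))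
    [Finite G] (hstC : ∀ g ∈ G, ∀ z ∈ C, g z ∈ C) : IsFF k ↥(C ⊓ fixedField G) := by
  let _ : Algebra ↥(C ⊓ fixedField G) C :=
    (inclusion (inf_le_left : C ⊓ fixedField G ≤ C)).toRingHom.toAlgebra
  have t1 : IsScalarTower k ↥(C ⊓ fixedField G) C := IsScalarTower.of_algebraMap_eq fun c => rfl
  have f1 : FiniteDimensional ↥(C ⊓ fixedField G) C := inf_finite G C hstC fun z => rfl
  exact isFF_down (E := C)

open scoped Classical in
/-- Forms on the quotient. -/
theorem kod_of_forms' {q : ℕ} (F : IntermediateField k L) (C : Fin q → IntermediateField k L)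
    [hC : ∀ i, IsFF k (C i)] (G : Subgroup (L ≃ₐ[k] L))
    [Finite G] (hstF : ∀ g ∈ G, ∀ z ∈ F, g z ∈ F) (hstC : ∀ i, ∀ g ∈ G, ∀ z ∈ C i, g z ∈ C i)
    (hfF : ∀ g ∈ G, (∀ i, ∀ z ∈ C i, g z = z) → g = 1)
    {d : ℕ} (hsup : F ⊔ ⨆ i, C i = ⊤) (hn : Algebra.trdeg k L = (d + q : ℕ))
    (hd : Algebra.trdeg k F = d)
    (hessF : Algebra.EssFiniteType k F) (hessL : Algebra.EssFiniteType k L)
    (δ : ∀ i, Place k ↥(C i ⊓ fixedField G) → ℚ)
    (hδ : ∀ i p, 0 ≤ δ i p ∧ δ i p ≤ 1)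
    (hbr : ∀ i (w : Place k (C i)) p (r : ℕ),
      LiesOver (inf_le_left : C i ⊓ fixedField G ≤ C i) w p r → 1 ≤ r * (1 - δ i p))
    (hage : WAge F C G δ)
    (D0 : ∀ i, Derivation k ↥(C i ⊓ fixedField G) ↥(C i ⊓ fixedField G)) (hD0 : ∀ i, D0 i ≠ 0)
    {A m1 m2 : ℕ} (hm1 : 1 ≤ m1) (hm2 : 1 ≤ m2)
    (η : Fin (A + 1) → (Fin d → Derivation k F F) → F)
    (hη : ∀ l, PairSec k F d (fun _ => 0) {1} m1 0 (η l))
    (cc : Fin (A + 1) → ∀ i, ↥(C i ⊓ fixedField G)) (hcc : ∀ l i, cc l i ≠ 0)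
    (hg : ∀ l i, GoodX (fun _ => False) (fun q => 1 - δ i q) m2 (D0 i) (cc l i))
    (y : Fin d → F) (hy : IsTranscendenceBasis k y) (E : Fin d → Derivation k F F)
    (hE : ∀ i j, E i (y j) = if i = j then 1 else 0) (hne : ∀ l, η l E ≠ 0)
    (hind : AlgebraicIndependent k (fun l : Fin A =>
      (((η l.succ E : F) : L) ^ m2 * ∏ i, ((cc l.succ i : ↥(C i ⊓ fixedField G)) : L) ^ m1) /
        (((η 0 E : F) : L) ^ m2 * ∏ i, ((cc 0 i : ↥(C i ⊓ fixedField G)) : L) ^ m1))) :
    PairKod k (fixedField G) (d + q) (fun _ => 0) A := by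
  have hFFB : ∀ i, IsFF k ↥(C i ⊓ fixedField G) := fun i => isFF_quo (C i) G (hstC i)
  have hx0 : ∀ i, ∃ x : ↥(C i ⊓ fixedField G), Transcendental k x := fun i =>
    IsFF.exists_transcendental (k := k) (K := ↥(C i ⊓ fixedField G))
  choose x hx using hx0
  have hDx : ∀ i, D0 i (x i) ≠ 0 := fun i => der_ne_zero (hD0 i) (hx i)
  have halgK := Pool.Agent.W721.PG.EFF2.alg_fixed G
  have halg : Algebra.IsAlgebraic ↥(F ⊔ ⨆ i, C i) L := by
    rw [hsup]
    exact ⟨fun z => isAlgebraic_algebraMap (⟨z, trivial⟩ : (⊤ : IntermediateField k L))⟩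
  -- coordinates
  have hbasis : IsTranscendenceBasis k
      (Fin.append (fun l => (y l : L)) (fun i => ((x i : ↥(C i ⊓ fixedField G)) : L)) :
        Fin (d + q) → L) := by
    have h := Pool.Agent.W672.PG.basis_mix F C halg hn
      (Fintype.card_fin d) y hy (fun i => ⟨(x i : L), (x i).2.1⟩)
      (fun i => Pool.Agent.W303.PG.trans_sub (C i) (x i).2.1 (transcendental_map' (hx i)))
    refine (isTranscendenceBasis_equiv' finSumFinEquiv ?_).1 h
    funext z
    rcases z with z | z <;> simp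
  obtain ⟨EL, hEL⟩ := Pool.Agent.W636.PG.exists_duals k L (d + q) _ hbasis
  -- the places below
  choose e v hv using fun w : Place k L =>
    Pool.Agent.W73.PG.PULL.exists_over' (K := fixedField G) w
  refine Pool.Agent.R885.N.w0_desc hn hessL G (fun _ => 0) (fun w => 1 - (e w : ℝ)) ?_ ?_
  · intro v' hv' w e' hw
    obtain ⟨h2, h3⟩ := Pool.Agent.R885.N.over_uniq hw (hv w)
    beta_reduce
    rw [h2]
    linarith
  -- the forms
  have hM : 1 ≤ m1 * m2 := Nat.mul_pos hm1 hm2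
  obtain ⟨Ω, hΩ⟩ : ∃ Ω : Fin (A + 1) → (Fin (d + q) → Derivation k L L) → L, Ω = fun l D =>
      (((η l E : F) : L) ^ m2 * (∏ i, ((((cc l i) ^ m1 / (D0 i (x i)) ^ (m1 * m2) :
        ↥(C i ⊓ fixedField G))) : L))) *
      (Matrix.of fun i j => D i
        ((Fin.append (fun l => (y l : L)) (fun i => ((x i : ↥(C i ⊓ fixedField G)) : L)) :
          Fin (d + q) → L) j)).det ^ (m1 * m2) := ⟨_, rfl⟩
  have hdet : (Matrix.of fun i j => EL i
        ((Fin.append (fun l => (y l : L)) (fun i => ((x i : ↥(C i ⊓ fixedField G)) : L)) :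
          Fin (d + q) → L) j)).det = 1 := by
    have h1 : (Matrix.of fun i j => EL i
        ((Fin.append (fun l => (y l : L)) (fun i => ((x i : ↥(C i ⊓ fixedField G)) : L)) :
          Fin (d + q) → L) j)) = 1 := by
      ext a b
      rw [Matrix.of_apply, Matrix.one_apply]
      exact hEL a b
    rw [h1, Matrix.det_one]
  have hcoe : ∀ l i, ((((cc l i) ^ m1 / (D0 i (x i)) ^ (m1 * m2) : ↥(C i ⊓ fixedField G))) : L) =
      ((cc l i : ↥(C i ⊓ fixedField G)) : L) ^ m1 /
        ((D0 i (x i) : ↥(C i ⊓ fixedField G)) : L) ^ (m1 * m2) := by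
    intro l i
    push_cast
    rfl
  have hval : ∀ l, Ω l EL = ((η l E : F) : L) ^ m2 *
      ((∏ i, ((cc l i : ↥(C i ⊓ fixedField G)) : L) ^ m1) /
        ∏ i, ((D0 i (x i) : ↥(C i ⊓ fixedField G)) : L) ^ (m1 * m2)) := by
    intro l
    rw [hΩ]
    beta_reduce
    rw [hdet, one_pow, mul_one, Finset.prod_congr rfl fun i _ => hcoe l i, Finset.prod_div_distrib]
  have hDxL : (∏ i, ((D0 i (x i) : ↥(C i ⊓ fixedField G)) : L) ^ (m1 * m2)) ≠ 0 :=
    Finset.prod_ne_zero_iff.2 fun i _ => pow_ne_zero _ fun h => hDx i (Subtype.ext h)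
  have hccL : ∀ l, (∏ i, ((cc l i : ↥(C i ⊓ fixedField G)) : L) ^ m1) ≠ 0 := fun l =>
    Finset.prod_ne_zero_iff.2 fun i _ => pow_ne_zero _ fun h => hcc l i (Subtype.ext h)
  have hneL : ∀ l, ((η l E : F) : L) ≠ 0 := fun l h => hne l (Subtype.ext h)
  refine ⟨m1 * m2, hM, Ω, fun l => ⟨?_, ?_⟩, EL, fun l => ?_, ?_⟩
  · rw [hΩ]
    exact pluri_det _ _ _
  · intro w hw D hD
    obtain ⟨Z, z, hz0, hzr, hzF, hZ, hZr⟩ := f_loc F hd hn
      (fun y hy => Pool.Agent.W824.PG.fin_adj hessF y hy) y E hy hE w hw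
    have h1 := hZr m1 (η l) (hη l).1 (fun u hu D' hD' => by
      rcases (hη l).2 u hu D' hD' with h2 | ⟨s, hs, hs0, h2⟩
      · exact Or.inl h2
      · right
        simp only [Nat.cast_zero, zero_mul, mul_zero, sub_zero] at h2
        exact_mod_cast h2)
    have h2 : w.Reg (((η l E : F) : L) ^ m2 * Z.det ^ (m1 * m2)) := by
      have h3 : Ge w (m2 * 0) ((((η l E : F) : L) * Z.det ^ m1) ^ m2) :=
        (show Ge w 0 _ from h1).pow m2
      rw [mul_pow, ← pow_mul, mul_zero] at h3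
      exact h3
    have h3 := place_est' F C G hstF hstC hfF δ hδ hbr hage D0 (fun i => (cc l i) ^ m1) x hD0
      (fun i => pow_ne_zero _ (hcc l i)) hx (fun i => (hg l i).pow m1) (fun l => (y l : L)) z Z
      (((η l E : F) : L) ^ m2) (hv w) hz0 hzr hzF hZ h2 D hD
    rw [hΩ]
    rcases h3 with h3 | h3
    · exact Or.inl h3
    · right
      refine ⟨1, Finset.mem_singleton_self _, one_ne_zero, ?_⟩
      have h4 : (((m1 * m2 : ℕ) : ℤ) * ((e w : ℤ) - 1) : ℤ) ≤ w.ord
        (((η l E : F) : L) ^ m2 * (∏ i, ((((cc l i) ^ m1 / (D0 i (x i)) ^ (m1 * m2) :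
          ↥(C i ⊓ fixedField G))) : L)) *
          (Matrix.of fun i j => D i ((Fin.append (fun l => (y l : L))
            (fun i => ((x i : ↥(C i ⊓ fixedField G)) : L)) :
              Fin (d + q) → L) j)).det ^ (m1 * m2)) := h3
      have h5 : ((((m1 * m2 : ℕ) : ℤ) * ((e w : ℤ) - 1) : ℤ) : ℝ) ≤ ((w.ord
        (((η l E : F) : L) ^ m2 * (∏ i, ((((cc l i) ^ m1 / (D0 i (x i)) ^ (m1 * m2) :
          ↥(C i ⊓ fixedField G))) : L)) *
          (Matrix.of fun i j => D i ((Fin.append (fun l => (y l : L))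
            (fun i => ((x i : ↥(C i ⊓ fixedField G)) : L)) :
              Fin (d + q) → L) j)).det ^ (m1 * m2)) : ℤ) : ℝ) := by exact_mod_cast h4
      push_cast at h5 ⊢
      refine le_trans (le_of_eq ?_) h5
      ring
  · rw [hval]
    exact mul_ne_zero (pow_ne_zero _ (hneL l)) (div_ne_zero (hccL l) hDxL)
  · have h1 : (fun l : Fin A => Ω l.succ EL / Ω 0 EL) = fun l : Fin A =>
      (((η l.succ E : F) : L) ^ m2 * ∏ i, ((cc l.succ i : ↥(C i ⊓ fixedField G)) : L) ^ m1) /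
        (((η 0 E : F) : L) ^ m2 * ∏ i, ((cc 0 i : ↥(C i ⊓ fixedField G)) : L) ^ m1) := by
      funext l
      rw [hval, hval]
      have h3 := pow_ne_zero m2 (hneL 0)
      have h4 := hccL 0
      rw [← mul_div_assoc, ← mul_div_assoc, div_div_div_cancel_right₀ hDxL]
    rw [h1]
    exact hind

end

end Pool.Agent.K4H25.GW
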