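import Pool.Agent.K4H25.GW.W3

/-!
Kodaira dimension of the quotient of `F × C 1 × ... × C q`: the lower bound.
-/

set_option autoImplicit false
set_option linter.overlappingInstances false
set_option linter.unusedSectionVars false
set_option linter.unusedVariables false
set_option linter.unusedSimpArgs false
set_option maxHeartbeats 4000000
set_option synthInstance.maxHeartbeats 400000

open Polynomial FF IntermediateField Pool.Agent.W619.PQ Pool.Agent.W619.PL Pool.Agent.W619.TW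
  Pool.Agent.W619.X Pool.Agent.W619.Y Pool.Agent.W603.LV Pool.Agent.Y174 Pool.Agent.K4H25.GQ

namespace Pool.Agent.K4H25.GW

section

variable {k : Type} [Field k] [CharZero k] [IsAlgClosed k] {L : Type} [Field L] [Algebra k L]

/-- The positivity of the divisor `K + δ` on the quotient of the curve `C`: its degree is positive,
or it is nonnegative and `C` is elliptic. -/
def WDeg (C : IntermediateField k L) (G : Subgroup (L ≃ₐ[k] L))
    (δ : Place k ↥(C ⊓ fixedField G) → ℚ) : Prop :=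
  ∃ T : Finset (Place k ↥(C ⊓ fixedField G)), (∀ q, q ∉ T → δ q = 0) ∧
    ((0 : ℚ) < canDeg k ↥(C ⊓ fixedField G) + ∑ q ∈ T, δ q ∨
      ((0 : ℚ) ≤ canDeg k ↥(C ⊓ fixedField G) + ∑ q ∈ T, δ q ∧ canDeg k C = 0))

/-- The forms on the quotient of one curve. -/
theorem data_one (C : IntermediateField k L) [hC : IsFF k C] (G : Subgroup (L ≃ₐ[k] L))
    [Finite G] (hstC : ∀ g ∈ G, ∀ z ∈ C, g z ∈ C)
    (δ : Place k ↥(C ⊓ fixedField G) → ℚ) (hδ : ∀ p, 0 ≤ δ p ∧ δ p ≤ 1)
    (hbr : ∀ (w : Place k C) p (r : ℕ),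
      LiesOver (inf_le_left : C ⊓ fixedField G ≤ C) w p r → 1 ≤ r * (1 - δ p))
    (hdeg : WDeg C G δ) :
    0 ≤ canDeg k C ∧ ∃ (m : ℕ) (D0 : Derivation k ↥(C ⊓ fixedField G) ↥(C ⊓ fixedField G))
      (c c' : ↥(C ⊓ fixedField G)), 1 ≤ m ∧ D0 ≠ 0 ∧ c ≠ 0 ∧ c' ≠ 0 ∧
      GoodX (fun _ => False) (fun q => 1 - δ q) m D0 c ∧
      GoodX (fun _ => False) (fun q => 1 - δ q) m D0 c' ∧
      (canDeg k C ≠ 0 → Transcendental k (c' / c)) := by
  have hFFB : IsFF k ↥(C ⊓ fixedField G) := isFF_quo C G hstC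
  let _ : Algebra ↥(C ⊓ fixedField G) C :=
    (inclusion (inf_le_left : C ⊓ fixedField G ≤ C)).toRingHom.toAlgebra
  have t1 : IsScalarTower k ↥(C ⊓ fixedField G) C := IsScalarTower.of_algebraMap_eq fun c => rfl
  have f1 : FiniteDimensional ↥(C ⊓ fixedField G) C := inf_finite G C hstC fun z => rfl
  obtain ⟨T, hT, hpos⟩ := hdeg
  rcases hpos with hpos | ⟨hpos, hell⟩
  · obtain ⟨m, D0, c, c', h1, h2, h3, h4, h5, h6, h7⟩ := two_goodX (k := k)
      (E0 := ↥(C ⊓ fixedField G)) (fun _ => False) δ T hT hδ hpos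
    exact ⟨canDeg_of_form (E := C) hbr h1 h2 h3 h5, m, D0, c, c', h1, h2, h3, h4, h5, h6,
      fun _ => h7⟩
  · obtain ⟨m, D0, c, h1, h2, h3, h4⟩ := one_goodX (k := k)
      (E0 := ↥(C ⊓ fixedField G)) (fun _ => False) δ T hT hδ hpos
    exact ⟨hell.ge, m, D0, c, c, h1, h2, h3, h3, h4, h4, fun h => absurd hell h⟩

/-- The lower bound for the Kodaira dimension. -/
theorem step_kod' {q : ℕ} (F : IntermediateField k L) (C : Fin q → IntermediateField k L)
    [hC : ∀ i, IsFF k (C i)] (G : Subgroup (L ≃ₐ[k] L))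
    [Finite G] (hstF : ∀ g ∈ G, ∀ z ∈ F, g z ∈ F) (hstC : ∀ i, ∀ g ∈ G, ∀ z ∈ C i, g z ∈ C i)
    (hfF : ∀ g ∈ G, (∀ i, ∀ z ∈ C i, g z = z) → g = 1)
    {d : ℕ} (hsup : F ⊔ ⨆ i, C i = ⊤) (hn : Algebra.trdeg k L = (d + q : ℕ))
    (hd : Algebra.trdeg k F = d)
    (hessF : Algebra.EssFiniteType k F) (hessL : Algebra.EssFiniteType k L)
    (δ : ∀ i, Place k ↥(C i ⊓ fixedField G) → ℚ)
    (hδ : ∀ i p, 0 ≤ δ i p ∧ δ i p ≤ 1)
    (hbr : ∀ i (w : Place k (C i)) p (r : ℕ),
      LiesOver (inf_le_left : C i ⊓ fixedField G ≤ C i) w p r → 1 ≤ r * (1 - δ i p))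
    (hage : WAge F C G δ) (hdeg : ∀ i, WDeg (C i) G (δ i)) {A : ℕ}
    (hkod : PairKod k F d (fun _ => 0) A) :
    PairKod k (fixedField G) (d + q) (fun _ => 0) (A + {i | canDeg k (C i) ≠ 0}.ncard) := by
  classical
  obtain ⟨m1, hm1, η, hη, D, hD0, hDi⟩ := hkod
  obtain ⟨y, hy⟩ := Pool.Agent.W636.PG.exists_basis k F d hd
  obtain ⟨E, hE⟩ := Pool.Agent.W636.PG.exists_duals k F d y hy
  have hval : ∀ l, η l D = (Matrix.of fun i j => D i (y j)).det ^ m1 * η l E := fun l =>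
    Pool.Agent.W636.PG.form_eq k F d m1 y hy E hE (η l) (hη l).1 D
  have hdet0 : (Matrix.of fun i j => D i (y j)).det ^ m1 ≠ 0 := by
    intro h0
    apply hD0 0
    rw [hval, h0, zero_mul]
  have hE0 : ∀ l, η l E ≠ 0 := by
    intro l h0
    apply hD0 l
    rw [hval, h0, mul_zero]
  have hEi : AlgebraicIndependent k (fun l : Fin A => η l.succ E / η 0 E) := by
    have h1 : (fun l : Fin A => η l.succ D / η 0 D) = fun l : Fin A => η l.succ E / η 0 E := by
      funext l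
      rw [hval, hval, mul_div_mul_left _ _ hdet0]
    rwa [h1] at hDi
  have hneL : ∀ l, ((η l E : F) : L) ≠ 0 := fun l h => hE0 l (Subtype.ext h)
  have hFFB : ∀ i, IsFF k ↥(C i ⊓ fixedField G) := fun i => isFF_quo (C i) G (hstC i)
  -- the forms on the curves
  choose hcan m D0 c1 c1' hm hD0' hc1 hc1' hg1 hg1' htr1 using fun i =>
    data_one (C i) G (hstC i) (δ i) (hδ i) (hbr i) (hdeg i)
  obtain ⟨m2, hm2def⟩ : ∃ m2, m2 = ∏ i, m i := ⟨_, rfl⟩
  have hm2 : 1 ≤ m2 := by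
    rw [hm2def]
    exact Nat.pos_of_ne_zero (Finset.prod_ne_zero_iff.2 fun i _ => by
      have := hm i
      omega)
  have hn1 : ∀ i, ∃ ν : ℕ, 1 ≤ ν ∧ ν * m i = m2 := by
    intro i
    refine ⟨∏ j ∈ Finset.univ.erase i, m j, Nat.pos_of_ne_zero
      (Finset.prod_ne_zero_iff.2 fun i _ => by
        have := hm i
        omega), ?_⟩
    rw [hm2def, mul_comm]
    exact Finset.mul_prod_erase Finset.univ m (Finset.mem_univ i)
  choose ν hν hνm using hn1
  obtain ⟨c, hc⟩ : ∃ c : ∀ i, ↥(C i ⊓ fixedField G), c = fun i => c1 i ^ ν i := ⟨_, rfl⟩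
  obtain ⟨c', hc'⟩ : ∃ c' : ∀ i, ↥(C i ⊓ fixedField G), c' = fun i => c1' i ^ ν i := ⟨_, rfl⟩
  have hcne : ∀ i, c i ≠ 0 := fun i => by
    rw [hc]
    exact pow_ne_zero _ (hc1 i)
  have hcne' : ∀ i, c' i ≠ 0 := fun i => by
    rw [hc']
    exact pow_ne_zero _ (hc1' i)
  have hgc : ∀ i, GoodX (fun _ => False) (fun q => 1 - δ i q) m2 (D0 i) (c i) := by
    intro i
    have := (hg1 i).pow (ν i)
    rw [hνm i] at this
    rw [hc]
    exact this
  have hgc' : ∀ i, GoodX (fun _ => False) (fun q => 1 - δ i q) m2 (D0 i) (c' i) := by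
    intro i
    have := (hg1' i).pow (ν i)
    rw [hνm i] at this
    rw [hc']
    exact this
  have htr : ∀ i, canDeg k (C i) ≠ 0 → Transcendental k (c' i / c i) := by
    intro i hi
    rw [hc, hc']
    beta_reduce
    rw [← div_pow]
    exact (htr1 i hi).pow (by have := hν i; omega)
  -- the positive curves
  obtain ⟨B, hB⟩ : ∃ B, B = {i : Fin q | canDeg k (C i) ≠ 0}.ncard := ⟨_, rfl⟩
  rw [← hB]
  obtain ⟨σ, hσinj, hσ⟩ : ∃ σ : Fin B → Fin q, Function.Injective σ ∧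
      ∀ b, canDeg k (C (σ b)) ≠ 0 := by
    have h1 : Nat.card {i : Fin q // canDeg k (C i) ≠ 0} = B := by
      rw [hB]
      rfl
    let φ := (Finite.equivFinOfCardEq h1).symm
    exact ⟨fun b => (φ b : Fin q), fun a b h => φ.injective (Subtype.ext h), fun b => (φ b).2⟩
  obtain ⟨η', hη'⟩ : ∃ η' : Fin (A + B + 1) → (Fin d → Derivation k F F) → F,
      η' = Fin.cons (α := fun _ => (Fin d → Derivation k F F) → F) (η 0)
        (Fin.append (fun a : Fin A => η a.succ) (fun _ : Fin B => η 0)) := ⟨_, rfl⟩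
  obtain ⟨cc, hcc⟩ : ∃ cc : Fin (A + B + 1) → ∀ i, ↥(C i ⊓ fixedField G),
      cc = Fin.cons (α := fun _ => ∀ i, ↥(C i ⊓ fixedField G)) c
        (Fin.append (fun _ : Fin A => c)
          (fun b : Fin B => Function.update c (σ b) (c' (σ b)))) := ⟨_, rfl⟩
  have e0 : η' 0 = η 0 ∧ cc 0 = c := by
    rw [hη', hcc]
    exact ⟨rfl, rfl⟩
  have eA : ∀ a : Fin A, η' (Fin.castAdd B a).succ = η a.succ ∧ cc (Fin.castAdd B a).succ = c := by
    intro a
    rw [hη', hcc, Fin.cons_succ, Fin.cons_succ, Fin.append_left, Fin.append_left]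
    exact ⟨rfl, rfl⟩
  have eB : ∀ b : Fin B, η' (Fin.natAdd A b).succ = η 0 ∧
      cc (Fin.natAdd A b).succ = Function.update c (σ b) (c' (σ b)) := by
    intro b
    rw [hη', hcc, Fin.cons_succ, Fin.cons_succ, Fin.append_right, Fin.append_right]
    exact ⟨rfl, rfl⟩
  have hall : ∀ P : ((Fin d → Derivation k F F) → F) → (∀ i, ↥(C i ⊓ fixedField G)) → Prop,
      (∀ a, P (η a) c) → (∀ b, P (η 0) (Function.update c (σ b) (c' (σ b)))) →
      ∀ l, P (η' l) (cc l) := by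
    intro P h1 h2 l
    refine Fin.cases ?_ (fun l => ?_) l
    · rw [e0.1, e0.2]; exact h1 0
    · refine Fin.addCases (fun a => ?_) (fun b => ?_) l
      · rw [(eA a).1, (eA a).2]; exact h1 _
      · rw [(eB b).1, (eB b).2]; exact h2 b
  have hupd : ∀ (P : ∀ i, ↥(C i ⊓ fixedField G) → Prop) (b : Fin B), (∀ i, P i (c i)) →
      (∀ i, P i (c' i)) → ∀ i, P i (Function.update c (σ b) (c' (σ b)) i) := by
    intro P b h1 h2 i
    by_cases hi : i = σ b
    · subst hi
      rw [Function.update_self]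
      exact h2 _
    · rw [Function.update_of_ne hi]
      exact h1 i
  refine kod_of_forms' F C G hstF hstC hfF hsup hn hd hessF hessL δ hδ hbr hage D0 hD0' hm1 hm2
    η' (hall (fun a _ => PairSec k F d (fun _ => 0) {1} m1 0 a) (fun a => hη a) fun b => hη 0)
    cc (hall (fun _ c => ∀ i, c i ≠ 0) (fun _ => hcne) fun b => hupd (fun i z => z ≠ 0) b hcne hcne')
    (hall (fun _ c => ∀ i, GoodX (fun _ => False) (fun q => 1 - δ i q) m2 (D0 i) (c i))
      (fun _ => hgc) fun b => hupd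
        (fun i z => GoodX (fun _ => False) (fun q => 1 - δ i q) m2 (D0 i) z) b hgc hgc')
    y hy E hE (hall (fun a _ => a E ≠ 0) (fun a => hE0 a) fun b => hE0 0) ?_
  -- independence
  have halg : Algebra.IsAlgebraic ↥(F ⊔ ⨆ i, C i) L := by
    rw [hsup]
    exact ⟨fun z => isAlgebraic_algebraMap (⟨z, trivial⟩ : (⊤ : IntermediateField k L))⟩
  have hx : ∀ i, ∃ x : C i, Transcendental k x ∧ (canDeg k (C i) ≠ 0 →
      (x : L) = ((c' i / c i : ↥(C i ⊓ fixedField G)) : L)) := by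
    intro i
    by_cases hi : canDeg k (C i) ≠ 0
    · exact ⟨⟨((c' i / c i : ↥(C i ⊓ fixedField G)) : L), (c' i / c i).2.1⟩,
        Pool.Agent.W303.PG.trans_sub (C i) (c' i / c i).2.1 (transcendental_map' (htr i hi)),
        fun _ => rfl⟩
    · obtain ⟨x, hx⟩ := IsFF.exists_transcendental (k := k) (K := C i)
      exact ⟨x, hx, fun h => absurd h hi⟩
  choose x hx hxc using hx
  have h1 := Pool.Agent.W672.PG.indep_mix F C halg hn hd
    (fun l : Fin A => η l.succ E / η 0 E) hEi x hx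
  have h2 := h1.comp (Sum.map id σ) (Function.Injective.sumMap Function.injective_id hσinj)
  have h3 := indep_pow h2 (Sum.elim (fun _ => m2) (fun _ => m1))
    (by rintro (i | i) <;> simp [hm1, hm2])
  have h4 := h3.comp finSumFinEquiv.symm finSumFinEquiv.symm.injective
  have hccL : (∏ i, ((c i : ↥(C i ⊓ fixedField G)) : L) ^ m1) ≠ 0 :=
    Finset.prod_ne_zero_iff.2 fun i _ => pow_ne_zero _ fun h => hcne i (Subtype.ext h)
  have h5 := pow_ne_zero m2 (hneL 0)
  convert h4 using 1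
  funext l
  rw [e0.1, e0.2]
  refine Fin.addCases (fun a => ?_) (fun b => ?_) l
  · rw [(eA a).1, (eA a).2]
    simp only [Function.comp_apply, finSumFinEquiv_symm_apply_castAdd, Sum.elim_inl, Sum.map_inl,
      id_eq]
    rw [mul_div_mul_right _ _ hccL, ← div_pow]
    rfl
  · rw [(eB b).1, (eB b).2]
    simp only [Function.comp_apply, finSumFinEquiv_symm_apply_natAdd, Sum.elim_inr, Sum.map_inr]
    rw [mul_div_mul_left _ _ h5, hxc (σ b) (hσ b)]
    have h6 : ∏ i, ((Function.update c (σ b) (c' (σ b)) i : ↥(C i ⊓ fixedField G)) : L) ^ m1 =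
        ((c' (σ b) : ↥(C (σ b) ⊓ fixedField G)) : L) ^ m1 *
          ∏ i ∈ Finset.univ.erase (σ b), ((c i : ↥(C i ⊓ fixedField G)) : L) ^ m1 := by
      rw [← Finset.mul_prod_erase Finset.univ _ (Finset.mem_univ (σ b)), Function.update_self]
      congr 1
      refine Finset.prod_congr rfl fun i hi => ?_
      rw [Function.update_of_ne (Finset.ne_of_mem_erase hi)]
    have h7 : ∏ i, ((c i : ↥(C i ⊓ fixedField G)) : L) ^ m1 =
        ((c (σ b) : ↥(C (σ b) ⊓ fixedField G)) : L) ^ m1 *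
          ∏ i ∈ Finset.univ.erase (σ b), ((c i : ↥(C i ⊓ fixedField G)) : L) ^ m1 :=
      (Finset.mul_prod_erase Finset.univ _ (Finset.mem_univ (σ b))).symm
    have h8 : (∏ i ∈ Finset.univ.erase (σ b), ((c i : ↥(C i ⊓ fixedField G)) : L) ^ m1) ≠ 0 :=
      Finset.prod_ne_zero_iff.2 fun i _ => pow_ne_zero _ fun h => hcne i (Subtype.ext h)
    rw [h6, h7, mul_div_mul_right _ _ h8, ← div_pow]
    push_cast
    rfl

end

end Pool.Agent.K4H25.GW
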